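import Pool.Agent.Lib.MP_0b43f8_lc.Core

/-!
Module CLOS: the bounded closure.
-/

namespace Pool.Agent.Lib.MP_0b43f8_lc

namespace ClosAux

variable {σ : Type} [DecidableEq σ] (init : List σ) (un : σ → List σ) (bin : σ → σ → List σ)

/-- one round without a bound -/
def T (S : List σ) : List σ :=
  (S ++ (init ++ (S.flatMap un ++ S.flatMap fun s => S.flatMap (bin s)))).dedup

theorem mem_T (S : List σ) (x : σ) : x ∈ T init un bin S ↔ x ∈ S ∨ x ∈ init ∨
    (∃ s ∈ S, x ∈ un s) ∨ ∃ s ∈ S, ∃ t ∈ S, x ∈ bin s t := by
  unfold T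
  rw [List.mem_dedup, List.mem_append, List.mem_append, List.mem_append, List.mem_flatMap,
    List.mem_flatMap]
  simp only [List.mem_flatMap]

theorem T_nodup (S : List σ) : (T init un bin S).Nodup := List.nodup_dedup _

theorem T_gen (S : List σ) (h : ∀ s ∈ S, Gen init un bin s) :
    ∀ s ∈ T init un bin S, Gen init un bin s := by
  intro x hx
  rcases (mem_T init un bin S x).1 hx with h1 | h1 | ⟨s, hs, h1⟩ | ⟨s, hs, t, ht, h1⟩
  · exact h x h1
  · exact Gen.init x h1
  · exact Gen.un s x (h s hs) h1
  · exact Gen.bin s t x (h s hs) (h t ht) h1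

theorem stepG_eq (M : ℕ) (S : List σ) : stepG init un bin M S =
    bif decide ((T init un bin S).length ≤ M) then T init un bin S else S := rfl

theorem length_le_of (S L : List σ) (hS : S.Nodup) (h : ∀ s ∈ S, s ∈ L) : S.length ≤ L.length :=
  (hS.subperm h).length_le

/-- a closed list contains everything -/
theorem closed (S : List σ) (h : ∀ x ∈ T init un bin S, x ∈ S) :
    ∀ x, Gen init un bin x → x ∈ S := by
  intro x hx
  induction hx with
  | init s h1 => exact h s ((mem_T init un bin S s).2 (Or.inr (Or.inl h1)))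
  | un s t _ h1 ih => exact h t ((mem_T init un bin S t).2 (Or.inr (Or.inr (Or.inl ⟨s, ih, h1⟩))))
  | bin s t r _ _ h1 ih1 ih2 =>
    exact h r ((mem_T init un bin S r).2 (Or.inr (Or.inr (Or.inr ⟨s, ih1, t, ih2, h1⟩))))

theorem iter (M : ℕ) (L : List σ) (hL : ∀ s, Gen init un bin s → s ∈ L) (hM : L.length ≤ M)
    (i : ℕ) : ((stepG init un bin M)^[i] []).Nodup ∧
      (∀ s ∈ (stepG init un bin M)^[i] [], Gen init un bin s) ∧
      ((∀ s, Gen init un bin s → s ∈ (stepG init un bin M)^[i] []) ∨
        i ≤ ((stepG init un bin M)^[i] []).length) := by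
  induction i with
  | zero =>
    refine ⟨List.nodup_nil, fun s hs => ?_, Or.inr (Nat.zero_le _)⟩
    exact absurd hs List.not_mem_nil
  | succ i ih =>
    obtain ⟨h1, h2, h3⟩ := ih
    rw [Function.iterate_succ_apply']
    set S := (stepG init un bin M)^[i] [] with hS
    have hg := T_gen init un bin S h2
    have hn := T_nodup init un bin S
    have hlen : (T init un bin S).length ≤ M :=
      (length_le_of _ L hn fun s hs => hL s (hg s hs)).trans hM
    have hstep : stepG init un bin M S = T init un bin S := by
      rw [stepG_eq, decide_eq_true hlen]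
      rfl
    rw [hstep]
    have hsub : ∀ s ∈ S, s ∈ T init un bin S := fun s hs => (mem_T init un bin S s).2 (Or.inl hs)
    refine ⟨hn, hg, ?_⟩
    rcases h3 with h3 | h3
    · exact Or.inl fun s hs => hsub s (h3 s hs)
    · by_cases hc : ∀ x ∈ T init un bin S, x ∈ S
      · exact Or.inl fun s hs => hsub s (closed init un bin S hc s hs)
      · right
        have h4 : S.length ≤ (T init un bin S).length := length_le_of _ _ h1 hsub
        have h5 : S.length ≠ (T init un bin S).length := by
          intro h5
          apply hc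
          intro x hx
          have h6 : S.Perm (T init un bin S) :=
            (h1.subperm hsub).perm_of_length_le h5.symm.le
          exact h6.mem_iff.2 hx
        omega

end ClosAux

theorem stClos : StClos := by
  intro σ _ init un bin M L hL hM s
  obtain ⟨h1, h2, h3⟩ := ClosAux.iter init un bin M L hL hM M
  unfold closG
  refine ⟨h2 s, fun hs => ?_⟩
  rcases h3 with h3 | h3
  · exact h3 s hs
  · have hsub : ∀ x ∈ (stepG init un bin M)^[M] [], x ∈ L := fun x hx => hL x (h2 x hx)
    have h6 : ((stepG init un bin M)^[M] []).Perm L :=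
      (h1.subperm hsub).perm_of_length_le (hM.trans h3)
    exact h6.mem_iff.2 (hL s hs)

end Pool.Agent.Lib.MP_0b43f8_lc
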