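import Pool.Agent.Lib.MP_0b43f8_lc.Core

set_option autoImplicit false

/-!
# The component by `n` rounds
-/

namespace Pool.Agent.Lib.MP_0b43f8_lc

namespace CmpAux

/-- one round -/
def rd (adj : ℕ → ℕ → Bool) (n : ℕ) (S : List ℕ) : List ℕ :=
  (List.range n).filter fun x => decide (x ∈ S) || S.any fun y => adj y x

theorem mem_rd (adj : ℕ → ℕ → Bool) (n : ℕ) (S : List ℕ) (x : ℕ) :
    x ∈ rd adj n S ↔ x < n ∧ (x ∈ S ∨ ∃ y ∈ S, adj y x = true) := by
  simp [rd]

theorem reach_lt {G : SimpleGraph ℕ} {n : ℕ} (h : ∀ u v, G.Adj u v → u < n ∧ v < n) {v u : ℕ}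
    (hv : v < n) (p : G.Walk v u) : u < n := by
  induction p with
  | nil => exact hv
  | cons hadj p ih => exact ih (h _ _ hadj).2

theorem mem_iter (adj : ℕ → ℕ → Bool) (G : SimpleGraph ℕ) (n : ℕ)
    (hG : ∀ u v, G.Adj u v ↔ adj u v = true) (h : ∀ u v, G.Adj u v → u < n ∧ v < n) (v : ℕ)
    (hv : v < n) (i x : ℕ) :
    x ∈ (rd adj n)^[i] [v] ↔ ∃ p : G.Walk v x, p.length ≤ i := by
  induction i generalizing x with
  | zero =>
    simp only [Function.iterate_zero, id_eq, List.mem_singleton]
    constructor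
    · rintro rfl
      exact ⟨SimpleGraph.Walk.nil, le_refl _⟩
    · rintro ⟨p, hp⟩
      exact (SimpleGraph.Walk.eq_of_length_eq_zero (Nat.le_zero.1 hp)).symm
  | succ i ih =>
    rw [Function.iterate_succ_apply', mem_rd]
    constructor
    · rintro ⟨_, hx | ⟨y, hy, hyx⟩⟩
      · obtain ⟨p, hp⟩ := (ih x).1 hx
        exact ⟨p, hp.trans (Nat.le_succ i)⟩
      · obtain ⟨p, hp⟩ := (ih y).1 hy
        refine ⟨p.concat ((hG y x).2 hyx), ?_⟩
        rw [SimpleGraph.Walk.length_concat]
        omega
    · rintro ⟨p, hp⟩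
      refine ⟨reach_lt h hv p, ?_⟩
      rcases Nat.lt_or_ge i p.length with h1 | h1
      · right
        -- the last step
        have hq : ∃ y, ∃ q : G.Walk v y, G.Adj y x ∧ q.length + 1 = p.length := by
          have h2 : ¬ p.reverse.Nil := by
            rw [← SimpleGraph.Walk.length_eq_zero_iff, SimpleGraph.Walk.length_reverse]
            omega
          cases hr : p.reverse with
          | nil =>
            rw [hr] at h2
            exact absurd SimpleGraph.Walk.Nil.nil h2
          | cons hadj q =>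
            refine ⟨_, q.reverse, hadj.symm, ?_⟩
            rw [SimpleGraph.Walk.length_reverse, ← SimpleGraph.Walk.length_reverse p, hr,
              SimpleGraph.Walk.length_cons]
        obtain ⟨y, q, hyx, hl⟩ := hq
        exact ⟨y, (ih y).2 ⟨q, by omega⟩, (hG y x).1 hyx⟩
      · left
        exact (ih x).2 ⟨p, h1⟩

end CmpAux

open CmpAux in
theorem stCmp : StCmp := by
  classical
  intro adj G n hG h v hv u
  have h1 : compS adj n v = (rd adj n)^[n] [v] := rfl
  rw [h1, mem_iter adj G n hG h v hv]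
  constructor
  · rintro ⟨p, -⟩
    exact ⟨p⟩
  · rintro ⟨p⟩
    refine ⟨p.toPath, ?_⟩
    have h2 : (p.toPath : G.Walk v u).support.Nodup := p.toPath.2.support_nodup
    have h3 : (p.toPath : G.Walk v u).support ⊆ List.range n := by
      intro x hx
      rw [List.mem_range]
      exact reach_lt h hv ((p.toPath : G.Walk v u).takeUntil x hx)
    have h4 := (h2.subperm h3).length_le
    rw [SimpleGraph.Walk.length_support, List.length_range] at h4
    omega

end Pool.Agent.Lib.MP_0b43f8_lc
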