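import Pool.Agent.Lib.MP_0b43f8_lc.Core

set_option autoImplicit false

/-! COMP: completeness of the operations on states. -/

namespace Pool.Agent.Lib.MP_0b43f8_lc

namespace CompAux

theorem mem_prs {a b : ℕ} {x : ℕ × ℕ} : x ∈ prs a b ↔ x.1 < a ∧ x.2 < b := by
  unfold prs
  simp only [List.mem_flatMap, List.mem_range, List.mem_map]
  constructor
  · rintro ⟨i, hi, j, hj, rfl⟩
    exact ⟨hi, hj⟩
  · rintro ⟨h1, h2⟩
    exact ⟨x.1, h1, x.2, h2, rfl⟩

theorem mem_mk1 {n k : ℕ} {p : ℕ → Bool} {q r : ℕ × ℕ → Bool} {x : ℕ} :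
    x ∈ (mkS n k p q r).1 ↔ x < n ∧ p x = true := by
  unfold mkS
  simp

theorem mem_mk2 {n k : ℕ} {p : ℕ → Bool} {q r : ℕ × ℕ → Bool} {x : ℕ × ℕ} :
    x ∈ (mkS n k p q r).2.1 ↔ (x.1 < k ∧ x.2 < n) ∧ q x = true := by
  unfold mkS
  simp only [List.mem_filter, mem_prs]

theorem mem_mk3 {n k : ℕ} {p : ℕ → Bool} {q r : ℕ × ℕ → Bool} {x : ℕ × ℕ} :
    x ∈ (mkS n k p q r).2.2 ↔ (x.1 < k ∧ x.2 < k) ∧ r x = true := by
  unfold mkS
  simp only [List.mem_filter, mem_prs]

variable {adj : ℕ → ℕ → Bool} {G : SimpleGraph ℕ} {n k : ℕ} {U : List ℕ} {l l' : ℕ → ℕ}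
  {s t : DS} {X Y : Finset ℕ}

theorem sameOut_iff {A B : List ℕ} {x y : ℕ} : sameOut adj U A B x y = true ↔
    ∀ w ∈ U, w ∉ A → w ∉ B → adj x w = adj y w := by
  unfold sameOut
  simp only [List.all_eq_true, Bool.or_eq_true, decide_eq_true_eq]
  constructor
  · intro h w hw h1 h2
    rcases h w hw with h3 | h3 | h3
    · exact absurd h3 h1
    · exact absurd h3 h2
    · exact h3
  · intro h w hw
    by_cases h1 : w ∈ A
    · exact Or.inl h1
    by_cases h2 : w ∈ B
    · exact Or.inr (Or.inl h2)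
    exact Or.inr (Or.inr (h w hw h1 h2))

theorem relabOK_iff {i j : ℕ} : relabOK adj U i j s = true ↔
    i ≠ j ∧ ∀ p ∈ s.2.1, ∀ q ∈ s.2.1, p.1 = i → q.1 = j → sameOut adj U s.1 [] p.2 q.2 = true := by
  unfold relabOK
  simp only [Bool.and_eq_true, Bool.not_eq_true', decide_eq_false_iff_not, List.all_eq_true,
    Bool.or_eq_true]
  constructor
  · rintro ⟨h1, h2⟩
    refine ⟨h1, fun p hp q hq hi hj => ?_⟩
    rcases h2 p hp q hq with h3 | h3 | h3
    · exact absurd hi h3
    · exact absurd hj h3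
    · exact h3
  · rintro ⟨h1, h2⟩
    refine ⟨h1, fun p hp q hq => ?_⟩
    by_cases hi : p.1 = i
    · by_cases hj : q.1 = j
      · exact Or.inr (Or.inr (h2 p hp q hq hi hj))
      · exact Or.inr (Or.inl hj)
    · exact Or.inl hi

theorem crossK_iff {b : ℕ × ℕ} : crossK adj s t b = true ↔
    b ∈ s.2.2 ∧ b ∈ t.2.2 ∧ ∀ p ∈ s.2.1, ∀ q ∈ t.2.1,
      (p.1 = b.1 → q.1 = b.2 → adj p.2 q.2 = true) ∧
      (p.1 = b.2 → q.1 = b.1 → adj p.2 q.2 = true) := by
  unfold crossK
  simp only [Bool.and_eq_true, decide_eq_true_eq, List.all_eq_true, Bool.or_eq_true,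
    Bool.not_eq_true', decide_eq_false_iff_not]
  constructor
  · rintro ⟨h1, h2, h3⟩
    refine ⟨h1, h2, fun p hp q hq => ?_⟩
    obtain ⟨h4, h5⟩ := h3 p hp q hq
    constructor
    · intro h6 h7
      rcases h4 with h | h | h
      · exact absurd h6 h
      · exact absurd h7 h
      · exact h
    · intro h6 h7
      rcases h5 with h | h | h
      · exact absurd h6 h
      · exact absurd h7 h
      · exact h
  · rintro ⟨h1, h2, h3⟩
    refine ⟨h1, h2, fun p hp q hq => ?_⟩
    obtain ⟨h4, h5⟩ := h3 p hp q hq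
    constructor
    · by_cases h6 : p.1 = b.1
      · by_cases h7 : q.1 = b.2
        · exact Or.inr (Or.inr (h4 h6 h7))
        · exact Or.inr (Or.inl h7)
      · exact Or.inl h6
    · by_cases h6 : p.1 = b.2
      · by_cases h7 : q.1 = b.1
        · exact Or.inr (Or.inr (h5 h6 h7))
        · exact Or.inr (Or.inl h7)
      · exact Or.inl h6

theorem mem_relab2 {i j : ℕ} {b : ℕ × ℕ} : b ∈ (relabS n k i j s).2.1 ↔
    (b.1 < k ∧ b.2 < n) ∧ b.1 ≠ i ∧ ((b.1 = j ∧ (b ∈ s.2.1 ∨ ((i, b.2) ∈ s.2.1 ∧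
      ∀ c ∈ s.2.1, c.1 ≠ j))) ∨ (b.1 ≠ j ∧ b ∈ s.2.1)) := by
  unfold relabS
  rw [mem_mk2]
  refine and_congr_right fun _ => ?_
  by_cases h1 : b.1 = i
  · simp [h1]
  · by_cases h2 : b.1 = j
    · simp [h1, h2]
    · simp [h1, h2]

theorem mem_relab3 {i j : ℕ} {b : ℕ × ℕ} : b ∈ (relabS n k i j s).2.2 ↔
    (b.1 < k ∧ b.2 < k) ∧ (b.1 = b.2 ∨ b.1 = i ∨ b.2 = i ∨ (b ∈ s.2.2 ∧
      (b.1 = j → (i, b.2) ∈ s.2.2) ∧ (b.2 = j → (b.1, i) ∈ s.2.2))) := by
  unfold relabS
  rw [mem_mk3]
  refine and_congr_right fun _ => ?_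
  simp only [Bool.or_eq_true, decide_eq_true_eq, Bool.and_eq_true, Bool.not_eq_true',
    decide_eq_false_iff_not, imp_iff_not_or]

theorem mem_union2 {b : ℕ × ℕ} : b ∈ (unionS adj n k s t).2.1 ↔
    (b.1 < k ∧ b.2 < n) ∧ (b ∈ s.2.1 ∨ (b ∈ t.2.1 ∧ ∀ c ∈ s.2.1, c.1 ≠ b.1)) := by
  unfold unionS
  rw [mem_mk2]
  simp

theorem mem_union3 {b : ℕ × ℕ} : b ∈ (unionS adj n k s t).2.2 ↔
    (b.1 < k ∧ b.2 < k) ∧ (b.1 = b.2 ∨ crossK adj s t b = true) := by
  unfold unionS
  rw [mem_mk3]
  simp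

theorem Repr.congr (h : Repr G n k U l s) (e : ∀ v ∈ s.1, l v = l' v) : Repr G n k U l' s where
  sub := h.sub
  canon := h.canon
  lab v hv := by rw [← e v hv]; exact h.lab v hv
  unif u hu v hv huv := h.unif u hu v hv (by rw [e u hu, e v hv, huv])
  rep1 p hp := by
    obtain ⟨h1, h2⟩ := h.rep1 p hp
    exact ⟨h1, by rw [← e _ h1, h2]⟩
  rep2 v hv := by rw [← e v hv]; exact h.rep2 v hv
  rep3 := h.rep3
  com a ha b hb := by
    rw [h.com a ha b hb]
    constructor
    · rintro (h1 | h1)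
      · exact Or.inl h1
      · exact Or.inr fun u hu v hv hua hvb => h1 u hu v hv (by rw [e u hu, hua]) (by rw [e v hv, hvb])
    · rintro (h1 | h1)
      · exact Or.inl h1
      · exact Or.inr fun u hu v hv hua hvb =>
          h1 u hu v hv (by rw [← e u hu, hua]) (by rw [← e v hv, hvb])

/-- leaves -/
theorem leaf (hU : ∀ v ∈ U, v < n) {v : ℕ} (hv : v ∈ U) (hl : l v < k) :
    (leafS n k v (l v)).1.toFinset = {v} ∧ Repr G n k U l (leafS n k v (l v)) := by
  have h1 : ∀ x, x ∈ (leafS n k v (l v)).1 ↔ x = v := by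
    intro x
    unfold leafS
    rw [mem_mk1]
    simp only [decide_eq_true_eq]
    exact ⟨fun h => h.2, fun h => ⟨by rw [h]; exact hU v hv, h⟩⟩
  have h2 : ∀ b, b ∈ (leafS n k v (l v)).2.1 ↔ b = (l v, v) := by
    intro b
    unfold leafS
    rw [mem_mk2]
    simp only [decide_eq_true_eq]
    exact ⟨fun h => h.2, fun h => ⟨by rw [h]; exact ⟨hl, hU v hv⟩, h⟩⟩
  have h3 : ∀ b, b ∈ (leafS n k v (l v)).2.2 ↔ b.1 < k ∧ b.2 < k := by
    intro b
    unfold leafS
    rw [mem_mk3]
    simp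
  refine ⟨?_, ?_⟩
  · ext x
    rw [List.mem_toFinset, h1, Finset.mem_singleton]
  · refine ⟨?_, ⟨_, _, _, rfl⟩, ?_, ?_, ?_, ?_, ?_, ?_⟩
    · intro x hx
      rw [h1] at hx
      rw [hx]; exact hv
    · intro x hx
      rw [h1] at hx
      rw [hx]; exact hl
    · intro x hx y hy _ w _ _
      rw [h1] at hx hy
      rw [hx, hy]
    · intro p hp
      rw [h2] at hp
      rw [h1, hp]
      exact ⟨rfl, rfl⟩
    · intro x hx
      rw [h1] at hx
      exact ⟨v, by rw [h2, hx]⟩
    · intro p hp q hq _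
      rw [h2] at hp hq
      rw [hp, hq]
    · intro a ha b hb
      rw [h3]
      refine ⟨fun _ => ?_, fun _ => ⟨ha, hb⟩⟩
      by_cases hab : a = b
      · exact Or.inl hab
      · right
        intro x hx y hy h4 h5
        rw [h1] at hx hy
        rw [hx] at h4
        rw [hy] at h5
        exact absurd (h4.symm.trans h5) hab

/-- relabelling -/
theorem relab (hU : ∀ v ∈ U, v < n) {i j : ℕ} (hij : i ≠ j) (hj : j < k) (hi : i < k)
    (hs : s.1.toFinset = X) (h : Repr G n k U l s)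
    (hun : ∀ u ∈ X, ∀ v ∈ X, (if l u = i then j else l u) = (if l v = i then j else l v) →
      ∀ w ∈ U, w ∉ X → (G.Adj u w ↔ G.Adj v w)) :
    (relabS n k i j s).1.toFinset = X ∧
      Repr G n k U (fun v => if l v = i then j else l v) (relabS n k i j s) := by
  have hX : ∀ x, x ∈ s.1 ↔ x ∈ X := fun x => by rw [← hs, List.mem_toFinset]
  have h1 : ∀ x, x ∈ (relabS n k i j s).1 ↔ x ∈ X := by
    intro x
    unfold relabS
    rw [mem_mk1, decide_eq_true_eq, hX]
    exact ⟨fun h => h.2, fun h' => ⟨hU x (h.sub x ((hX x).2 h')), h'⟩⟩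
  refine ⟨by ext x; rw [List.mem_toFinset, h1], ⟨?_, ⟨_, _, _, rfl⟩, ?_, ?_, ?_, ?_, ?_, ?_⟩⟩
  · intro x hx
    exact h.sub x ((hX x).2 ((h1 x).1 hx))
  · intro x hx
    split_ifs
    · exact hj
    · exact h.lab x ((hX x).2 ((h1 x).1 hx))
  · intro x hx y hy hxy w hw hwn
    exact hun x ((h1 x).1 hx) y ((h1 y).1 hy) hxy w hw (fun hwX => hwn ((h1 w).2 hwX))
  · intro p hp
    rw [mem_relab2] at hp
    obtain ⟨_, hpi, hp⟩ := hp
    rw [h1]
    rcases hp with ⟨hpj, hp | ⟨hp, _⟩⟩ | ⟨_, hp⟩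
    · obtain ⟨h2, h3⟩ := h.rep1 p hp
      refine ⟨(hX _).1 h2, ?_⟩
      rw [if_neg (by rw [h3]; exact hpi), h3]
    · obtain ⟨h2, h3⟩ := h.rep1 _ hp
      refine ⟨(hX _).1 h2, ?_⟩
      simp only at h3 ⊢
      rw [if_pos h3, hpj]
    · obtain ⟨h2, h3⟩ := h.rep1 p hp
      refine ⟨(hX _).1 h2, ?_⟩
      rw [if_neg (by rw [h3]; exact hpi), h3]
  · intro v hv
    have hv' : v ∈ s.1 := (hX v).2 ((h1 v).1 hv)
    obtain ⟨r, hr⟩ := h.rep2 v hv'
    have hr' := h.rep1 _ hr
    have hrn : r < n := hU r (h.sub r hr'.1)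
    split_ifs with hvi
    · by_cases hc : ∃ c ∈ s.2.1, c.1 = j
      · obtain ⟨c, hc, hcj⟩ := hc
        have hc' := h.rep1 _ hc
        refine ⟨c.2, ?_⟩
        rw [mem_relab2]
        refine ⟨⟨hj, hU _ (h.sub _ hc'.1)⟩, fun h => hij h.symm, Or.inl ⟨rfl, Or.inl ?_⟩⟩
        rw [← hcj]; exact hc
      · push Not at hc
        refine ⟨r, ?_⟩
        rw [mem_relab2]
        refine ⟨⟨hj, hrn⟩, fun h => hij h.symm, Or.inl ⟨rfl, Or.inr ⟨?_, hc⟩⟩⟩
        rw [hvi] at hr
        exact hr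
    · refine ⟨r, ?_⟩
      rw [mem_relab2]
      refine ⟨⟨h.lab v hv', hrn⟩, hvi, ?_⟩
      by_cases hvj : l v = j
      · exact Or.inl ⟨hvj, Or.inl hr⟩
      · exact Or.inr ⟨hvj, hr⟩
  · intro p hp q hq hpq
    rw [mem_relab2] at hp hq
    obtain ⟨_, hpi, hp⟩ := hp
    obtain ⟨_, hqi, hq⟩ := hq
    rcases hp with ⟨hpj, hp | ⟨hp, hpc⟩⟩ | ⟨hpj, hp⟩ <;>
    rcases hq with ⟨hqj, hq | ⟨hq, hqc⟩⟩ | ⟨hqj, hq⟩
    · exact h.rep3 p hp q hq hpq
    · exact absurd hpj (hqc p hp)
    · exact h.rep3 p hp q hq hpq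
    · exact absurd hqj (hpc q hq)
    · have := h.rep3 _ hp _ hq rfl
      have h2 : p.2 = q.2 := by simpa using this
      exact Prod.ext hpq h2
    · exact absurd (hpq.symm.trans hpj) hqj
    · exact h.rep3 p hp q hq hpq
    · exact absurd (hpq.trans hqj) hpj
    · exact h.rep3 p hp q hq hpq
  · intro a ha b hb
    rw [mem_relab3]
    simp only [h1]
    constructor
    · rintro ⟨_, h2 | h2 | h2 | ⟨h2, h3, h4⟩⟩
      · exact Or.inl h2
      · right
        intro u hu v hv hua _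
        exfalso
        split_ifs at hua with hui
        · exact hij (h2.symm.trans hua.symm)
        · exact hui (hua.trans h2)
      · right
        intro u hu v hv _ hvb
        exfalso
        split_ifs at hvb with hvi
        · exact hij (h2.symm.trans hvb.symm)
        · exact hvi (hvb.trans h2)
      · by_cases hab : a = b
        · exact Or.inl hab
        right
        intro u hu v hv hua hvb
        have hu' := (hX u).2 hu
        have hv' := (hX v).2 hv
        by_cases hai : a = i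
        · exfalso
          split_ifs at hua with hui
          · exact hij (hai.symm.trans hua.symm)
          · exact hui (hua.trans hai)
        by_cases hbi : b = i
        · exfalso
          split_ifs at hvb with hvi
          · exact hij (hbi.symm.trans hvb.symm)
          · exact hvi (hvb.trans hbi)
        split_ifs at hua with hui <;> split_ifs at hvb with hvi
        · exact absurd (hua.symm.trans hvb) hab
        · rcases (h.com i hi b hb).1 (h3 hua.symm) with h5 | h5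
          · exact absurd h5.symm hbi
          · exact h5 u hu' v hv' hui hvb
        · rcases (h.com a ha i hi).1 (h4 hvb.symm) with h5 | h5
          · exact absurd h5 hai
          · exact h5 u hu' v hv' hua hvi
        · rcases (h.com a ha b hb).1 h2 with h5 | h5
          · exact absurd h5 hab
          · exact h5 u hu' v hv' hua hvb
    · intro h2
      refine ⟨⟨ha, hb⟩, ?_⟩
      rcases h2 with h2 | h2
      · exact Or.inl h2
      by_cases hai : a = i
      · exact Or.inr (Or.inl hai)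
      by_cases hbi : b = i
      · exact Or.inr (Or.inr (Or.inl hbi))
      refine Or.inr (Or.inr (Or.inr ⟨?_, ?_, ?_⟩))
      · rw [h.com a ha b hb]
        right
        intro u hu v hv hua hvb
        exact h2 u ((hX u).1 hu) v ((hX v).1 hv) (by rw [if_neg (by rw [hua]; exact hai), hua])
          (by rw [if_neg (by rw [hvb]; exact hbi), hvb])
      · intro haj
        rw [h.com i hi b hb]
        right
        intro u hu v hv hua hvb
        exact h2 u ((hX u).1 hu) v ((hX v).1 hv) (by rw [if_pos hua, haj])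
          (by rw [if_neg (by rw [hvb]; exact hbi), hvb])
      · intro hbj
        rw [h.com a ha i hi]
        right
        intro u hu v hv hua hvb
        exact h2 u ((hX u).1 hu) v ((hX v).1 hv) (by rw [if_neg (by rw [hua]; exact hai), hua])
          (by rw [if_pos hvb, hbj])

/-- unions -/
theorem union (hadj : ∀ u v, G.Adj u v ↔ adj u v = true) (hU : ∀ v ∈ U, v < n)
    (hd : Disjoint X Y) (hs : s.1.toFinset = X) (ht : t.1.toFinset = Y)
    (h : Repr G n k U l s) (h' : Repr G n k U l t)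
    (h1 : ∀ u ∈ X, ∀ v ∈ Y, l u = l v → ¬ G.Adj u v)
    (h2 : ∀ u ∈ X, ∀ v ∈ Y, G.Adj u v → ∀ u' ∈ X ∪ Y, ∀ v' ∈ X ∪ Y, l u' = l u → l v' = l v →
        G.Adj u' v')
    (hun : ∀ u ∈ X ∪ Y, ∀ v ∈ X ∪ Y, l u = l v → ∀ w ∈ U, w ∉ X ∪ Y → (G.Adj u w ↔ G.Adj v w)) :
    unionOK adj U s t = true ∧ (unionS adj n k s t).1.toFinset = X ∪ Y ∧
      Repr G n k U l (unionS adj n k s t) := by
  have hX : ∀ x, x ∈ s.1 ↔ x ∈ X := fun x => by rw [← hs, List.mem_toFinset]
  have hY : ∀ x, x ∈ t.1 ↔ x ∈ Y := fun x => by rw [← ht, List.mem_toFinset]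
  have hX' : ∀ x ∈ X, x ∈ X ∪ Y := fun x hx => Finset.mem_union_left _ hx
  have hY' : ∀ x ∈ Y, x ∈ X ∪ Y := fun x hx => Finset.mem_union_right _ hx
  have hnot : ∀ x, x ∈ X → x ∉ Y := fun x hx hy => (Finset.disjoint_left.1 hd) hx hy
  have hsU : ∀ x ∈ X, x ∈ U := fun x hx => h.sub x ((hX x).2 hx)
  have htU : ∀ x ∈ Y, x ∈ U := fun x hx => h'.sub x ((hY x).2 hx)
  -- complete joins
  have hcr : ∀ a, a < k → ∀ b, b < k → a ≠ b → (crossK adj s t (a, b) = true ↔
      ∀ u ∈ X ∪ Y, ∀ v ∈ X ∪ Y, l u = a → l v = b → G.Adj u v) := by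
    intro a ha b hb hab
    rw [crossK_iff]
    constructor
    · rintro ⟨h3, h4, h5⟩ u hu v hv hua hvb
      have h3' := ((h.com a ha b hb).1 h3).resolve_left hab
      have h4' := ((h'.com a ha b hb).1 h4).resolve_left hab
      rw [Finset.mem_union] at hu hv
      rcases hu with hu | hu <;> rcases hv with hv | hv
      · exact h3' u ((hX u).2 hu) v ((hX v).2 hv) hua hvb
      · obtain ⟨r1, hr1⟩ := h.rep2 u ((hX u).2 hu)
        obtain ⟨r2, hr2⟩ := h'.rep2 v ((hY v).2 hv)
        have e1 := h.rep1 _ hr1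
        have e2 := h'.rep1 _ hr2
        simp only at e1 e2
        have h6 := (h5 _ hr1 _ hr2).1 hua hvb
        simp only at h6
        rw [← hadj] at h6
        have hr2Y : r2 ∈ Y := (hY _).1 e2.1
        have h7 : G.Adj u r2 := (h.unif u ((hX u).2 hu) r1 e1.1 e1.2.symm r2 (htU _ hr2Y)
          (fun h => hnot _ ((hX _).1 h) hr2Y)).2 h6
        have h8 : G.Adj v u := (h'.unif v ((hY v).2 hv) r2 e2.1 e2.2.symm u (hsU _ hu)
          (fun h => hnot _ hu ((hY _).1 h))).2 h7.symm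
        exact h8.symm
      · obtain ⟨r1, hr1⟩ := h.rep2 v ((hX v).2 hv)
        obtain ⟨r2, hr2⟩ := h'.rep2 u ((hY u).2 hu)
        have e1 := h.rep1 _ hr1
        have e2 := h'.rep1 _ hr2
        simp only at e1 e2
        have h6 := (h5 _ hr1 _ hr2).2 hvb hua
        simp only at h6
        rw [← hadj] at h6
        have hr2Y : r2 ∈ Y := (hY _).1 e2.1
        have h7 : G.Adj v r2 := (h.unif v ((hX v).2 hv) r1 e1.1 e1.2.symm r2 (htU _ hr2Y)
          (fun h => hnot _ ((hX _).1 h) hr2Y)).2 h6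
        exact (h'.unif u ((hY u).2 hu) r2 e2.1 e2.2.symm v (hsU _ hv)
          (fun h => hnot _ hv ((hY _).1 h))).2 h7.symm
      · exact h4' u ((hY u).2 hu) v ((hY v).2 hv) hua hvb
    · intro h3
      refine ⟨?_, ?_, ?_⟩
      · rw [h.com a ha b hb]
        exact Or.inr fun u hu v hv => h3 u (hX' _ ((hX u).1 hu)) v (hX' _ ((hX v).1 hv))
      · rw [h'.com a ha b hb]
        exact Or.inr fun u hu v hv => h3 u (hY' _ ((hY u).1 hu)) v (hY' _ ((hY v).1 hv))
      · intro p hp q hq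
        obtain ⟨e1, e1'⟩ := h.rep1 p hp
        obtain ⟨e2, e2'⟩ := h'.rep1 q hq
        constructor
        · intro hpa hqb
          rw [← hadj]
          exact h3 _ (hX' _ ((hX _).1 e1)) _ (hY' _ ((hY _).1 e2)) (e1'.trans hpa) (e2'.trans hqb)
        · intro hpb hqa
          rw [← hadj]
          exact (h3 _ (hY' _ ((hY _).1 e2)) _ (hX' _ ((hX _).1 e1)) (e2'.trans hqa)
            (e1'.trans hpb)).symm
  refine ⟨?_, ?_, ?_⟩
  · unfold unionOK
    rw [Bool.and_eq_true, List.all_eq_true, List.all_eq_true]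
    constructor
    · intro x hx
      simp only [Bool.not_eq_true', decide_eq_false_iff_not]
      rw [hY]
      exact hnot x ((hX x).1 hx)
    · intro p hp
      rw [List.all_eq_true]
      intro q hq
      obtain ⟨e1, e1'⟩ := h.rep1 p hp
      obtain ⟨e2, e2'⟩ := h'.rep1 q hq
      have m1 := (hX _).1 e1
      have m2 := (hY _).1 e2
      by_cases hpq : p.1 = q.1
      · simp only [hpq, decide_true, cond_true, Bool.and_eq_true, Bool.not_eq_true']
        constructor
        · have := h1 _ m1 _ m2 (by rw [e1', e2', hpq])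
          rw [hadj] at this
          simpa using this
        · rw [sameOut_iff]
          intro w hw hw1 hw2
          have := hun _ (hX' _ m1) _ (hY' _ m2) (by rw [e1', e2', hpq]) w hw (by
            rw [Finset.mem_union, not_or]
            exact ⟨fun hx => hw1 ((hX w).2 hx), fun hy => hw2 ((hY w).2 hy)⟩)
          rw [hadj, hadj] at this
          exact Bool.eq_iff_iff.2 this
      · simp only [hpq, decide_false, cond_false, Bool.or_eq_true, Bool.not_eq_true']
        by_cases ha : adj p.2 q.2 = true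
        · right
          have ha' := (hadj _ _).2 ha
          have l1 : p.1 < k := by rw [← e1']; exact h.lab _ e1
          have l2 : q.1 < k := by rw [← e2']; exact h'.lab _ e2
          rw [hcr _ l1 _ l2 hpq]
          intro u hu v hv hua hvb
          exact h2 _ m1 _ m2 ha' u hu v hv (hua.trans e1'.symm) (hvb.trans e2'.symm)
        · left
          simpa using ha
  · ext x
    rw [List.mem_toFinset]
    unfold unionS
    rw [mem_mk1, Finset.mem_union, Bool.or_eq_true, decide_eq_true_eq, decide_eq_true_eq, hX, hY]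
    constructor
    · exact fun h => h.2
    · intro h
      refine ⟨?_, h⟩
      rcases h with h | h
      · exact hU _ (hsU _ h)
      · exact hU _ (htU _ h)
  · have hm : ∀ x, x ∈ (unionS adj n k s t).1 ↔ x ∈ X ∪ Y := by
      intro x
      unfold unionS
      rw [mem_mk1, Finset.mem_union, Bool.or_eq_true, decide_eq_true_eq, decide_eq_true_eq, hX, hY]
      constructor
      · exact fun h => h.2
      · intro h
        refine ⟨?_, h⟩
        rcases h with h | h
        · exact hU _ (hsU _ h)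
        · exact hU _ (htU _ h)
    refine ⟨?_, ⟨_, _, _, rfl⟩, ?_, ?_, ?_, ?_, ?_, ?_⟩
    · intro x hx
      rw [hm, Finset.mem_union] at hx
      rcases hx with hx | hx
      · exact hsU _ hx
      · exact htU _ hx
    · intro x hx
      rw [hm, Finset.mem_union] at hx
      rcases hx with hx | hx
      · exact h.lab _ ((hX _).2 hx)
      · exact h'.lab _ ((hY _).2 hx)
    · intro x hx y hy hxy w hw hwn
      rw [hm] at hx hy hwn
      exact hun x hx y hy hxy w hw hwn
    · intro p hp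
      rw [mem_union2] at hp
      rw [hm]
      rcases hp.2 with hp | ⟨hp, _⟩
      · obtain ⟨e1, e1'⟩ := h.rep1 p hp
        exact ⟨hX' _ ((hX _).1 e1), e1'⟩
      · obtain ⟨e1, e1'⟩ := h'.rep1 p hp
        exact ⟨hY' _ ((hY _).1 e1), e1'⟩
    · intro v hv
      rw [hm, Finset.mem_union] at hv
      rcases hv with hv | hv
      · obtain ⟨r, hr⟩ := h.rep2 v ((hX _).2 hv)
        have e1 := h.rep1 _ hr
        exact ⟨r, mem_union2.2 ⟨⟨h.lab _ ((hX _).2 hv), hU _ (h.sub _ e1.1)⟩, Or.inl hr⟩⟩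
      · obtain ⟨r, hr⟩ := h'.rep2 v ((hY _).2 hv)
        have e1 := h'.rep1 _ hr
        by_cases hc : ∃ c ∈ s.2.1, c.1 = l v
        · obtain ⟨c, hc, hcl⟩ := hc
          have e2 := h.rep1 _ hc
          refine ⟨c.2, mem_union2.2 ⟨⟨h'.lab _ ((hY _).2 hv), hU _ (h.sub _ e2.1)⟩, Or.inl ?_⟩⟩
          rw [← hcl]; exact hc
        · push Not at hc
          exact ⟨r, mem_union2.2 ⟨⟨h'.lab _ ((hY _).2 hv), hU _ (h'.sub _ e1.1)⟩,
            Or.inr ⟨hr, hc⟩⟩⟩
    · intro p hp q hq hpq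
      rw [mem_union2] at hp hq
      rcases hp.2 with hp | ⟨hp, hpc⟩ <;> rcases hq.2 with hq | ⟨hq, hqc⟩
      · exact h.rep3 p hp q hq hpq
      · exact absurd hpq (hqc p hp)
      · exact absurd hpq.symm (hpc q hq)
      · exact h'.rep3 p hp q hq hpq
    · intro a ha b hb
      rw [mem_union3]
      by_cases hab : a = b
      · simp [hab, hb]
      · simp only [hab, false_or, hcr a ha b hb hab, ha, hb, true_and, and_self, hm]

end CompAux

open CompAux in
/-- COMP -/
theorem stComp : StComp := by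
  intro adj G n k U hadj hU X l hg
  induction hg with
  | single v l h =>
    intro hX _
    have hv : v ∈ U := hX v (Finset.mem_singleton_self v)
    obtain ⟨h1, h2⟩ := leaf (G := G) (l := l) hU hv h
    refine ⟨_, Gen.init _ ?_, h1, h2⟩
    unfold initS
    rw [List.mem_flatMap]
    exact ⟨v, hv, List.mem_map.2 ⟨l v, List.mem_range.2 h, rfl⟩⟩
  | congr X l l' h e ih =>
    intro hX hun
    obtain ⟨s, h1, h2, h3⟩ := ih hX (fun u hu v hv huv => hun u hu v hv (by
      rw [← e u hu, ← e v hv, huv]))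
    refine ⟨s, h1, h2, Repr.congr h3 fun v hv => e v ?_⟩
    rw [← h2, List.mem_toFinset]; exact hv
  | relab X l i j hj h ih =>
    intro hX hun
    obtain ⟨s, h1, h2, h3⟩ := ih hX (fun u hu v hv huv => hun u hu v hv (by simp only [huv]))
    have hsX : ∀ x, x ∈ s.1 ↔ x ∈ X := fun x => by rw [← h2, List.mem_toFinset]
    by_cases hij : i = j
    · refine ⟨s, h1, h2, Repr.congr h3 fun v hv => ?_⟩
      split_ifs with h4
      · rw [h4, hij]
      · rfl
    by_cases hi : i < k
    · obtain ⟨h4, h5⟩ := CompAux.relab hU hij hj hi h2 h3 hun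
      refine ⟨_, Gen.un s _ h1 ?_, h4, h5⟩
      unfold unS
      rw [List.mem_flatMap]
      refine ⟨(i, j), mem_prs.2 ⟨hi, hj⟩, ?_⟩
      have h6 : relabOK adj U i j s = true := by
        rw [relabOK_iff]
        refine ⟨hij, fun p hp q hq hpi hqj => ?_⟩
        obtain ⟨e1, e1'⟩ := h3.rep1 p hp
        obtain ⟨e2, e2'⟩ := h3.rep1 q hq
        rw [sameOut_iff]
        intro w hw hw1 _
        have := hun _ ((hsX _).1 e1) _ ((hsX _).1 e2) (by
          simp only
          rw [if_pos (by rw [e1', hpi]), if_neg (by rw [e2', hqj]; exact fun h => hij h.symm),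
            e2', hqj]) w hw (fun hwX => hw1 ((hsX w).2 hwX))
        rw [hadj, hadj] at this
        exact Bool.eq_iff_iff.2 this
      simp only [h6, cond_true, List.mem_singleton]
    · refine ⟨s, h1, h2, Repr.congr h3 fun v hv => ?_⟩
      rw [if_neg]
      intro h4
      have := h3.lab v hv
      omega
  | union X Y l hX hY hd h1 h2 ihX ihY =>
    intro hXY hun
    have hX' : ∀ x ∈ X, x ∈ X ∪ Y := fun x hx => Finset.mem_union_left _ hx
    have hY' : ∀ x ∈ Y, x ∈ X ∪ Y := fun x hx => Finset.mem_union_right _ hx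
    obtain ⟨s, s1, s2, s3⟩ := ihX (fun v hv => hXY v (hX' v hv)) (by
      intro u hu v hv huv w hw hwX
      by_cases hwY : w ∈ Y
      · exact ⟨fun h => h2 u hu w hwY h v (hX' v hv) w (hY' w hwY) huv.symm rfl,
          fun h => h2 v hv w hwY h u (hX' u hu) w (hY' w hwY) huv rfl⟩
      · exact hun u (hX' u hu) v (hX' v hv) huv w hw (by
          rw [Finset.mem_union, not_or]; exact ⟨hwX, hwY⟩))
    obtain ⟨t, t1, t2, t3⟩ := ihY (fun v hv => hXY v (hY' v hv)) (by
      intro u hu v hv huv w hw hwY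
      by_cases hwX : w ∈ X
      · exact ⟨fun h => (h2 w hwX u hu h.symm w (hX' w hwX) v (hY' v hv) rfl huv.symm).symm,
          fun h => (h2 w hwX v hv h.symm w (hX' w hwX) u (hY' u hu) rfl huv).symm⟩
      · exact hun u (hY' u hu) v (hY' v hv) huv w hw (by
          rw [Finset.mem_union, not_or]; exact ⟨hwX, hwY⟩))
    obtain ⟨h4, h5, h6⟩ := CompAux.union hadj hU hd s2 t2 s3 t3 h1 h2 hun
    refine ⟨_, Gen.bin s t _ s1 t1 ?_, h5, h6⟩
    unfold binS
    simp only [h4, cond_true, List.mem_singleton]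

end Pool.Agent.Lib.MP_0b43f8_lc
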