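import Pool.Agent.Lib.MP_0b43f8_lc.Core

set_option autoImplicit false

/-! COMPU: union of sets without edges between them. -/

namespace Pool.Agent.Lib.MP_0b43f8_lc

/-- All labels can be changed into `0`. -/
lemma Good.const_zero {V : Type} [DecidableEq V] {G : SimpleGraph V} {k : ℕ} {X : Finset V}
    {l : V → ℕ} (hk : 1 ≤ k) (h : Good G k X l) : Good G k X (fun _ => 0) := by
  have key : ∀ S : Finset ℕ, Good G k X (fun v => if l v ∈ S then 0 else l v) := by
    intro S
    induction S using Finset.induction_on with
    | empty => simpa using h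
    | insert a S _ ih =>
      refine Good.congr X _ _ (Good.relab X _ a 0 hk ih) fun v _ => ?_
      by_cases h1 : l v ∈ S
      · simp [h1]
      · by_cases h2 : l v = a
        · subst h2
          simp [h1]
        · simp [h1, h2]
  refine Good.congr X _ _ (key (X.image l)) fun v hv => ?_
  rw [if_pos (Finset.mem_image_of_mem l hv)]

/-- Module COMPU. -/
theorem stCompU : StCompU := by
  intro V ι _ _ G k I C hk hI hd hg
  induction I using Finset.induction_on with
  | empty => exact absurd hI Finset.not_nonempty_empty
  | insert a S ha ih =>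
    obtain ⟨l, hl⟩ := hg a (Finset.mem_insert_self a S)
    rcases S.eq_empty_or_nonempty with rfl | hS
    · rw [Finset.biUnion_insert, Finset.biUnion_empty, Finset.union_empty]
      exact hl.const_zero hk
    · have h1 := ih hS
        (fun i hi j hj hij => hd i (Finset.mem_insert_of_mem hi) j (Finset.mem_insert_of_mem hj) hij)
        (fun i hi => hg i (Finset.mem_insert_of_mem hi))
      rw [Finset.biUnion_insert]
      have h2 : ∀ u ∈ C a, ∀ v ∈ S.biUnion C, ¬ G.Adj u v := by
        intro u hu v hv
        obtain ⟨j, hj, hv⟩ := Finset.mem_biUnion.1 hv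
        exact (hd a (Finset.mem_insert_self a S) j (Finset.mem_insert_of_mem hj)
          (fun e => ha (e ▸ hj))).2 u hu v hv
      refine Good.union _ _ _ (hl.const_zero hk) h1 ?_ (fun u hu v hv _ => h2 u hu v hv)
        (fun u hu v hv e => absurd e (h2 u hu v hv))
      rw [Finset.disjoint_biUnion_right]
      intro j hj
      exact (hd a (Finset.mem_insert_self a S) j (Finset.mem_insert_of_mem hj)
        (fun e => ha (e ▸ hj))).1

end Pool.Agent.Lib.MP_0b43f8_lc
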