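import Pool.Agent.Lib.MP_0b43f8_lc.Defs

/-!
# Clique-width of unit interval graphs: normal form, states, the algorithm, the statements of the
modules
-/

namespace Pool.Agent.Lib.MP_0b43f8_lc

/-- **Normal form.** `Good G k X l`: the set `X` with the labels `l` (labels `< k`) is reached by
relabellings and unions such that no cross edge joins equal labels, and labels with a cross edge
are completely joined in `G`. -/
inductive Good {V : Type} [DecidableEq V] (G : SimpleGraph V) (k : ℕ) :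
    Finset V → (V → ℕ) → Prop
  | single (v : V) (l : V → ℕ) (h : l v < k) : Good G k {v} l
  | congr (X : Finset V) (l l' : V → ℕ) (h : Good G k X l) (e : ∀ v ∈ X, l v = l' v) :
      Good G k X l'
  | relab (X : Finset V) (l : V → ℕ) (i j : ℕ) (hj : j < k) (h : Good G k X l) :
      Good G k X (fun v => if l v = i then j else l v)
  | union (X Y : Finset V) (l : V → ℕ) (hX : Good G k X l) (hY : Good G k Y l)
      (hd : Disjoint X Y) (h1 : ∀ u ∈ X, ∀ v ∈ Y, l u = l v → ¬ G.Adj u v)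
      (h2 : ∀ u ∈ X, ∀ v ∈ Y, G.Adj u v → ∀ u' ∈ X ∪ Y, ∀ v' ∈ X ∪ Y, l u' = l u → l v' = l v →
        G.Adj u' v') : Good G k (X ∪ Y) l

/-! ### Modules about the normal form -/

/-- NF1 -/
def StNF1 : Prop := ∀ (V : Type) [Fintype V] [DecidableEq V] (G : SimpleGraph V) (k : ℕ),
  CliqueWidthLE G k → ∃ l, Good G k Finset.univ l

/-- NF2 -/
def StNF2 : Prop := ∀ (V : Type) [Fintype V] [DecidableEq V] (G : SimpleGraph V) (k : ℕ),
  (∃ l, Good G k Finset.univ l) → CliqueWidthLE G k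

/-- EMB -/
def StEmb : Prop := ∀ (V W : Type) [DecidableEq V] [DecidableEq W] (e : V ↪ W)
  (G : SimpleGraph V) (H : SimpleGraph W) (k : ℕ), (∀ u v, G.Adj u v ↔ H.Adj (e u) (e v)) →
  ∀ (X : Finset V) (l : W → ℕ), Good H k (X.map e) l ↔ Good G k X (fun v => l (e v))

/-- LAB : all labels are below `k`, the set is not empty -/
def StLab : Prop := ∀ (V : Type) [DecidableEq V] (G : SimpleGraph V) (k : ℕ) (X : Finset V)
  (l : V → ℕ), Good G k X l → X.Nonempty ∧ ∀ v ∈ X, l v < k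

/-! ### The upper bound -/

open Classical in
/-- The number of different neighbourhoods outside `A` of the vertices of `A`. -/
noncomputable def cls {V : Type} (G : SimpleGraph V) (A : Finset V) : ℕ :=
  (A.image fun u => {w : V | w ∉ A ∧ G.Adj u w}).card

/-- `A` is reached by adding one vertex after the other, with at most `m` classes all the time. -/
inductive LinR {V : Type} [DecidableEq V] (G : SimpleGraph V) (m : ℕ) : Finset V → Prop
  | nil : LinR G m ∅
  | snoc (A : Finset V) (v : V) (hv : v ∉ A) (h : LinR G m A) (hc : cls G (insert v A) ≤ m) :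
      LinR G m (insert v A)

/-- LIN -/
def StLin : Prop := ∀ (V : Type) [DecidableEq V] (G : SimpleGraph V) (m k : ℕ) (A : Finset V),
  m + 1 ≤ k → LinR G m A → A.Nonempty → ∃ l, Good G k A l ∧
    ∀ u ∈ A, ∀ v ∈ A, (l u = l v ↔ ∀ w, w ∉ A → (G.Adj u w ↔ G.Adj v w))

/-- UP1 : the sweep, for the graph on `0, …, n - 1` in which `i < j` are adjacent iff
`j ≤ r i`. -/
def StUp1 : Prop := ∀ (n s : ℕ) (r : ℕ → ℕ) (G : SimpleGraph ℕ), (∀ i j, i ≤ j → r i ≤ r j) →
  (∀ i, i ≤ r i) → (∀ i, i < n → r i < n) → (∀ i j, i < j → (G.Adj i j ↔ j < n ∧ j ≤ r i)) →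
  n ≤ s * s → LinR G (3 * s + 2) (Finset.range n)

/-- UPPER -/
def StUpper : Prop := ∀ (n k s : ℕ) (G : SimpleGraph (Fin n)), 1 ≤ n → IsUnitInterval G →
  n ≤ s * s → 3 * s + 3 ≤ k → ∃ l, Good G k Finset.univ l

/-! ### The key lemma -/

/-- KEYR : changes of the right type. Points `x 0 < x 1 < … < x (m - 1)` on the line with gaps
at most `1`; `i` and `j` are adjacent iff `|x i - x j| ≤ 1`. The vertices in `X` have labels
`< k`, and equally labelled vertices have the same neighbours outside `X`. The set `I` consists of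
positions `i` with exactly one of `i`, `i + 1` in `X`, and `w i` is adjacent to `i + 1`, right of
it, and not adjacent to `i`. -/
def StKeyR : Prop := ∀ (m k : ℕ) (x : ℕ → ℝ) (X : ℕ → Prop) (l w : ℕ → ℕ) (I : Finset ℕ),
  (∀ i, i + 1 < m → x i < x (i + 1)) → (∀ i, i + 1 < m → x (i + 1) ≤ x i + 1) →
  (∀ i, i < m → X i → l i < k) →
  (∀ i, i < m → ∀ j, j < m → X i → X j → l i = l j → ∀ u, u < m → ¬ X u →
    (|x i - x u| ≤ 1 ↔ |x j - x u| ≤ 1)) →
  (∀ i ∈ I, i + 1 < m ∧ ¬ (X i ↔ X (i + 1)) ∧ w i < m ∧ x i + 1 < x (w i) ∧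
    x (w i) ≤ x (i + 1) + 1) →
  I.card ≤ 6 * k + 1

/-- KEY -/
def StKey : Prop := ∀ (m k : ℕ) (x : ℕ → ℝ) (X : ℕ → Prop) (l : ℕ → ℕ) (I : Finset ℕ),
  (∀ i, i + 1 < m → x i < x (i + 1)) → (∀ i, i + 1 < m → x (i + 1) ≤ x i + 1) →
  (∀ i, i + 1 < m → ∃ w, w < m ∧ ((x i + 1 < x w ∧ x w ≤ x (i + 1) + 1) ∨
    (x w < x (i + 1) - 1 ∧ x i - 1 ≤ x w))) →
  (∀ i, i < m → X i → l i < k) →
  (∀ i, i < m → ∀ j, j < m → X i → X j → l i = l j → ∀ u, u < m → ¬ X u →
    (|x i - x u| ≤ 1 ↔ |x j - x u| ≤ 1)) →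
  (∀ i ∈ I, i + 1 < m ∧ ¬ (X i ↔ X (i + 1))) →
  I.card ≤ 12 * k + 2

/-! ### The states of the algorithm -/

/-- A state: the set `X`, the pairs (label, representative), the pairs of labels that are equal
or completely joined. -/
abbrev DS : Type := List ℕ × (List (ℕ × ℕ) × List (ℕ × ℕ))

/-- All pairs of a number below `a` and a number below `b`. -/
def prs (a b : ℕ) : List (ℕ × ℕ) :=
  (List.range a).flatMap fun i => (List.range b).map fun j => (i, j)

/-- The state with given characteristic functions. -/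
def mkS (n k : ℕ) (p : ℕ → Bool) (q r : ℕ × ℕ → Bool) : DS :=
  ((List.range n).filter p, ((prs k n).filter q, (prs k k).filter r))

/-- The state of a single vertex `v` with label `a`. -/
def leafS (n k v a : ℕ) : DS :=
  mkS n k (fun x => decide (x = v)) (fun b => decide (b = (a, v))) (fun _ => true)

section ops

variable (adj : ℕ → ℕ → Bool)

/-- `x` and `y` have the same neighbours in `U` outside `X` and `Y`. -/
def sameOut (U X Y : List ℕ) (x y : ℕ) : Bool :=
  U.all fun w => decide (w ∈ X) || (decide (w ∈ Y) || decide (adj x w = adj y w))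

/-- May label `i` be changed into label `j` in the state `s`? -/
def relabOK (U : List ℕ) (i j : ℕ) (s : DS) : Bool :=
  !(decide (i = j)) && s.2.1.all fun p => s.2.1.all fun q =>
    !(decide (p.1 = i)) || (!(decide (q.1 = j)) || sameOut adj U s.1 [] p.2 q.2)

/-- Change label `i` into label `j`. -/
def relabS (n k i j : ℕ) (s : DS) : DS :=
  mkS n k (fun x => decide (x ∈ s.1))
    (fun b => bif decide (b.1 = i) then false else
      bif decide (b.1 = j) then
        (decide (b ∈ s.2.1) || (decide ((i, b.2) ∈ s.2.1) &&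
          s.2.1.all fun c => !(decide (c.1 = j))))
      else decide (b ∈ s.2.1))
    (fun b => decide (b.1 = b.2) || (decide (b.1 = i) || (decide (b.2 = i) ||
      (decide (b ∈ s.2.2) && ((!(decide (b.1 = j)) || decide ((i, b.2) ∈ s.2.2)) &&
        (!(decide (b.2 = j)) || decide ((b.1, i) ∈ s.2.2)))))))

/-- Are the labels `b.1 ≠ b.2` completely joined in the union of two states? -/
def crossK (s t : DS) (b : ℕ × ℕ) : Bool :=
  decide (b ∈ s.2.2) && (decide (b ∈ t.2.2) && s.2.1.all fun p => t.2.1.all fun q =>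
    (!(decide (p.1 = b.1)) || (!(decide (q.1 = b.2)) || adj p.2 q.2)) &&
    (!(decide (p.1 = b.2)) || (!(decide (q.1 = b.1)) || adj p.2 q.2)))

/-- May the union of the two states be formed? -/
def unionOK (U : List ℕ) (s t : DS) : Bool :=
  (s.1.all fun x => !(decide (x ∈ t.1))) && s.2.1.all fun p => t.2.1.all fun q =>
    bif decide (p.1 = q.1) then !(adj p.2 q.2) && sameOut adj U s.1 t.1 p.2 q.2
    else !(adj p.2 q.2) || crossK adj s t (p.1, q.1)

/-- The union of two states. -/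
def unionS (n k : ℕ) (s t : DS) : DS :=
  mkS n k (fun x => decide (x ∈ s.1) || decide (x ∈ t.1))
    (fun b => decide (b ∈ s.2.1) || (decide (b ∈ t.2.1) &&
      s.2.1.all fun c => !(decide (c.1 = b.1))))
    (fun b => decide (b.1 = b.2) || crossK adj s t b)

/-- The states of single vertices. -/
def initS (n k : ℕ) (U : List ℕ) : List DS :=
  U.flatMap fun v => (List.range k).map fun a => leafS n k v a

/-- The states obtained from `s` by one relabelling. -/
def unS (n k : ℕ) (U : List ℕ) (s : DS) : List DS :=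
  (prs k k).flatMap fun p => bif relabOK adj U p.1 p.2 s then [relabS n k p.1 p.2 s] else []

/-- The state obtained from `s` and `t` by a union. -/
def binS (n k : ℕ) (U : List ℕ) (s t : DS) : List DS :=
  bif unionOK adj U s t then [unionS adj n k s t] else []

end ops

/-! ### Closures -/

/-- The elements generated from `init` by the operations `un` and `bin`. -/
inductive Gen {σ : Type} (init : List σ) (un : σ → List σ) (bin : σ → σ → List σ) : σ → Prop
  | init (s : σ) (h : s ∈ init) : Gen init un bin s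
  | un (s t : σ) (hs : Gen init un bin s) (h : t ∈ un s) : Gen init un bin t
  | bin (s t r : σ) (hs : Gen init un bin s) (ht : Gen init un bin t) (h : r ∈ bin s t) :
      Gen init un bin r

/-- One round of the closure, with at most `M` elements. -/
def stepG {σ : Type} [DecidableEq σ] (init : List σ) (un : σ → List σ) (bin : σ → σ → List σ)
    (M : ℕ) (S : List σ) : List σ :=
  bif decide (((S ++ (init ++ (S.flatMap un ++ S.flatMap fun s => S.flatMap (bin s)))).dedup).length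
    ≤ M) then (S ++ (init ++ (S.flatMap un ++ S.flatMap fun s => S.flatMap (bin s)))).dedup else S

/-- The closure with at most `M` elements. -/
def closG {σ : Type} [DecidableEq σ] (init : List σ) (un : σ → List σ) (bin : σ → σ → List σ)
    (M : ℕ) : List σ :=
  (stepG init un bin M)^[M] []

/-- CLOS -/
def StClos : Prop := ∀ (σ : Type) [DecidableEq σ] (init : List σ) (un : σ → List σ)
  (bin : σ → σ → List σ) (M : ℕ) (L : List σ), (∀ s, Gen init un bin s → s ∈ L) →
  L.length ≤ M → ∀ s, s ∈ closG init un bin M ↔ Gen init un bin s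

/-! ### Soundness and completeness of the operations on states -/

/-- The state `s` describes the set `s.1` with the labels `l`. -/
structure Repr (G : SimpleGraph ℕ) (n k : ℕ) (U : List ℕ) (l : ℕ → ℕ) (s : DS) : Prop where
  sub : ∀ v ∈ s.1, v ∈ U
  canon : ∃ p q r, s = mkS n k p q r
  lab : ∀ v ∈ s.1, l v < k
  unif : ∀ u ∈ s.1, ∀ v ∈ s.1, l u = l v → ∀ w ∈ U, w ∉ s.1 → (G.Adj u w ↔ G.Adj v w)
  rep1 : ∀ p ∈ s.2.1, p.2 ∈ s.1 ∧ l p.2 = p.1
  rep2 : ∀ v ∈ s.1, ∃ r, (l v, r) ∈ s.2.1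
  rep3 : ∀ p ∈ s.2.1, ∀ q ∈ s.2.1, p.1 = q.1 → p = q
  com : ∀ a, a < k → ∀ b, b < k → ((a, b) ∈ s.2.2 ↔
    (a = b ∨ ∀ u ∈ s.1, ∀ v ∈ s.1, l u = a → l v = b → G.Adj u v))

/-- SOUND -/
def StSound : Prop := ∀ (adj : ℕ → ℕ → Bool) (G : SimpleGraph ℕ) (n k : ℕ) (U : List ℕ),
  (∀ u v, G.Adj u v ↔ adj u v = true) → (∀ v ∈ U, v < n) →
  ∀ s, Gen (initS n k U) (unS adj n k U) (binS adj n k U) s →
    ∃ l, Good G k s.1.toFinset l ∧ Repr G n k U l s

/-- COMP -/
def StComp : Prop := ∀ (adj : ℕ → ℕ → Bool) (G : SimpleGraph ℕ) (n k : ℕ) (U : List ℕ),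
  (∀ u v, G.Adj u v ↔ adj u v = true) → (∀ v ∈ U, v < n) →
  ∀ (X : Finset ℕ) (l : ℕ → ℕ), Good G k X l → (∀ v ∈ X, v ∈ U) →
    (∀ u ∈ X, ∀ v ∈ X, l u = l v → ∀ w ∈ U, w ∉ X → (G.Adj u w ↔ G.Adj v w)) →
    ∃ s, Gen (initS n k U) (unS adj n k U) (binS adj n k U) s ∧ s.1.toFinset = X ∧
      Repr G n k U l s

/-! ### The number of states -/

/-- `U` induces a connected graph in which adjacent vertices have different neighbours. -/
structure Piece (G : SimpleGraph ℕ) (U : List ℕ) : Prop where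
  nodup : U.Nodup
  dist : ∀ u ∈ U, ∀ v ∈ U, G.Adj u v → ∃ w ∈ U, w ≠ u ∧ w ≠ v ∧ ¬ (G.Adj u w ↔ G.Adj v w)
  conn : ∀ A : Finset ℕ, A.Nonempty → (∀ v ∈ A, v ∈ U) → (∃ v ∈ U, v ∉ A) →
    ∃ u ∈ A, ∃ v ∈ U, v ∉ A ∧ G.Adj u v

/-- ORD : the vertices of a piece in the order from left to right -/
def StOrd : Prop := ∀ (G : SimpleGraph ℕ) (f : ℕ → ℝ) (U : List ℕ),
  (∀ u ∈ U, ∀ v ∈ U, (G.Adj u v ↔ u ≠ v ∧ |f u - f v| ≤ 1)) → Piece G U →
  ∃ e : ℕ → ℕ, (∀ i, i < U.length → e i ∈ U) ∧ (∀ v ∈ U, ∃ i, i < U.length ∧ e i = v) ∧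
    (∀ i, i + 1 < U.length → f (e i) < f (e (i + 1)) ∧ f (e (i + 1)) ≤ f (e i) + 1) ∧
    ∀ i, i + 1 < U.length → ∃ w, w < U.length ∧
      ((f (e i) + 1 < f (e w) ∧ f (e w) ≤ f (e (i + 1)) + 1) ∨
        (f (e w) < f (e (i + 1)) - 1 ∧ f (e i) - 1 ≤ f (e w)))

/-- SETS : the number of sets with few changes -/
def StSets : Prop := ∀ m c : ℕ, ∃ L : List (Finset ℕ), L.length ≤ 2 * (m + 1) ^ c ∧
  ∀ X : ℕ → Prop, (∀ I : Finset ℕ, (∀ i ∈ I, i + 1 < m ∧ ¬ (X i ↔ X (i + 1))) → I.card ≤ c) →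
    ∃ A ∈ L, ∀ i, i < m → (X i ↔ i ∈ A)

/-- COUNT -/
def StCount : Prop := ∀ (G : SimpleGraph ℕ) (f : ℕ → ℝ) (n k : ℕ) (U : List ℕ), 1 ≤ k →
  (∀ v ∈ U, v < n) → (∀ u ∈ U, ∀ v ∈ U, (G.Adj u v ↔ u ≠ v ∧ |f u - f v| ≤ 1)) → Piece G U →
  ∃ L : List DS, L.length ≤ (n + 2) ^ (15 * k + 4) ∧ ∀ s l, Repr G n k U l s → s ∈ L

/-! ### The pieces -/

/-- `u` and `v` have the same closed neighbourhood. -/
def tw (adj : ℕ → ℕ → Bool) (n u v : ℕ) : Bool :=
  (List.range n).all fun w => decide ((decide (w = u) || adj u w) = (decide (w = v) || adj v w))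

/-- `u` is the smallest vertex with its closed neighbourhood. -/
def isRep (adj : ℕ → ℕ → Bool) (n u : ℕ) : Bool :=
  (List.range u).all fun v => !(tw adj n v u)

/-- The component of `v`. -/
def compS (adj : ℕ → ℕ → Bool) (n v : ℕ) : List ℕ :=
  (fun S : List ℕ => (List.range n).filter fun x => decide (x ∈ S) || S.any fun y => adj y x)^[n]
    [v]

/-- The representatives in the component of `v`. -/
def piece (adj : ℕ → ℕ → Bool) (n v : ℕ) : List ℕ :=
  (List.range n).filter fun u => decide (u ∈ compS adj n v) && isRep adj n u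

/-- CMP : the component, as an equivalence class -/
def StCmp : Prop := ∀ (adj : ℕ → ℕ → Bool) (G : SimpleGraph ℕ) (n : ℕ),
  (∀ u v, G.Adj u v ↔ adj u v = true) → (∀ u v, G.Adj u v → u < n ∧ v < n) → ∀ v, v < n →
  ∀ u, u ∈ compS adj n v ↔ G.Reachable v u

/-- PIECE -/
def StPiece : Prop := ∀ (adj : ℕ → ℕ → Bool) (G : SimpleGraph ℕ) (n : ℕ),
  (∀ u v, G.Adj u v ↔ adj u v = true) → (∀ u v, G.Adj u v → u < n ∧ v < n) → ∀ v, v < n →
  Piece G (piece adj n v)

/-- RESTR -/
def StRestr : Prop := ∀ (V : Type) [DecidableEq V] (G : SimpleGraph V) (k : ℕ) (X : Finset V)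
  (l : V → ℕ), Good G k X l → ∀ U : Finset V, (X ∩ U).Nonempty → Good G k (X ∩ U) l

/-- TWIN : `ρ` maps every vertex to a representative with the same closed neighbourhood -/
def StTwin : Prop := ∀ (V : Type) [DecidableEq V] (G : SimpleGraph V) (k : ℕ) (ρ : V → V)
  (C : Finset V), 2 ≤ k → (∀ u, ρ (ρ u) = ρ u) →
  (∀ u w, (w = u ∨ G.Adj u w) ↔ (w = ρ u ∨ G.Adj (ρ u) w)) → (∀ u ∈ C, ρ u ∈ C) →
  ∀ (X : Finset V) (l : V → ℕ), Good G k X l → (∀ v ∈ X, v ∈ C ∧ ρ v = v) →
    Good G k (C.filter fun u => ρ u ∈ X) (fun v => l (ρ v))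

/-- COMPU : union of sets without edges between them -/
def StCompU : Prop := ∀ (V ι : Type) [DecidableEq V] [DecidableEq ι] (G : SimpleGraph V) (k : ℕ)
  (I : Finset ι) (C : ι → Finset V), 1 ≤ k → I.Nonempty →
  (∀ i ∈ I, ∀ j ∈ I, i ≠ j → Disjoint (C i) (C j) ∧ ∀ u ∈ C i, ∀ v ∈ C j, ¬ G.Adj u v) →
  (∀ i ∈ I, ∃ l, Good G k (C i) l) → Good G k (I.biUnion C) (fun _ => 0)

/-- REDUCE -/
def StReduce : Prop := ∀ (adj : ℕ → ℕ → Bool) (G : SimpleGraph ℕ) (n k : ℕ),
  (∀ u v, G.Adj u v ↔ adj u v = true) → (∀ u v, G.Adj u v → u < n ∧ v < n) → 2 ≤ k → 1 ≤ n →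
  ((∃ l, Good G k (Finset.range n) l) ↔
    ∀ v, v < n → ∃ l, Good G k (piece adj n v).toFinset l)

/-- ONE -/
def StOne : Prop := ∀ (V : Type) [DecidableEq V] (G : SimpleGraph V) (X : Finset V),
  X.Nonempty → ((∃ l, Good G 1 X l) ↔ ∀ u ∈ X, ∀ v ∈ X, ¬ G.Adj u v)

/-! ### The algorithm -/

/-- The graph on `0, …, n - 1` with the matrix `M`. -/
def adjM (n : ℕ) (M : List Bool) (u v : ℕ) : Bool :=
  decide (u < n) && (decide (v < n) && M.getD (u * n + v) false)

/-- Is there a number `s ≤ n` with `n ≤ s * s` and `3 * s + 3 ≤ k`? -/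
def bigK (n k : ℕ) : Bool :=
  (List.range (n + 1)).any fun s => decide (n ≤ s * s) && decide (3 * s + 3 ≤ k)

/-- The test for one piece. -/
def testU (n : ℕ) (M : List Bool) (k N : ℕ) (U : List ℕ) : Bool :=
  (closG (initS n k U) (unS (adjM n M) n k U) (binS (adjM n M) n k U) N).any
    fun s => decide (s.1 = U)

/-- **The algorithm.** -/
def solve (n : ℕ) (M : List Bool) (k N : ℕ) : Bool :=
  bif bigK n k then true
  else bif decide (k = 0) then false
  else bif decide (k = 1) then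
    (List.range n).all fun u => (List.range n).all fun v => !(adjM n M u v)
  else (List.range n).all fun v => testU n M k N (piece (adjM n M) n v)

/-- SOLVE -/
def StSolve : Prop := ∀ (n k N : ℕ) (G : SimpleGraph (Fin n)), 1 ≤ n → IsUnitInterval G →
  (bigK n k = true ∨ (n + 2) ^ (15 * k + 4) ≤ N) →
  (solve n (matrix G) k N = true ↔ CliqueWidthLE G k)

end Pool.Agent.Lib.MP_0b43f8_lc
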