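import Pool.Agent.Lib.MP_0b43f8_lc.Core

/-!
# The normal form is invariant under embeddings of graphs
-/

namespace Pool.Agent.Lib.MP_0b43f8_lc

namespace EmbAux

variable {V W : Type} [DecidableEq V] [DecidableEq W]

lemma fwd (e : V ↪ W) (G : SimpleGraph V) (H : SimpleGraph W) (k : ℕ)
    (hGH : ∀ u v, G.Adj u v ↔ H.Adj (e u) (e v)) {Y : Finset W} {l : W → ℕ}
    (h : Good H k Y l) : ∀ X : Finset V, X.map e = Y → Good G k X (fun v => l (e v)) := by
  induction h with
  | single w l h =>
    intro X hX
    have hw : w ∈ X.map e := by rw [hX]; exact Finset.mem_singleton_self w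
    obtain ⟨v, hv, rfl⟩ := Finset.mem_map.mp hw
    have hX' : X = {v} := by
      ext u
      rw [Finset.mem_singleton]
      constructor
      · intro hu
        have : e u ∈ X.map e := Finset.mem_map_of_mem e hu
        rw [hX, Finset.mem_singleton] at this
        exact e.injective this
      · rintro rfl
        exact hv
    subst hX'
    exact Good.single v _ h
  | congr Y l l' h e' ih =>
    intro X hX
    refine Good.congr X _ _ (ih X hX) ?_
    intro v hv
    exact e' (e v) (by rw [← hX]; exact Finset.mem_map_of_mem e hv)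
  | relab Y l i j hj h ih =>
    intro X hX
    exact Good.relab X (fun v => l (e v)) i j hj (ih X hX)
  | union Y Z l hY hZ hd h1 h2 ihY ihZ =>
    intro X hX
    have key : ∀ S : Finset W, S ⊆ Y ∪ Z → (X.filter fun v => e v ∈ S).map e = S := by
      intro S hS
      ext w
      simp only [Finset.mem_map, Finset.mem_filter]
      constructor
      · rintro ⟨v, ⟨_, hv⟩, rfl⟩
        exact hv
      · intro hw
        have : w ∈ X.map e := by rw [hX]; exact hS hw
        obtain ⟨v, hv, rfl⟩ := Finset.mem_map.mp this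
        exact ⟨v, ⟨hv, hw⟩, rfl⟩
    have hXu : (X.filter fun v => e v ∈ Y) ∪ (X.filter fun v => e v ∈ Z) = X := by
      ext v
      simp only [Finset.mem_union, Finset.mem_filter]
      constructor
      · rintro (h | h)
        · exact h.1
        · exact h.1
      · intro hv
        have : e v ∈ X.map e := Finset.mem_map_of_mem e hv
        rw [hX, Finset.mem_union] at this
        rcases this with h | h
        · exact Or.inl ⟨hv, h⟩
        · exact Or.inr ⟨hv, h⟩
    have r := Good.union (G := G) (k := k) (X.filter fun v => e v ∈ Y)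
      (X.filter fun v => e v ∈ Z) (fun v => l (e v))
      (ihY _ (key Y Finset.subset_union_left)) (ihZ _ (key Z Finset.subset_union_right))
      (by
        rw [Finset.disjoint_left]
        intro v hv hv'
        exact Finset.disjoint_left.mp hd (Finset.mem_filter.mp hv).2 (Finset.mem_filter.mp hv').2)
      (by
        intro u hu v hv huv hadj
        exact h1 (e u) (Finset.mem_filter.mp hu).2 (e v) (Finset.mem_filter.mp hv).2 huv
          ((hGH u v).mp hadj))
      (by
        intro u hu v hv hadj u' hu' v' hv' e1 e2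
        have m : ∀ x, x ∈ (X.filter fun v => e v ∈ Y) ∪ (X.filter fun v => e v ∈ Z) →
            e x ∈ Y ∪ Z := by
          intro x hx
          rw [hXu] at hx
          rw [← hX]
          exact Finset.mem_map_of_mem e hx
        exact (hGH u' v').mpr (h2 (e u) (Finset.mem_filter.mp hu).2 (e v)
          (Finset.mem_filter.mp hv).2 ((hGH u v).mp hadj) (e u') (m u' hu') (e v') (m v' hv')
          e1 e2))
    rwa [hXu] at r

lemma bwd (e : V ↪ W) (G : SimpleGraph V) (H : SimpleGraph W) (k : ℕ)
    (hGH : ∀ u v, G.Adj u v ↔ H.Adj (e u) (e v)) {X : Finset V} {l₀ : V → ℕ}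
    (h : Good G k X l₀) :
    ∀ l : W → ℕ, (∀ v ∈ X, l (e v) = l₀ v) → Good H k (X.map e) l := by
  induction h with
  | single v l₀ h =>
    intro l hl
    rw [Finset.map_singleton]
    exact Good.single (e v) l (by rw [hl v (Finset.mem_singleton_self v)]; exact h)
  | congr X l₀ l₁ h e' ih =>
    intro l hl
    exact ih l (fun v hv => by rw [hl v hv, e' v hv])
  | relab X l₀ i j hj h ih =>
    intro l hl
    have h1 : ∀ v, Function.extend e l₀ 0 (e v) = l₀ v := fun v =>
      e.injective.extend_apply l₀ 0 v
    have h2 := Good.relab (G := H) (X.map e) (Function.extend e l₀ 0) i j hj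
      (ih _ fun v _ => h1 v)
    refine Good.congr _ _ _ h2 ?_
    intro w hw
    obtain ⟨v, hv, rfl⟩ := Finset.mem_map.mp hw
    rw [hl v hv]
    simp only [h1]
  | union X Y l₀ hX hY hd h1 h2 ihX ihY =>
    intro l hl
    rw [Finset.map_union]
    have hlX : ∀ v ∈ X, l (e v) = l₀ v := fun v hv => hl v (Finset.mem_union_left _ hv)
    have hlY : ∀ v ∈ Y, l (e v) = l₀ v := fun v hv => hl v (Finset.mem_union_right _ hv)
    refine Good.union _ _ l (ihX l hlX) (ihY l hlY) ?_ ?_ ?_
    · exact (Finset.disjoint_map e).mpr hd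
    · intro u hu v hv
      obtain ⟨u, hu0, rfl⟩ := Finset.mem_map.mp hu
      obtain ⟨v, hv0, rfl⟩ := Finset.mem_map.mp hv
      rw [hlX u hu0, hlY v hv0, ← hGH]
      exact h1 u hu0 v hv0
    · intro u hu v hv hadj u' hu' v' hv' e1 e2
      rw [← Finset.map_union] at hu' hv'
      obtain ⟨u, hu0, rfl⟩ := Finset.mem_map.mp hu
      obtain ⟨v, hv0, rfl⟩ := Finset.mem_map.mp hv
      obtain ⟨u', hu1, rfl⟩ := Finset.mem_map.mp hu'
      obtain ⟨v', hv1, rfl⟩ := Finset.mem_map.mp hv'
      rw [hl u' hu1, hlX u hu0] at e1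
      rw [hl v' hv1, hlY v hv0] at e2
      exact (hGH u' v').mp (h2 u hu0 v hv0 ((hGH u v).mpr hadj) u' hu1 v' hv1 e1 e2)

end EmbAux

/-- EMB -/
theorem stEmb : StEmb := by
  intro V W _ _ e G H k hGH X l
  constructor
  · intro h
    exact EmbAux.fwd e G H k hGH h X rfl
  · intro h
    exact EmbAux.bwd e G H k hGH h l (fun v _ => rfl)

end Pool.Agent.Lib.MP_0b43f8_lc
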