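import Pool.Agent.Lib.MP_0b43f8_lc.Core

/-!
# Clique-width of unit interval graphs: the key lemma by reflection (module KEY)
-/

namespace Pool.Agent.Lib.MP_0b43f8_lc

/-- KEY -/
theorem stKey (h : StKeyR) : StKey := by
  classical
  intro m k x X l I h1 h2 h3 h4 h5 h6
  choose! w hw using h3
  -- the changes of the right type
  have hR : (I.filter fun i => x i + 1 < x (w i) ∧ x (w i) ≤ x (i + 1) + 1).card ≤ 6 * k + 1 := by
    refine h m k x X l w _ h1 h2 h4 h5 ?_
    intro i hi
    obtain ⟨hiI, hi1, hi2⟩ := Finset.mem_filter.1 hi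
    exact ⟨(h6 i hiI).1, (h6 i hiI).2, (hw i (h6 i hiI).1).1, hi1, hi2⟩
  -- the other changes
  set IL := I.filter fun i => ¬ (x i + 1 < x (w i) ∧ x (w i) ≤ x (i + 1) + 1) with hIL
  have hLI : ∀ i ∈ IL, i ∈ I ∧ x (w i) < x (i + 1) - 1 ∧ x i - 1 ≤ x (w i) := by
    intro i hi
    obtain ⟨hiI, hi1⟩ := Finset.mem_filter.1 hi
    exact ⟨hiI, (hw i (h6 i hiI).1).2.resolve_left hi1⟩
  have hcard : (IL.image fun i => m - 2 - i).card = IL.card := by
    apply Finset.card_image_of_injOn
    intro a ha b hb hab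
    have h1a := (h6 a (hLI a ha).1).1
    have h1b := (h6 b (hLI b hb).1).1
    simp only at hab
    omega
  have hL : (IL.image fun i => m - 2 - i).card ≤ 6 * k + 1 := by
    refine h m k (fun j => -x (m - 1 - j)) (fun j => X (m - 1 - j)) (fun j => l (m - 1 - j))
      (fun j => m - 1 - w (m - 2 - j)) _ ?_ ?_ ?_ ?_ ?_
    · intro j hj
      have e1 : m - 1 - (j + 1) = m - 2 - j := by omega
      have e2 : m - 1 - j = m - 2 - j + 1 := by omega
      simp only [e1, e2]
      have := h1 (m - 2 - j) (by omega)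
      linarith
    · intro j hj
      have e1 : m - 1 - (j + 1) = m - 2 - j := by omega
      have e2 : m - 1 - j = m - 2 - j + 1 := by omega
      simp only [e1, e2]
      have := h2 (m - 2 - j) (by omega)
      linarith
    · intro j hj hX
      exact h4 (m - 1 - j) (by omega) hX
    · intro i hi j hj hXi hXj hl u hu hXu
      have := h5 (m - 1 - i) (by omega) (m - 1 - j) (by omega) hXi hXj hl (m - 1 - u) (by omega)
        hXu
      have e1 : |(-x (m - 1 - i)) - (-x (m - 1 - u))| = |x (m - 1 - i) - x (m - 1 - u)| := by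
        rw [← abs_neg]
        congr 1
        ring
      have e2 : |(-x (m - 1 - j)) - (-x (m - 1 - u))| = |x (m - 1 - j) - x (m - 1 - u)| := by
        rw [← abs_neg]
        congr 1
        ring
      rw [e1, e2]
      exact this
    · intro i' hi'
      obtain ⟨i, hi, rfl⟩ := Finset.mem_image.1 hi'
      obtain ⟨hiI, hl1, hl2⟩ := hLI i hi
      obtain ⟨hm, hX⟩ := h6 i hiI
      obtain ⟨hwm, -⟩ := hw i hm
      have e0 : m - 2 - (m - 2 - i) = i := by omega
      have e1 : m - 1 - (m - 2 - i) = i + 1 := by omega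
      have e2 : m - 1 - (m - 2 - i + 1) = i := by omega
      have e3 : m - 1 - (m - 1 - w i) = w i := by omega
      simp only [e0, e1, e2, e3]
      refine ⟨by omega, fun hc => hX hc.symm, by omega, by linarith, by linarith⟩
  have hsum := Finset.card_filter_add_card_filter_not (s := I)
    (fun i => x i + 1 < x (w i) ∧ x (w i) ≤ x (i + 1) + 1)
  rw [← hIL] at hsum
  omega

end Pool.Agent.Lib.MP_0b43f8_lc
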