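import Pool.Agent.Lib.MP_0b43f8_lc.Core

/-!
# KEYR : changes of the right type
-/

namespace Pool.Agent.Lib.MP_0b43f8_lc

/-- A strictly increasing sequence on `[0, m)`. -/
private lemma keyr_mono {m : ℕ} {x : ℕ → ℝ} (hx : ∀ i, i + 1 < m → x i < x (i + 1)) :
    ∀ i j, i ≤ j → j < m → x i ≤ x j := by
  intro i j hij
  induction j, hij using Nat.le_induction with
  | base => intro _; exact le_refl _
  | succ j _ ih =>
    intro hj
    exact (ih (by omega)).trans (hx j hj).le

/-- A set of positions with an injection into the labels. -/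
private lemma keyr_card {k : ℕ} (S : Finset ℕ) (f : ℕ → ℕ) (h1 : ∀ i ∈ S, f i < k)
    (h2 : ∀ i ∈ S, ∀ j ∈ S, i < j → f i ≠ f j) : S.card ≤ k := by
  have h : S.card ≤ (Finset.range k).card := by
    apply Finset.card_le_card_of_injOn f
    · intro i hi
      simpa using h1 i hi
    · intro i hi j hj hij
      by_contra hne
      rcases Nat.lt_or_gt_of_ne hne with h | h
      · exact h2 i hi j hj h hij
      · exact h2 j hj i hi h hij.symm
  simpa using h

/-- The next change. -/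
private lemma keyr_next {m : ℕ} {X : ℕ → Prop} {i i' : ℕ} (h : i < i') (h1 : i' + 1 < m)
    (h2 : ¬ (X i' ↔ X (i' + 1))) : ∃ j, i < j ∧ j + 1 < m ∧ ¬ (X j ↔ X (j + 1)) ∧
      (X j ↔ X (i + 1)) ∧ ∀ j', i < j' → j' + 1 < m → ¬ (X j' ↔ X (j' + 1)) → j ≤ j' := by
  classical
  have hex : ∃ j, i < j ∧ j + 1 < m ∧ ¬ (X j ↔ X (j + 1)) := ⟨i', h, h1, h2⟩
  refine ⟨Nat.find hex, (Nat.find_spec hex).1, (Nat.find_spec hex).2.1, (Nat.find_spec hex).2.2,
    ?_, ?_⟩
  · have key : ∀ t, i + 1 ≤ t → t ≤ Nat.find hex → (X t ↔ X (i + 1)) := by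
      intro t ht
      induction t, ht using Nat.le_induction with
      | base => intro _; exact Iff.rfl
      | succ t ht ih =>
        intro h3
        have h4 := Nat.find_min hex (m := t) (by omega)
        have h5 := (Nat.find_spec hex).2.1
        have h6 : X t ↔ X (t + 1) := by
          by_contra h7
          exact h4 ⟨by omega, by omega, h7⟩
        exact h6.symm.trans (ih (by omega))
    exact key _ (Nat.find_spec hex).1 le_rfl
  · intro j' h3 h4 h5
    exact Nat.find_min' hex ⟨h3, h4, h5⟩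

/-- KEYR. -/
theorem stKeyR : StKeyR := by
  intro m k x X l w I hx hg hl hu hI
  classical
  rcases I.eq_empty_or_nonempty with hE | hne
  · simp [hE]
  have hmono := keyr_mono hx
  -- the next change exists for all but the largest position
  have hnx : ∀ i ∈ I.erase (I.max' hne), ∃ j, i < j ∧ j + 1 < m ∧ ¬ (X j ↔ X (j + 1)) ∧
      (X j ↔ X (i + 1)) ∧ ∀ j' ∈ I, i < j' → j ≤ j' := by
    intro i hi
    have hi1 := Finset.mem_erase.1 hi
    have hlt : i < I.max' hne := lt_of_le_of_ne (I.le_max' i hi1.2) hi1.1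
    have hM := hI _ (I.max'_mem hne)
    obtain ⟨j, h1, h2, h3, h4, h5⟩ := keyr_next hlt hM.1 hM.2.1
    exact ⟨j, h1, h2, h3, h4, fun j' hj' hlt' => h5 j' hlt' (hI j' hj').1 (hI j' hj').2.1⟩
  choose! p hp using hnx
  -- `w j` is not adjacent to a position `u ≤ j`
  have hfar : ∀ j ∈ I, ∀ u, u ≤ j → ¬ |x u - x (w j)| ≤ 1 := by
    intro j hj u huj h
    have h1 := hI j hj
    have h2 := hmono u j huj (by omega)
    have h3 := (abs_le.1 h).1
    linarith [h1.2.2.2.1]
  have hfar' : ∀ j ∈ I, ∀ u, u ≤ j → ¬ |x (w j) - x u| ≤ 1 := by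
    intro j hj u huj h
    exact hfar j hj u huj (by rwa [abs_sub_comm])
  -- `w j` is adjacent to `j + 1`
  have hnear : ∀ j ∈ I, |x (j + 1) - x (w j)| ≤ 1 := by
    intro j hj
    have h1 := hI j hj
    rw [abs_le]
    constructor
    · linarith [h1.2.2.2.2]
    · linarith [h1.2.2.2.1, hg j h1.1]
  have hcons : ∀ j, j + 1 < m → |x (j + 1) - x j| ≤ 1 := by
    intro j hj
    rw [abs_le]
    constructor
    · linarith [hx j hj]
    · linarith [hg j hj]
  -- if `j + 1` is at most `x i + 1`, then `w i` is adjacent to `p i + 1`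
  have hb : ∀ i ∈ I.erase (I.max' hne), ∀ j ∈ I, i < j → p i + 1 ≤ j + 1 →
      x (j + 1) ≤ x i + 1 → |x (w i) - x (p i + 1)| ≤ 1 := by
    intro i hi j hj hij hpj h
    have h1 := hI i (Finset.mem_of_mem_erase hi)
    have h2 := hI j hj
    have h3 := hmono (p i + 1) (j + 1) hpj h2.1
    have h4 := hmono (i + 1) (p i + 1) (by have := (hp i hi).1; omega) (hp i hi).2.1
    rw [abs_le]
    constructor
    · linarith [h1.2.2.2.1]
    · linarith [h1.2.2.2.2]
  have hmem : ∀ i ∈ I.erase (I.max' hne), i ∈ I := fun i hi => Finset.mem_of_mem_erase hi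
  set J := I.erase (I.max' hne) with hJ
  have hcard : I.card = J.card + 1 := by
    rw [hJ, Finset.card_erase_of_mem (I.max'_mem hne)]
    have := Finset.card_pos.2 hne
    omega
  -- the six cases
  let S1 := J.filter fun i => X (i + 1) ∧ ¬ X (w i)
  let S2 := J.filter fun i => ¬ X (i + 1) ∧ X (w i)
  let S3 := J.filter fun i => X (i + 1) ∧ X (w i) ∧ |x (w i) - x (p i + 1)| ≤ 1
  let S4 := J.filter fun i => X (i + 1) ∧ X (w i) ∧ ¬ |x (w i) - x (p i + 1)| ≤ 1
  let S5 := J.filter fun i => ¬ X (i + 1) ∧ ¬ X (w i) ∧ |x (w i) - x (p i + 1)| ≤ 1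
  let S6 := J.filter fun i => ¬ X (i + 1) ∧ ¬ X (w i) ∧ ¬ |x (w i) - x (p i + 1)| ≤ 1
  have hcov : J ⊆ S1 ∪ (S2 ∪ (S3 ∪ (S4 ∪ (S5 ∪ S6)))) := by
    intro i hi
    simp only [Finset.mem_union, S1, S2, S3, S4, S5, S6, Finset.mem_filter, hi, true_and]
    tauto
  have c1 : S1.card ≤ k := by
    apply keyr_card S1 (fun i => l (i + 1))
    · intro i hi
      obtain ⟨hi1, hi2, hi3⟩ := Finset.mem_filter.1 hi
      exact hl _ (hI i (hmem i hi1)).1 hi2
    · intro i hi j hj hij he
      obtain ⟨hi1, hi2, hi3⟩ := Finset.mem_filter.1 hi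
      obtain ⟨hj1, hj2, hj3⟩ := Finset.mem_filter.1 hj
      have h1 := hI i (hmem i hi1)
      have h2 := hI j (hmem j hj1)
      have h3 := (hu (i + 1) h1.1 (j + 1) h2.1 hi2 hj2 he (w j) h2.2.2.1 hj3).2
        (hnear j (hmem j hj1))
      exact hfar j (hmem j hj1) (i + 1) hij h3
  have c2 : S2.card ≤ k := by
    apply keyr_card S2 (fun i => l (w i))
    · intro i hi
      obtain ⟨hi1, hi2, hi3⟩ := Finset.mem_filter.1 hi
      exact hl _ (hI i (hmem i hi1)).2.2.1 hi3
    · intro i hi j hj hij he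
      obtain ⟨hi1, hi2, hi3⟩ := Finset.mem_filter.1 hi
      obtain ⟨hj1, hj2, hj3⟩ := Finset.mem_filter.1 hj
      have h1 := hI i (hmem i hi1)
      have h2 := hI j (hmem j hj1)
      have h3 := (hu (w i) h1.2.2.1 (w j) h2.2.2.1 hi3 hj3 he (i + 1) h1.1 hi2).1
        (by rw [abs_sub_comm]; exact hnear i (hmem i hi1))
      exact hfar' j (hmem j hj1) (i + 1) hij h3
  have c3 : S3.card ≤ k := by
    apply keyr_card S3 (fun i => l (w i))
    · intro i hi
      obtain ⟨hi1, hi2, hi3, hi4⟩ := Finset.mem_filter.1 hi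
      exact hl _ (hI i (hmem i hi1)).2.2.1 hi3
    · intro i hi j hj hij he
      obtain ⟨hi1, hi2, hi3, hi4⟩ := Finset.mem_filter.1 hi
      obtain ⟨hj1, hj2, hj3, hj4⟩ := Finset.mem_filter.1 hj
      have h1 := hI i (hmem i hi1)
      have h2 := hI j (hmem j hj1)
      obtain ⟨q1, q2, q3, q4, q5⟩ := hp i hi1
      have q6 := q5 j (hmem j hj1) hij
      have h4 : X (p i) := q4.2 hi2
      have h5 : ¬ X (p i + 1) := fun h => q3 ⟨fun _ => h, fun _ => h4⟩
      have h6 : ¬ X j := fun h => h2.2.1 ⟨fun _ => hj2, fun _ => h⟩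
      have h7 : p i ≠ j := fun h => h6 (h ▸ h4)
      have h3 := (hu (w i) h1.2.2.1 (w j) h2.2.2.1 hi3 hj3 he (p i + 1) q2 h5).1 hi4
      exact hfar' j (hmem j hj1) (p i + 1) (by omega) h3
  have c4 : S4.card ≤ k := by
    apply keyr_card S4 (fun i => l (i + 1))
    · intro i hi
      obtain ⟨hi1, hi2, hi3, hi4⟩ := Finset.mem_filter.1 hi
      exact hl _ (hI i (hmem i hi1)).1 hi2
    · intro i hi j hj hij he
      obtain ⟨hi1, hi2, hi3, hi4⟩ := Finset.mem_filter.1 hi
      obtain ⟨hj1, hj2, hj3, hj4⟩ := Finset.mem_filter.1 hj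
      have h1 := hI i (hmem i hi1)
      have h2 := hI j (hmem j hj1)
      obtain ⟨q1, q2, q3, q4, q5⟩ := hp i hi1
      have q6 := q5 j (hmem j hj1) hij
      have h6 : ¬ X i := fun h => h1.2.1 ⟨fun _ => hi2, fun _ => h⟩
      have h3 := (hu (i + 1) h1.1 (j + 1) h2.1 hi2 hj2 he i (by omega) h6).1 (hcons i h1.1)
      refine hi4 (hb i hi1 j (hmem j hj1) hij (by omega) ?_)
      linarith [(abs_le.1 h3).2]
  have c5 : S5.card ≤ k := by
    have key : ∀ i ∈ S5, X (p i + 1) := by
      intro i hi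
      obtain ⟨hi1, hi2, hi3, hi4⟩ := Finset.mem_filter.1 hi
      obtain ⟨q1, q2, q3, q4, q5⟩ := hp i hi1
      by_contra h
      exact q3 ⟨fun h' => absurd (q4.1 h') hi2, fun h' => absurd h' h⟩
    apply keyr_card S5 (fun i => l (p i + 1))
    · intro i hi
      obtain ⟨hi1, hi2, hi3, hi4⟩ := Finset.mem_filter.1 hi
      exact hl _ (hp i hi1).2.1 (key i hi)
    · intro i hi j hj hij he
      have ki := key i hi
      have kj := key j hj
      obtain ⟨hi1, hi2, hi3, hi4⟩ := Finset.mem_filter.1 hi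
      obtain ⟨hj1, hj2, hj3, hj4⟩ := Finset.mem_filter.1 hj
      have h1 := hI i (hmem i hi1)
      have h2 := hI j (hmem j hj1)
      obtain ⟨q1, q2, q3, q4, q5⟩ := hp i hi1
      have q6 := q5 j (hmem j hj1) hij
      have h4 : ¬ X (p i) := fun h => hi2 (q4.1 h)
      have h6 : X j := by
        by_contra h
        exact h2.2.1 ⟨fun h' => absurd h' h, fun h' => absurd h' hj2⟩
      have h7 : p i ≠ j := fun h => h4 (h ▸ h6)
      have h3 := (hu (p i + 1) q2 (p j + 1) (hp j hj1).2.1 ki kj he (w j) h2.2.2.1 hj3).2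
        (by rw [abs_sub_comm]; exact hj4)
      exact hfar j (hmem j hj1) (p i + 1) (by omega) h3
  have c6 : S6.card ≤ k := by
    have key : ∀ i ∈ S6, X i := by
      intro i hi
      obtain ⟨hi1, hi2, hi3, hi4⟩ := Finset.mem_filter.1 hi
      have h1 := hI i (hmem i hi1)
      by_contra h
      exact h1.2.1 ⟨fun h' => absurd h' h, fun h' => absurd h' hi2⟩
    apply keyr_card S6 (fun i => l i)
    · intro i hi
      have ki := key i hi
      obtain ⟨hi1, hi2, hi3, hi4⟩ := Finset.mem_filter.1 hi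
      exact hl _ (by have := (hI i (hmem i hi1)).1; omega) ki
    · intro i hi j hj hij he
      have ki := key i hi
      have kj := key j hj
      obtain ⟨hi1, hi2, hi3, hi4⟩ := Finset.mem_filter.1 hi
      obtain ⟨hj1, hj2, hj3, hj4⟩ := Finset.mem_filter.1 hj
      have h1 := hI i (hmem i hi1)
      have h2 := hI j (hmem j hj1)
      obtain ⟨q1, q2, q3, q4, q5⟩ := hp i hi1
      have q6 := q5 j (hmem j hj1) hij
      have h3 := (hu i (by omega) j (by omega) ki kj he (j + 1) h2.1 hj2).2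
        (by rw [abs_sub_comm]; exact hcons j h2.1)
      refine hi4 (hb i hi1 j (hmem j hj1) hij (by omega) ?_)
      linarith [(abs_le.1 h3).1]
  have hJc : J.card ≤ 6 * k := by
    have h0 := Finset.card_le_card hcov
    have h1 := Finset.card_union_le S1 (S2 ∪ (S3 ∪ (S4 ∪ (S5 ∪ S6))))
    have h2 := Finset.card_union_le S2 (S3 ∪ (S4 ∪ (S5 ∪ S6)))
    have h3 := Finset.card_union_le S3 (S4 ∪ (S5 ∪ S6))
    have h4 := Finset.card_union_le S4 (S5 ∪ S6)
    have h5 := Finset.card_union_le S5 S6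
    omega
  omega

end Pool.Agent.Lib.MP_0b43f8_lc
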