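import Pool.Agent.Lib.MP_0b43f8_lc.Core

/-!
# Clique-width of unit interval graphs: all labels are below `k`, the set is not empty
-/

namespace Pool.Agent.Lib.MP_0b43f8_lc

/-- LAB : all labels are below `k`, the set is not empty. -/
theorem stLab : StLab := by
  intro V _ G k X l h
  induction h with
  | single v l h =>
    refine ⟨Finset.singleton_nonempty v, fun w hw => ?_⟩
    rw [Finset.mem_singleton.mp hw]
    exact h
  | congr X l l' _ e ih =>
    exact ⟨ih.1, fun v hv => e v hv ▸ ih.2 v hv⟩
  | relab X l i j hj _ ih =>
    refine ⟨ih.1, fun v hv => ?_⟩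
    show (if l v = i then j else l v) < k
    split_ifs
    · exact hj
    · exact ih.2 v hv
  | union X Y l _ _ _ _ _ ihX ihY =>
    refine ⟨ihX.1.mono Finset.subset_union_left, fun v hv => ?_⟩
    rcases Finset.mem_union.mp hv with h | h
    · exact ihX.2 v h
    · exact ihY.2 v h

end Pool.Agent.Lib.MP_0b43f8_lc
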