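import Pool.Agent.Lib.MP_0b43f8_lc.Core

/-!
# LIN: linear layouts
-/

namespace Pool.Agent.Lib.MP_0b43f8_lc

namespace LinAux

variable {V : Type} [DecidableEq V] {G : SimpleGraph V}

theorem lab {k : ℕ} {X : Finset V} {l : V → ℕ} (h : Good G k X l) : ∀ v ∈ X, l v < k := by
  induction h with
  | single v l h =>
    intro u hu
    rw [Finset.mem_singleton] at hu
    rw [hu]; exact h
  | congr X l l' h e ih =>
    intro u hu
    rw [← e u hu]; exact ih u hu
  | relab X l i j hj h ih =>
    intro u hu
    have := ih u hu
    show (if l u = i then j else l u) < k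
    split_ifs
    · exact hj
    · exact this
  | union X Y l hX hY hd h1 h2 ihX ihY =>
    intro u hu
    rcases Finset.mem_union.mp hu with h | h
    · exact ihX u h
    · exact ihY u h

/-- Idempotent relabellings. -/
theorem good_map {k : ℕ} {X : Finset V} {l : V → ℕ} (h : Good G k X l) (g : ℕ → ℕ)
    (hg : ∀ b, b < k → g b < k) (hi : ∀ b, g (g b) = g b) : Good G k X (fun v => g (l v)) := by
  have key : ∀ T : Finset ℕ, T ⊆ Finset.range k →
      Good G k X (fun v => if l v ∈ T then g (l v) else l v) := by
    intro T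
    induction T using Finset.induction_on with
    | empty =>
      intro _
      exact Good.congr X l _ h (fun v _ => by simp)
    | insert b T hb ih =>
      intro hT
      have h1 : T ⊆ Finset.range k := fun x hx => hT (Finset.mem_insert_of_mem hx)
      have hbk : b < k := Finset.mem_range.mp (hT (Finset.mem_insert_self b T))
      have h2 := Good.relab X _ b (g b) (hg b hbk) (ih h1)
      refine Good.congr X _ _ h2 (fun v _ => ?_)
      by_cases h3 : l v ∈ T
      · have h4 : l v ∈ insert b T := Finset.mem_insert_of_mem h3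
        simp only [h3, h4, if_true]
        split_ifs with h5
        · rw [← h5, hi]
        · rfl
      · by_cases h4 : l v = b
        · simp [h4, hb]
        · have h5 : l v ∉ insert b T := by
            rw [Finset.mem_insert]
            push Not
            exact ⟨h4, h3⟩
          simp only [h3, h5, if_false, h4]
  refine Good.congr X _ _ (key (Finset.range k) (Finset.Subset.refl _)) (fun v hv => ?_)
  have := lab h v hv
  simp [this]

/-- Same neighbours outside `B`. -/
def R (G : SimpleGraph V) (B : Finset V) (u v : V) : Prop := ∀ w, w ∉ B → (G.Adj u w ↔ G.Adj v w)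

open Classical in
/-- Merging classes. -/
theorem merge {k : ℕ} {B : Finset V} {l : V → ℕ} (h : Good G k B l)
    (hl : ∀ u ∈ B, ∀ v ∈ B, l u = l v → R G B u v) :
    ∃ l', Good G k B l' ∧ ∀ u ∈ B, ∀ v ∈ B, (l' u = l' v ↔ R G B u v) := by
  have hrefl : ∀ u, R G B u u := fun u w _ => Iff.rfl
  have hsymm : ∀ u v, R G B u v → R G B v u := fun u v h w hw => (h w hw).symm
  have htrans : ∀ u v x, R G B u v → R G B v x → R G B u x := fun u v x h h' w hw =>
    (h w hw).trans (h' w hw)
  let ρ : V → ℕ := fun u => sInf {c | ∃ u' ∈ B, l u' = c ∧ R G B u u'}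
  have hρ1 : ∀ u ∈ B, ∃ x ∈ B, l x = ρ u ∧ R G B u x := fun u hu =>
    Nat.sInf_mem (s := {c | ∃ u' ∈ B, l u' = c ∧ R G B u u'}) ⟨l u, u, hu, rfl, hrefl u⟩
  have hρ2 : ∀ u v, R G B u v → ρ u = ρ v := by
    intro u v huv
    have : {c | ∃ u' ∈ B, l u' = c ∧ R G B u u'} = {c | ∃ u' ∈ B, l u' = c ∧ R G B v u'} := by
      ext c
      constructor
      · rintro ⟨x, hx, hc, hr⟩
        exact ⟨x, hx, hc, htrans _ _ _ (hsymm _ _ huv) hr⟩
      · rintro ⟨x, hx, hc, hr⟩
        exact ⟨x, hx, hc, htrans _ _ _ huv hr⟩
    show sInf _ = sInf _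
    rw [this]
  let g : ℕ → ℕ := fun b => if h : ∃ u ∈ B, l u = b then ρ h.choose else b
  have hg1 : ∀ u ∈ B, g (l u) = ρ u := by
    intro u hu
    have hex : ∃ u' ∈ B, l u' = l u := ⟨u, hu, rfl⟩
    have : g (l u) = ρ hex.choose := dif_pos hex
    rw [this]
    exact hρ2 _ _ (hl _ hex.choose_spec.1 _ hu hex.choose_spec.2)
  have hg2 : ∀ b, (¬ ∃ u ∈ B, l u = b) → g b = b := fun b hb => dif_neg hb
  have hgk : ∀ b, b < k → g b < k := by
    intro b hb
    by_cases hex : ∃ u ∈ B, l u = b
    · obtain ⟨u, hu, rfl⟩ := hex
      obtain ⟨x, hx, hx1, _⟩ := hρ1 u hu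
      rw [hg1 u hu, ← hx1]
      exact lab h x hx
    · rw [hg2 b hex]; exact hb
  have hgi : ∀ b, g (g b) = g b := by
    intro b
    by_cases hex : ∃ u ∈ B, l u = b
    · obtain ⟨u, hu, rfl⟩ := hex
      obtain ⟨x, hx, hx1, hx2⟩ := hρ1 u hu
      rw [hg1 u hu, ← hx1, hg1 x hx, hx1]
      exact (hρ2 _ _ hx2).symm
    · rw [hg2 b hex, hg2 b hex]
  refine ⟨fun v => g (l v), good_map h g hgk hgi, fun u hu v hv => ?_⟩
  show g (l u) = g (l v) ↔ _
  rw [hg1 u hu, hg1 v hv]
  constructor
  · intro he
    obtain ⟨x, hx, hx1, hx2⟩ := hρ1 u hu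
    obtain ⟨y, hy, hy1, hy2⟩ := hρ1 v hv
    have := hl x hx y hy (by rw [hx1, hy1, he])
    exact htrans _ _ _ hx2 (htrans _ _ _ this (hsymm _ _ hy2))
  · exact hρ2 u v

omit [DecidableEq V] in
open Classical in
theorem card_le {A : Finset V} {l : V → ℕ} (hl : ∀ u ∈ A, ∀ v ∈ A, R G A u v → l u = l v) :
    (A.image l).card ≤ cls G A := by
  let S : V → Set V := fun u => {w : V | w ∉ A ∧ G.Adj u w}
  have hS : ∀ u v, S u = S v → R G A u v := by
    intro u v h w hw
    have h1 : w ∈ S u ↔ w ∈ S v := by rw [h]
    constructor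
    · intro hu
      exact (h1.mp ⟨hw, hu⟩).2
    · intro hv
      exact (h1.mpr ⟨hw, hv⟩).2
  let g : Set V → ℕ := fun s => if h : ∃ u ∈ A, S u = s then l h.choose else 0
  have hg : ∀ u ∈ A, g (S u) = l u := by
    intro u hu
    have hex : ∃ u' ∈ A, S u' = S u := ⟨u, hu, rfl⟩
    have : g (S u) = l hex.choose := dif_pos hex
    rw [this]
    exact hl _ hex.choose_spec.1 _ hu (hS _ _ hex.choose_spec.2)
  have h1 : A.image l ⊆ (A.image S).image g := by
    intro c hc
    obtain ⟨u, hu, rfl⟩ := Finset.mem_image.mp hc
    exact Finset.mem_image.mpr ⟨S u, Finset.mem_image_of_mem S hu, hg u hu⟩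
  exact (Finset.card_le_card h1).trans Finset.card_image_le

end LinAux

open LinAux in
/-- LIN -/
theorem stLin : StLin := by
  intro V _ G m k A hk h
  induction h with
  | nil => intro hA; exact absurd hA (by simp)
  | snoc A v hv h hc ih =>
    intro _
    by_cases hA : A.Nonempty
    · obtain ⟨l, hgood, hl⟩ := ih hA
      have hcA : cls G A ≤ m := by
        cases h with
        | nil => exact absurd hA (by simp)
        | snoc A' v' hv' h' hc' => exact hc'
      have hcard : (A.image l).card ≤ m :=
        (card_le fun u hu v hv hr => (hl u hu v hv).mpr hr).trans hcA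
      obtain ⟨a, hak, haA⟩ : ∃ a ∈ Finset.range k, a ∉ A.image l := by
        apply Finset.exists_mem_notMem_of_card_lt_card
        rw [Finset.card_range]
        omega
      have hak' : a < k := Finset.mem_range.mp hak
      have haA' : ∀ u ∈ A, l u ≠ a := fun u hu he => haA (Finset.mem_image.mpr ⟨u, hu, he⟩)
      set l1 : V → ℕ := Function.update l v a with hl1
      have e1 : l1 v = a := Function.update_self ..
      have e2 : ∀ u ∈ A, l1 u = l u := fun u hu =>
        Function.update_of_ne (fun he : u = v => hv (he ▸ hu)) ..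
      have hins : insert v A = A ∪ {v} := by
        rw [Finset.union_comm]; rfl
      have hg1 : Good G k (A ∪ {v}) l1 := by
        refine Good.union A {v} l1 (Good.congr A l l1 hgood fun u hu => (e2 u hu).symm)
          (Good.single v l1 (by rw [e1]; exact hak')) ?_ ?_ ?_
        · rw [Finset.disjoint_singleton_right]; exact hv
        · intro u hu w hw he
          rw [Finset.mem_singleton] at hw
          rw [hw, e1, e2 u hu] at he
          exact absurd he (haA' u hu)
        · intro u hu w hw hadj u' hu' v' hv' h1 h2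
          rw [Finset.mem_singleton] at hw
          subst hw
          have hv'' : v' = w := by
            rcases Finset.mem_union.mp hv' with h | h
            · rw [e2 v' h, e1] at h2
              exact absurd h2 (haA' v' h)
            · exact Finset.mem_singleton.mp h
          rw [hv'']
          rcases Finset.mem_union.mp hu' with h | h
          · rw [e2 u' h, e2 u hu] at h1
            exact ((hl u' h u hu).mp h1 w hv).mpr hadj
          · rw [Finset.mem_singleton.mp h, e1, e2 u hu] at h1
            exact absurd h1.symm (haA' u hu)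
      rw [← hins] at hg1
      refine merge hg1 ?_
      intro u hu u' hu' he w hw
      have hwA : w ∉ A := fun h => hw (Finset.mem_insert_of_mem h)
      rcases Finset.mem_insert.mp hu with h | h
      · rcases Finset.mem_insert.mp hu' with h' | h'
        · rw [h, h']
        · rw [h, e1, e2 u' h'] at he
          exact absurd he.symm (haA' u' h')
      · rcases Finset.mem_insert.mp hu' with h' | h'
        · rw [h', e1, e2 u h] at he
          exact absurd he (haA' u h)
        · rw [e2 u h, e2 u' h'] at he
          exact (hl u h u' h').mp he w hwA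
    · rw [Finset.not_nonempty_iff_eq_empty] at hA
      subst hA
      refine ⟨fun _ => 0, ?_, ?_⟩
      · have : (insert v (∅ : Finset V)) = {v} := rfl
        rw [this]
        exact Good.single v _ (by omega)
      · intro u hu w hw
        have h1 : u = v := by simpa using hu
        have h2 : w = v := by simpa using hw
        rw [h1, h2]
        simp

end Pool.Agent.Lib.MP_0b43f8_lc
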