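import Pool.Agent.Lib.MP_0b43f8_lc.Core

/-!
# From the normal form to an expression
-/

namespace Pool.Agent.Lib.MP_0b43f8_lc

namespace NF2

variable {V : Type} {k : ℕ}

/-- Add the joins of a list of pairs. -/
def joins (L : List (Fin k × Fin k)) (t : Expr V k) : Expr V k :=
  L.foldr (fun p s => if h : p.1 ≠ p.2 then Expr.join p.1 p.2 h s else s) t

theorem joins_cons (p : Fin k × Fin k) (L : List (Fin k × Fin k)) (t : Expr V k) :
    joins (p :: L) t = if h : p.1 ≠ p.2 then Expr.join p.1 p.2 h (joins L t) else joins L t :=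
  rfl

theorem joins_verts (L : List (Fin k × Fin k)) (t : Expr V k) :
    (joins L t).verts = t.verts := by
  induction L with
  | nil => rfl
  | cons p L ih =>
    rw [joins_cons]
    split
    · exact ih
    · exact ih

theorem joins_lab (L : List (Fin k × Fin k)) (t : Expr V k) (v : V) (a : Fin k) :
    (joins L t).HasLabel v a ↔ t.HasLabel v a := by
  induction L with
  | nil => exact Iff.rfl
  | cons p L ih =>
    rw [joins_cons]
    split
    · exact ih
    · exact ih

theorem joins_adj (L : List (Fin k × Fin k)) (t : Expr V k) (u v : V) :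
    (joins L t).Joined u v ↔ t.Joined u v ∨ ∃ p ∈ L, p.1 ≠ p.2 ∧
      ((t.HasLabel u p.1 ∧ t.HasLabel v p.2) ∨ (t.HasLabel u p.2 ∧ t.HasLabel v p.1)) := by
  induction L with
  | nil =>
    constructor
    · intro h
      exact Or.inl h
    · rintro (h | ⟨p, hp, _⟩)
      · exact h
      · simp at hp
  | cons p L ih =>
    rw [joins_cons]
    by_cases h : p.1 ≠ p.2
    · rw [dif_pos h]
      change ((joins L t).Joined u v ∨ ((joins L t).HasLabel u p.1 ∧ (joins L t).HasLabel v p.2) ∨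
        ((joins L t).HasLabel u p.2 ∧ (joins L t).HasLabel v p.1)) ↔ _
      rw [ih, joins_lab, joins_lab, joins_lab, joins_lab]
      constructor
      · rintro ((h1 | ⟨q, hq, h2⟩) | h3)
        · exact Or.inl h1
        · exact Or.inr ⟨q, List.mem_cons_of_mem _ hq, h2⟩
        · exact Or.inr ⟨p, List.mem_cons_self, h, h3⟩
      · rintro (h1 | ⟨q, hq, h2, h3⟩)
        · exact Or.inl (Or.inl h1)
        · rcases List.mem_cons.1 hq with rfl | hq
          · exact Or.inr h3
          · exact Or.inl (Or.inr ⟨q, hq, h2, h3⟩)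
    · rw [dif_neg h, ih]
      constructor
      · rintro (h1 | ⟨q, hq, h2⟩)
        · exact Or.inl h1
        · exact Or.inr ⟨q, List.mem_cons_of_mem _ hq, h2⟩
      · rintro (h1 | ⟨q, hq, h2, h3⟩)
        · exact Or.inl h1
        · rcases List.mem_cons.1 hq with rfl | hq
          · exact absurd h2 h
          · exact Or.inr ⟨q, hq, h2, h3⟩

/-- The expression `t` builds the graph induced on `X` with the labels `l`. -/
structure Ok (G : SimpleGraph V) (X : Finset V) (l : V → ℕ) (t : Expr V k) : Prop where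
  nodup : t.verts.Nodup
  mem : ∀ v, v ∈ t.verts ↔ v ∈ X
  lt : ∀ v ∈ X, l v < k
  lab : ∀ v (a : Fin k), t.HasLabel v a ↔ v ∈ X ∧ l v = a.val
  adj : ∀ u v, t.Joined u v ↔ u ∈ X ∧ v ∈ X ∧ G.Adj u v

theorem Ok.congr {G : SimpleGraph V} {X : Finset V} {l l' : V → ℕ} {t : Expr V k}
    (h : Ok G X l t) (e : ∀ v ∈ X, l v = l' v) : Ok G X l' t where
  nodup := h.nodup
  mem := h.mem
  lt := fun v hv => by
    rw [← e v hv]
    exact h.lt v hv
  lab := fun v a => by
    rw [h.lab]
    constructor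
    · rintro ⟨hv, ha⟩
      exact ⟨hv, by rw [← e v hv]; exact ha⟩
    · rintro ⟨hv, ha⟩
      exact ⟨hv, by rw [e v hv]; exact ha⟩
  adj := h.adj

theorem ok_single (G : SimpleGraph V) (v : V) (l : V → ℕ) (h : l v < k) :
    Ok G {v} l (Expr.vert ⟨l v, h⟩ v) where
  nodup := List.nodup_singleton v
  mem := fun w => by
    change w ∈ [v] ↔ _
    rw [List.mem_singleton, Finset.mem_singleton]
  lt := fun w hw => by
    rw [Finset.mem_singleton.1 hw]
    exact h
  lab := fun w a => by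
    change (w = v ∧ a = ⟨l v, h⟩) ↔ _
    rw [Finset.mem_singleton]
    constructor
    · rintro ⟨rfl, rfl⟩
      exact ⟨rfl, rfl⟩
    · rintro ⟨rfl, e⟩
      exact ⟨rfl, Fin.ext e.symm⟩
  adj := fun u w => by
    change False ↔ _
    constructor
    · exact False.elim
    · rintro ⟨hu, hw, e⟩
      rw [Finset.mem_singleton.1 hu, Finset.mem_singleton.1 hw] at e
      exact G.loopless.irrefl v e

theorem ok_relab {G : SimpleGraph V} {X : Finset V} {l : V → ℕ} {t : Expr V k}
    (h : Ok G X l t) {i j : ℕ} (hi : i < k) (hj : j < k) :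
    Ok G X (fun v => if l v = i then j else l v) (Expr.relab ⟨i, hi⟩ ⟨j, hj⟩ t) where
  nodup := h.nodup
  mem := h.mem
  lt := fun v hv => by
    split
    · exact hj
    · exact h.lt v hv
  lab := fun v a => by
    change (∃ b, t.HasLabel v b ∧ a = if b = ⟨i, hi⟩ then ⟨j, hj⟩ else b) ↔
      v ∈ X ∧ (if l v = i then j else l v) = a.val
    constructor
    · rintro ⟨b, hb, rfl⟩
      obtain ⟨hv, e⟩ := (h.lab v b).1 hb
      refine ⟨hv, ?_⟩
      by_cases hbi : b = ⟨i, hi⟩
      · have : l v = i := by rw [e, hbi]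
        rw [if_pos hbi, if_pos this]
      · have : ¬ l v = i := fun h1 => hbi (Fin.ext (e.symm.trans h1))
        rw [if_neg hbi, if_neg this]
        exact e
    · rintro ⟨hv, e⟩
      refine ⟨⟨l v, h.lt v hv⟩, (h.lab v _).2 ⟨hv, rfl⟩, ?_⟩
      apply Fin.ext
      rw [← e]
      by_cases hbi : l v = i
      · have : (⟨l v, h.lt v hv⟩ : Fin k) = ⟨i, hi⟩ := Fin.ext hbi
        rw [if_pos this, if_pos hbi]
      · have : ¬ (⟨l v, h.lt v hv⟩ : Fin k) = ⟨i, hi⟩ := fun h1 => hbi (Fin.ext_iff.1 h1)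
        rw [if_neg this, if_neg hbi]
  adj := h.adj

theorem ok_union [DecidableEq V] {G : SimpleGraph V} {X Y : Finset V} {l : V → ℕ}
    {s t : Expr V k} (hs : Ok G X l s) (ht : Ok G Y l t) (hd : Disjoint X Y)
    (h1 : ∀ u ∈ X, ∀ v ∈ Y, l u = l v → ¬ G.Adj u v)
    (h2 : ∀ u ∈ X, ∀ v ∈ Y, G.Adj u v → ∀ u' ∈ X ∪ Y, ∀ v' ∈ X ∪ Y, l u' = l u → l v' = l v →
        G.Adj u' v') : ∃ r : Expr V k, Ok G (X ∪ Y) l r := by
  classical
  set P : Finset (Fin k × Fin k) := Finset.univ.filter fun p =>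
    ∃ u ∈ X, ∃ v ∈ Y, G.Adj u v ∧ l u = p.1.val ∧ l v = p.2.val with hP
  have hlab : ∀ v (a : Fin k), (Expr.union s t).HasLabel v a ↔ v ∈ X ∪ Y ∧ l v = a.val := by
    intro v a
    change (s.HasLabel v a ∨ t.HasLabel v a) ↔ _
    rw [hs.lab, ht.lab, Finset.mem_union, or_and_right]
  refine ⟨joins P.toList (Expr.union s t), ?_, ?_, ?_, ?_, ?_⟩
  · rw [joins_verts]
    change (s.verts ++ t.verts).Nodup
    rw [List.nodup_append]
    refine ⟨hs.nodup, ht.nodup, ?_⟩
    intro a ha b hb e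
    subst e
    exact Finset.disjoint_left.1 hd ((hs.mem a).1 ha) ((ht.mem a).1 hb)
  · intro v
    rw [joins_verts]
    change v ∈ s.verts ++ t.verts ↔ _
    rw [List.mem_append, hs.mem, ht.mem, Finset.mem_union]
  · intro v hv
    rcases Finset.mem_union.1 hv with hv | hv
    · exact hs.lt v hv
    · exact ht.lt v hv
  · intro v a
    rw [joins_lab]
    exact hlab v a
  · intro u v
    rw [joins_adj]
    constructor
    · rintro (h | ⟨p, hp, hne, h⟩)
      · rcases h with h | h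
        · obtain ⟨a, b, c⟩ := (hs.adj u v).1 h
          exact ⟨Finset.mem_union_left _ a, Finset.mem_union_left _ b, c⟩
        · obtain ⟨a, b, c⟩ := (ht.adj u v).1 h
          exact ⟨Finset.mem_union_right _ a, Finset.mem_union_right _ b, c⟩
      · rw [Finset.mem_toList, hP, Finset.mem_filter] at hp
        obtain ⟨_, u0, hu0, v0, hv0, hadj, e1, e2⟩ := hp
        rw [hlab, hlab, hlab, hlab] at h
        rcases h with ⟨⟨a1, a2⟩, b1, b2⟩ | ⟨⟨a1, a2⟩, b1, b2⟩
        · exact ⟨a1, b1, h2 u0 hu0 v0 hv0 hadj u a1 v b1 (a2.trans e1.symm) (b2.trans e2.symm)⟩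
        · exact ⟨a1, b1, (h2 u0 hu0 v0 hv0 hadj v b1 u a1 (b2.trans e1.symm)
            (a2.trans e2.symm)).symm⟩
    · rintro ⟨hu, hv, hadj⟩
      have key : ∀ x ∈ X, ∀ y ∈ Y, G.Adj x y → ∃ p ∈ P.toList, p.1 ≠ p.2 ∧
          (Expr.union s t).HasLabel x p.1 ∧ (Expr.union s t).HasLabel y p.2 := by
        intro x hx y hy hxy
        refine ⟨(⟨l x, hs.lt x hx⟩, ⟨l y, ht.lt y hy⟩), ?_, ?_, ?_, ?_⟩
        · rw [Finset.mem_toList, hP, Finset.mem_filter]
          exact ⟨Finset.mem_univ _, x, hx, y, hy, hxy, rfl, rfl⟩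
        · intro e
          exact h1 x hx y hy (Fin.ext_iff.1 e) hxy
        · exact (hlab _ _).2 ⟨Finset.mem_union_left _ hx, rfl⟩
        · exact (hlab _ _).2 ⟨Finset.mem_union_right _ hy, rfl⟩
      rcases Finset.mem_union.1 hu with hu | hu
      · rcases Finset.mem_union.1 hv with hv | hv
        · exact Or.inl (Or.inl ((hs.adj u v).2 ⟨hu, hv, hadj⟩))
        · obtain ⟨p, hp, hne, a, b⟩ := key u hu v hv hadj
          exact Or.inr ⟨p, hp, hne, Or.inl ⟨a, b⟩⟩
      · rcases Finset.mem_union.1 hv with hv | hv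
        · obtain ⟨p, hp, hne, a, b⟩ := key v hv u hu hadj.symm
          exact Or.inr ⟨p, hp, hne, Or.inr ⟨b, a⟩⟩
        · exact Or.inl (Or.inr ((ht.adj u v).2 ⟨hu, hv, hadj⟩))

theorem exists_ok [DecidableEq V] (G : SimpleGraph V) (X : Finset V) (l : V → ℕ)
    (h : Good G k X l) : ∃ t : Expr V k, Ok G X l t := by
  induction h with
  | single v l h => exact ⟨_, ok_single G v l h⟩
  | congr X l l' h e ih =>
    obtain ⟨t, ht⟩ := ih
    exact ⟨t, ht.congr e⟩
  | relab X l i j hj h ih =>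
    obtain ⟨t, ht⟩ := ih
    by_cases hi : i < k
    · exact ⟨_, ok_relab ht hi hj⟩
    · refine ⟨t, ht.congr ?_⟩
      intro v hv
      have h3 := ht.lt v hv
      have h4 : ¬ l v = i := by omega
      rw [if_neg h4]
  | union X Y l hX hY hd h1 h2 ih1 ih2 =>
    obtain ⟨s, hs⟩ := ih1
    obtain ⟨t, ht⟩ := ih2
    exact ok_union hs ht hd h1 h2

end NF2

theorem stNF2 : StNF2 := by
  intro V _ _ G k ⟨l, hl⟩
  obtain ⟨t, ht⟩ := NF2.exists_ok G Finset.univ l hl
  refine ⟨t, ht.nodup, fun v => (ht.mem v).2 (Finset.mem_univ v), fun u v => ?_⟩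
  rw [ht.adj]
  constructor
  · intro h
    exact ⟨Finset.mem_univ u, Finset.mem_univ v, h⟩
  · rintro ⟨_, _, h⟩
    exact h

end Pool.Agent.Lib.MP_0b43f8_lc
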