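import Pool.Agent.Lib.MP_0b43f8_lc.Core

/-!
# The case of one label
-/

namespace Pool.Agent.Lib.MP_0b43f8_lc

theorem Good.one {V : Type} [DecidableEq V] {G : SimpleGraph V} {X : Finset V} {l : V → ℕ}
    (h : Good G 1 X l) : (∀ v ∈ X, l v = 0) ∧ ∀ u ∈ X, ∀ v ∈ X, ¬ G.Adj u v := by
  induction h with
  | single v l h =>
    refine ⟨fun u hu => ?_, fun u hu w hw => ?_⟩
    · rw [Finset.mem_singleton] at hu
      subst hu
      omega
    · rw [Finset.mem_singleton] at hu hw
      subst hu
      subst hw
      exact G.loopless.irrefl _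
  | congr X l l' h e ih =>
    exact ⟨fun v hv => by rw [← e v hv]; exact ih.1 v hv, ih.2⟩
  | relab X l i j hj h ih =>
    refine ⟨fun v hv => ?_, ih.2⟩
    dsimp only
    split_ifs
    · omega
    · exact ih.1 v hv
  | union X Y l hX hY hd h1 h2 ihX ihY =>
    refine ⟨fun v hv => ?_, fun u hu v hv => ?_⟩
    · rcases Finset.mem_union.1 hv with h | h
      · exact ihX.1 v h
      · exact ihY.1 v h
    · rcases Finset.mem_union.1 hu with hu | hu <;> rcases Finset.mem_union.1 hv with hv | hv
      · exact ihX.2 u hu v hv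
      · exact h1 u hu v hv (by rw [ihX.1 u hu, ihY.1 v hv])
      · intro h
        exact h1 v hv u hu (by rw [ihX.1 v hv, ihY.1 u hu]) h.symm
      · exact ihY.2 u hu v hv

theorem stOne : StOne := by
  intro V _ G X hX
  constructor
  · rintro ⟨l, h⟩
    exact h.one.2
  · intro h
    refine ⟨fun _ => 0, ?_⟩
    induction hX using Finset.Nonempty.cons_induction with
    | singleton a => exact Good.single a _ Nat.zero_lt_one
    | cons a s ha hs ih =>
      have h1 : Good G 1 s (fun _ => 0) :=
        ih fun u hu v hv => h u (Finset.mem_cons_of_mem hu) v (Finset.mem_cons_of_mem hv)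
      have h2 : Finset.cons a s ha = {a} ∪ s := by
        ext x
        simp
      have h3 : ∀ u ∈ ({a} : Finset V), ∀ v ∈ s, ¬ G.Adj u v := by
        intro u hu v hv
        rw [Finset.mem_singleton] at hu
        subst hu
        exact h u (Finset.mem_cons_self u s) v (Finset.mem_cons_of_mem hv)
      rw [h2]
      exact Good.union {a} s _ (Good.single a _ Nat.zero_lt_one) h1
        (Finset.disjoint_singleton_left.2 ha) (fun u hu v hv _ => h3 u hu v hv)
        (fun u hu v hv hadj => absurd hadj (h3 u hu v hv))

end Pool.Agent.Lib.MP_0b43f8_lc
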