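import Pool.Agent.Lib.MP_0b43f8_lc.Core

/-!
Module ORD: the vertices of a piece in the order from left to right.
-/

namespace Pool.Agent.Lib.MP_0b43f8_lc

theorem stOrd : StOrd := by
  classical
  intro G f U hG hP
  -- `f` is injective on `U`
  have hinj : ∀ u ∈ U, ∀ v ∈ U, f u = f v → u = v := by
    intro u hu v hv huv
    by_contra hne
    have hadj : G.Adj u v := (hG u hu v hv).2 ⟨hne, by rw [huv]; simp⟩
    obtain ⟨w, hw, hwu, hwv, h⟩ := hP.dist u hu v hv hadj
    apply h
    rw [hG u hu w hw, hG v hv w hw, huv]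
    exact ⟨fun h => ⟨fun h' => hwv h'.symm, h.2⟩, fun h => ⟨fun h' => hwu h'.symm, h.2⟩⟩
  set T : Finset ℝ := U.toFinset.image f with hT
  have hcard : T.card = U.length := by
    rw [hT, Finset.card_image_of_injOn, List.toFinset_card_of_nodup hP.nodup]
    intro u hu v hv huv
    exact hinj u (by simpa using hu) v (by simpa using hv) huv
  set o := T.orderEmbOfFin hcard with ho
  have hex : ∀ i : Fin U.length, ∃ v ∈ U, f v = o i := by
    intro i
    have : o i ∈ T := Finset.orderEmbOfFin_mem T hcard i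
    rw [hT, Finset.mem_image] at this
    obtain ⟨v, hv, h⟩ := this
    exact ⟨v, by simpa using hv, h⟩
  choose e' he'U he'f using hex
  let e : ℕ → ℕ := fun i => if h : i < U.length then e' ⟨i, h⟩ else 0
  have heU : ∀ i, i < U.length → e i ∈ U := by
    intro i hi
    simp only [e, hi, dif_pos]
    exact he'U _
  have hef : ∀ i (hi : i < U.length), f (e i) = o ⟨i, hi⟩ := by
    intro i hi
    simp only [e, hi, dif_pos]
    exact he'f _
  have hsurj : ∀ v ∈ U, ∃ i, i < U.length ∧ e i = v := by
    intro v hv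
    have h1 : f v ∈ T := by
      rw [hT, Finset.mem_image]
      exact ⟨v, by simpa using hv, rfl⟩
    have h2 : f v ∈ Set.range o := by
      rw [ho, Finset.range_orderEmbOfFin]
      exact h1
    obtain ⟨i, hi⟩ := h2
    refine ⟨i, i.2, ?_⟩
    apply hinj _ (heU i i.2) v hv
    rw [hef i i.2]
    exact hi
  have hlt : ∀ i j, i < U.length → j < U.length → (f (e i) < f (e j) ↔ i < j) := by
    intro i j hi hj
    rw [hef i hi, hef j hj, o.lt_iff_lt, Fin.mk_lt_mk]
  have hle : ∀ i j, i < U.length → j < U.length → (f (e i) ≤ f (e j) ↔ i ≤ j) := by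
    intro i j hi hj
    rw [hef i hi, hef j hj, o.le_iff_le, Fin.mk_le_mk]
  have hgap : ∀ i, i + 1 < U.length → f (e (i + 1)) ≤ f (e i) + 1 := by
    intro i hi
    have hi' : i < U.length := by omega
    obtain ⟨u, hu, v, hv, hvA, hadj⟩ := hP.conn (U.toFinset.filter fun v => f v ≤ f (e i))
      ⟨e i, by simp [heU i hi']⟩ (fun v hv => by
        rw [Finset.mem_filter] at hv
        simpa using hv.1)
      ⟨e (i + 1), heU _ hi, by
        rw [Finset.mem_filter]
        rintro ⟨-, h⟩
        rw [hle _ _ hi hi'] at h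
        omega⟩
    rw [Finset.mem_filter] at hu hvA
    have huU : u ∈ U := by simpa using hu.1
    have hfv : f (e i) < f v := by
      by_contra h
      exact hvA ⟨by simpa using hv, not_lt.1 h⟩
    obtain ⟨j, hj, rfl⟩ := hsurj v hv
    rw [hlt _ _ hi' hj] at hfv
    have h1 : f (e (i + 1)) ≤ f (e j) := (hle _ _ hi hj).2 hfv
    have h2 := ((hG u huU _ hv).1 hadj).2
    rw [abs_le] at h2
    linarith [hu.2, h2.1]
  refine ⟨e, heU, hsurj, fun i hi => ⟨(hlt _ _ (by omega) hi).2 (by omega), hgap i hi⟩,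
    fun i hi => ?_⟩
  have hi' : i < U.length := by omega
  have h1 : f (e i) < f (e (i + 1)) := (hlt _ _ hi' hi).2 (by omega)
  have h2 := hgap i hi
  have hadj : G.Adj (e i) (e (i + 1)) := by
    rw [hG _ (heU i hi') _ (heU _ hi)]
    refine ⟨fun h => ?_, ?_⟩
    · rw [← h] at h1
      exact lt_irrefl _ h1
    · rw [abs_le]
      constructor <;> linarith
  obtain ⟨w, hw, hwu, hwv, h⟩ := hP.dist _ (heU i hi') _ (heU _ hi) hadj
  obtain ⟨j, hj, rfl⟩ := hsurj w hw
  refine ⟨j, hj, ?_⟩
  rw [hG _ (heU i hi') _ hw, hG _ (heU _ hi) _ hw] at h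
  have hji : j ≠ i := fun h => hwu (by rw [h])
  have hji' : j ≠ i + 1 := fun h => hwv (by rw [h])
  rcases lt_or_gt_of_ne hji with hlt' | hgt
  · right
    have h3 : f (e j) < f (e i) := (hlt _ _ hj hi').2 hlt'
    by_contra hcon
    apply h
    constructor
    · rintro ⟨-, h4⟩
      refine ⟨fun h => hwv h.symm, ?_⟩
      rw [abs_le] at h4 ⊢
      by_contra h5
      apply hcon
      constructor
      · by_contra h6
        exact h5 ⟨by linarith, by linarith⟩
      · linarith
    · rintro ⟨-, h4⟩
      refine ⟨fun h => hwu h.symm, ?_⟩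
      rw [abs_le] at h4 ⊢
      constructor <;> linarith
  · left
    have h3 : f (e (i + 1)) < f (e j) := (hlt _ _ hi hj).2 (by omega)
    by_contra hcon
    apply h
    constructor
    · rintro ⟨-, h4⟩
      refine ⟨fun h => hwv h.symm, ?_⟩
      rw [abs_le] at h4 ⊢
      constructor <;> linarith
    · rintro ⟨-, h4⟩
      refine ⟨fun h => hwu h.symm, ?_⟩
      rw [abs_le] at h4 ⊢
      by_contra h5
      apply hcon
      constructor
      · by_contra h6
        exact h5 ⟨by linarith, by linarith⟩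
      · linarith

end Pool.Agent.Lib.MP_0b43f8_lc
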