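import Pool.Agent.Lib.MP_0b43f8_lc.Core

/-!
# The pieces: PIECE
-/

set_option autoImplicit false

namespace Pool.Agent.Lib.MP_0b43f8_lc

namespace PieceX

/-- `u` and `v` have the same closed neighbourhood. -/
def T (G : SimpleGraph ℕ) (u v : ℕ) : Prop := ∀ w, (w = u ∨ G.Adj u w) ↔ (w = v ∨ G.Adj v w)

theorem T.refl (G : SimpleGraph ℕ) (u : ℕ) : T G u u := fun _ => Iff.rfl

theorem T.symm {G : SimpleGraph ℕ} {u v : ℕ} (h : T G u v) : T G v u := fun w => (h w).symm

theorem T.trans {G : SimpleGraph ℕ} {u v w : ℕ} (h : T G u v) (h' : T G v w) : T G u w :=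
  fun x => (h x).trans (h' x)

theorem tw_iff {adj : ℕ → ℕ → Bool} {G : SimpleGraph ℕ} {n : ℕ}
    (hG : ∀ u v, G.Adj u v ↔ adj u v = true) (hn : ∀ u v, G.Adj u v → u < n ∧ v < n) {u v : ℕ}
    (hu : u < n) (hv : v < n) : tw adj n u v = true ↔ T G u v := by
  have h1 : tw adj n u v = true ↔ ∀ w, w < n →
      ((w = u ∨ adj u w = true) ↔ (w = v ∨ adj v w = true)) := by
    unfold tw
    rw [List.all_eq_true]
    constructor
    · intro h w hw
      have := h w (List.mem_range.2 hw)
      rw [decide_eq_true_eq] at this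
      have h2 : (decide (w = u) || adj u w) = true ↔ (decide (w = v) || adj v w) = true := by
        rw [this]
      simpa only [Bool.or_eq_true, decide_eq_true_eq] using h2
    · intro h w hw
      rw [decide_eq_true_eq]
      have := h w (List.mem_range.1 hw)
      rw [Bool.eq_iff_iff]
      simpa only [Bool.or_eq_true, decide_eq_true_eq] using this
  rw [h1]
  constructor
  · intro h w
    by_cases hw : w < n
    · rw [hG, hG]
      exact h w hw
    · have e1 : ¬ (w = u ∨ G.Adj u w) := by
        rintro (rfl | h2)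
        · exact hw hu
        · exact hw (hn _ _ h2).2
      have e2 : ¬ (w = v ∨ G.Adj v w) := by
        rintro (rfl | h2)
        · exact hw hv
        · exact hw (hn _ _ h2).2
      exact ⟨fun h3 => absurd h3 e1, fun h3 => absurd h3 e2⟩
  · intro h w _
    have := h w
    rwa [hG, hG] at this

theorem isRep_iff {adj : ℕ → ℕ → Bool} {G : SimpleGraph ℕ} {n : ℕ}
    (hG : ∀ u v, G.Adj u v ↔ adj u v = true) (hn : ∀ u v, G.Adj u v → u < n ∧ v < n) {u : ℕ}
    (hu : u < n) : isRep adj n u = true ↔ ∀ v, v < u → ¬ T G v u := by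
  unfold isRep
  rw [List.all_eq_true]
  constructor
  · intro h v hv hT
    have h1 := h v (List.mem_range.2 hv)
    rw [Bool.not_eq_true', ← Bool.not_eq_true, tw_iff hG hn (hv.trans hu) hu] at h1
    exact h1 hT
  · intro h v hv
    have hv' := List.mem_range.1 hv
    rw [Bool.not_eq_true', ← Bool.not_eq_true, tw_iff hG hn (hv'.trans hu) hu]
    exact h v hv'

open Classical in
/-- The least vertex with the same closed neighbourhood. -/
noncomputable def rho (G : SimpleGraph ℕ) (u : ℕ) : ℕ :=
  Nat.find (p := fun v => T G v u) ⟨u, T.refl G u⟩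

open Classical in
theorem rho_T (G : SimpleGraph ℕ) (u : ℕ) : T G (rho G u) u :=
  Nat.find_spec (p := fun v => T G v u) ⟨u, T.refl G u⟩

open Classical in
theorem rho_min {G : SimpleGraph ℕ} {u v : ℕ} (h : v < rho G u) : ¬ T G v u :=
  Nat.find_min (p := fun v => T G v u) ⟨u, T.refl G u⟩ h

theorem rho_eq {G : SimpleGraph ℕ} {u v : ℕ} (h : T G u v) : rho G u = rho G v := by
  rcases lt_trichotomy (rho G u) (rho G v) with h1 | h1 | h1
  · exact absurd ((rho_T G u).trans h) (rho_min h1)
  · exact h1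
  · exact absurd ((rho_T G v).trans h.symm) (rho_min h1)

theorem rho_rho (G : SimpleGraph ℕ) (u : ℕ) : rho G (rho G u) = rho G u :=
  rho_eq (rho_T G u)

theorem rho_of_min {G : SimpleGraph ℕ} {u : ℕ} (h : ∀ v, v < u → ¬ T G v u) : rho G u = u := by
  rcases lt_trichotomy (rho G u) u with h1 | h1 | h1
  · exact absurd (rho_T G u) (h _ h1)
  · exact h1
  · exact absurd (T.refl G u) (rho_min h1)

theorem min_rho {G : SimpleGraph ℕ} {u v : ℕ} (h : v < rho G u) : ¬ T G v (rho G u) :=
  fun h1 => rho_min h (h1.trans (rho_T G u))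

/-- twins have the same neighbours -/
theorem adj_iff {G : SimpleGraph ℕ} {a b u : ℕ} (h : T G a b) (h1 : u ≠ a) (h2 : u ≠ b) :
    G.Adj u a ↔ G.Adj u b := by
  have := h u
  simp only [h1, h2, false_or] at this
  rw [G.adj_comm u a, G.adj_comm u b]
  exact this

end PieceX

open PieceX in
/-- PIECE -/
theorem stPiece (h : StCmp) : StPiece := by
  intro adj G n hG hn v₀ hv₀
  have hmem : ∀ u, u ∈ piece adj n v₀ ↔ u < n ∧ G.Reachable v₀ u ∧ ∀ v, v < u → ¬ T G v u := by
    intro u
    unfold piece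
    rw [List.mem_filter, List.mem_range, Bool.and_eq_true, decide_eq_true_eq,
      h adj G n hG hn v₀ hv₀ u]
    constructor
    · rintro ⟨h1, h2, h3⟩
      exact ⟨h1, h2, (isRep_iff hG hn h1).1 h3⟩
    · rintro ⟨h1, h2, h3⟩
      exact ⟨h1, h2, (isRep_iff hG hn h1).2 h3⟩
  refine ⟨List.nodup_range.filter _, ?_, ?_⟩
  · intro u hu v hv huv
    rw [hmem] at hu hv
    have hne : u ≠ v := huv.ne
    have hnT : ¬ T G u v := by
      intro hT
      rcases lt_or_gt_of_ne hne with h1 | h1
      · exact hv.2.2 u h1 hT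
      · exact hu.2.2 v h1 hT.symm
    unfold T at hnT
    push Not at hnT
    obtain ⟨w, hw⟩ := hnT
    have hwu : w ≠ u := by
      rintro rfl
      rcases hw with ⟨_, h2⟩ | ⟨h1, _⟩
      · exact h2.2 huv.symm
      · exact h1.1 rfl
    have hwv : w ≠ v := by
      rintro rfl
      rcases hw with ⟨_, h2⟩ | ⟨h1, _⟩
      · exact h2.1 rfl
      · exact h1.2 huv
    have hdis : ¬ (G.Adj u w ↔ G.Adj v w) := by
      intro h3
      rcases hw with ⟨h1 | h1, h2⟩ | ⟨h1, h2 | h2⟩
      · exact hwu h1
      · exact h2.2 (h3.1 h1)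
      · exact hwv h2
      · exact h1.2 (h3.2 h2)
    have hT := rho_T G w
    have hru : rho G w ≠ u := by
      intro h1
      rw [h1] at hT
      -- `T u w`
      apply hdis
      have e1 : G.Adj u w := by
        rcases (hT w).2 (Or.inl rfl) with h2 | h2
        · exact absurd h2 hwu
        · exact h2
      have e2 : G.Adj v w := by
        rcases (hT v).1 (Or.inr huv) with h2 | h2
        · exact absurd h2.symm hwv
        · exact h2.symm
      exact ⟨fun _ => e2, fun _ => e1⟩
    have hrv : rho G w ≠ v := by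
      intro h1
      rw [h1] at hT
      apply hdis
      have e1 : G.Adj v w := by
        rcases (hT w).2 (Or.inl rfl) with h2 | h2
        · exact absurd h2 hwv
        · exact h2
      have e2 : G.Adj u w := by
        rcases (hT u).1 (Or.inr huv.symm) with h2 | h2
        · exact absurd h2.symm hwu
        · exact h2.symm
      exact ⟨fun _ => e1, fun _ => e2⟩
    have hdis' : ¬ (G.Adj u (rho G w) ↔ G.Adj v (rho G w)) := by
      rw [adj_iff hT hru.symm hwu.symm, adj_iff hT hrv.symm hwv.symm]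
      exact hdis
    refine ⟨rho G w, ?_, hru, hrv, hdis'⟩
    rw [hmem]
    have hor : G.Adj u (rho G w) ∨ G.Adj v (rho G w) := by
      by_contra h1
      push Not at h1
      exact hdis' ⟨fun h2 => absurd h2 h1.1, fun h2 => absurd h2 h1.2⟩
    rcases hor with h1 | h1
    · exact ⟨(hn _ _ h1).2, hu.2.1.trans h1.reachable, fun x hx => min_rho hx⟩
    · exact ⟨(hn _ _ h1).2, hv.2.1.trans h1.reachable, fun x hx => min_rho hx⟩
  · rintro A ⟨a, ha⟩ hAU ⟨x, hxU, hxA⟩
    have haU := (hmem a).1 (hAU a ha)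
    have hxU' := (hmem x).1 hxU
    obtain ⟨p⟩ := haU.2.1.symm.trans hxU'.2.1
    have h1 : a ∈ {y | rho G y ∈ A} := by
      show rho G a ∈ A
      rw [rho_of_min haU.2.2]
      exact ha
    have h2 : x ∉ {y | rho G y ∈ A} := by
      show rho G x ∉ A
      rw [rho_of_min hxU'.2.2]
      exact hxA
    obtain ⟨d, -, hd1, hd2⟩ := p.exists_boundary_dart _ h1 h2
    have hd1' : rho G d.fst ∈ A := hd1
    have hd2' : rho G d.snd ∉ A := hd2
    have hadj : G.Adj d.fst d.snd := d.adj
    have e1 : G.Adj (rho G d.fst) d.snd := by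
      rcases (rho_T G d.fst d.snd).2 (Or.inr hadj) with h3 | h3
      · exfalso
        apply hd2'
        rw [h3, rho_rho]
        exact hd1'
      · exact h3
    have e2 : G.Adj (rho G d.fst) (rho G d.snd) := by
      rcases (rho_T G d.snd (rho G d.fst)).2 (Or.inr e1.symm) with h3 | h3
      · exfalso
        apply hd2'
        rw [← h3]
        exact hd1'
      · exact h3.symm
    have hyU := (hmem _).1 (hAU _ hd1')
    refine ⟨rho G d.fst, hd1', rho G d.snd, ?_, hd2', e2⟩
    rw [hmem]
    exact ⟨(hn _ _ e2).2, hyU.2.1.trans e2.reachable, fun x hx => min_rho hx⟩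

end Pool.Agent.Lib.MP_0b43f8_lc
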