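import Pool.Agent.Lib.MP_0b43f8_lc.Core

set_option autoImplicit false

/-!
# REDUCE : from the whole graph to the pieces
-/

namespace Pool.Agent.Lib.MP_0b43f8_lc

namespace ReduceAux

/-- `v` and `u` have the same closed neighbourhood -/
def Tw (G : SimpleGraph ℕ) (v u : ℕ) : Prop := ∀ w, (w = v ∨ G.Adj v w) ↔ (w = u ∨ G.Adj u w)

theorem Tw.refl (G : SimpleGraph ℕ) (u : ℕ) : Tw G u u := fun _ => Iff.rfl

open Classical in
/-- the least twin -/
noncomputable def rho (G : SimpleGraph ℕ) (u : ℕ) : ℕ := Nat.find (p := fun v => Tw G v u) ⟨u, Tw.refl G u⟩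

theorem rho_tw (G : SimpleGraph ℕ) (u : ℕ) : Tw G (rho G u) u := by
  classical
  exact Nat.find_spec (p := fun v => Tw G v u) ⟨u, Tw.refl G u⟩

theorem rho_le {G : SimpleGraph ℕ} {u v : ℕ} (h : Tw G v u) : rho G u ≤ v := by
  classical
  exact Nat.find_min' (p := fun v => Tw G v u) ⟨u, Tw.refl G u⟩ h

theorem rho_rho (G : SimpleGraph ℕ) (u : ℕ) : rho G (rho G u) = rho G u := by
  refine le_antisymm (rho_le (Tw.refl G _)) (rho_le ?_)
  intro w
  exact (rho_tw G (rho G u) w).trans (rho_tw G u w)

variable {adj : ℕ → ℕ → Bool} {G : SimpleGraph ℕ} {n : ℕ}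

theorem tw_iff (ha : ∀ u v, G.Adj u v ↔ adj u v = true) (hn : ∀ u v, G.Adj u v → u < n ∧ v < n)
    {u v : ℕ} (hu : u < n) (hv : v < n) : tw adj n u v = true ↔ Tw G u v := by
  unfold tw Tw
  rw [List.all_eq_true]
  constructor
  · intro h w
    rcases lt_or_ge w n with hw | hw
    · have := h w (List.mem_range.2 hw)
      rw [decide_eq_true_eq] at this
      rw [ha, ha]
      have e := congrArg (fun b : Bool => b = true) this
      simp only [Bool.or_eq_true, decide_eq_true_eq] at e
      exact iff_of_eq e
    · have h1 : ¬ (w = u ∨ G.Adj u w) := by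
        rintro (h | h)
        · omega
        · have := (hn _ _ h).2; omega
      have h2 : ¬ (w = v ∨ G.Adj v w) := by
        rintro (h | h)
        · omega
        · have := (hn _ _ h).2; omega
      exact iff_of_false h1 h2
  · intro h w _
    have := h w
    rw [ha, ha] at this
    rw [decide_eq_true_eq, Bool.eq_iff_iff]
    simpa using this

theorem isRep_iff (ha : ∀ u v, G.Adj u v ↔ adj u v = true)
    (hn : ∀ u v, G.Adj u v → u < n ∧ v < n) {u : ℕ} (hu : u < n) :
    isRep adj n u = true ↔ rho G u = u := by
  unfold isRep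
  rw [List.all_eq_true]
  constructor
  · intro h
    refine le_antisymm (rho_le (Tw.refl G u)) ?_
    by_contra hlt
    rw [not_le] at hlt
    have := h _ (List.mem_range.2 hlt)
    have h2 := (tw_iff ha hn (hlt.trans hu) hu).2 (rho_tw G u)
    rw [h2] at this
    simp at this
  · intro h v hv
    rw [List.mem_range] at hv
    by_contra h1
    have h2 : tw adj n v u = true := by simpa using h1
    have := rho_le ((tw_iff ha hn (hv.trans hu) hu).1 h2)
    omega

theorem mem_piece (h1 : StCmp) (ha : ∀ u v, G.Adj u v ↔ adj u v = true)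
    (hn : ∀ u v, G.Adj u v → u < n ∧ v < n) {v : ℕ} (hv : v < n) (u : ℕ) :
    u ∈ piece adj n v ↔ u < n ∧ G.Reachable v u ∧ rho G u = u := by
  unfold piece
  rw [List.mem_filter, List.mem_range, Bool.and_eq_true, decide_eq_true_eq,
    h1 adj G n ha hn v hv u]
  constructor
  · rintro ⟨h1, h2, h3⟩
    exact ⟨h1, h2, (isRep_iff ha hn h1).1 h3⟩
  · rintro ⟨h1, h2, h3⟩
    exact ⟨h1, h2, (isRep_iff ha hn h1).2 h3⟩

theorem reach_lt (hn : ∀ u v, G.Adj u v → u < n ∧ v < n) {v u : ℕ} (hv : v < n)
    (h : G.Reachable v u) : u < n := by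
  obtain ⟨p⟩ := h
  induction p with
  | nil => exact hv
  | cons h _ ih => exact ih (hn _ _ h).2

theorem reach_rho {v u : ℕ} (h : G.Reachable v u) : G.Reachable v (rho G u) := by
  rcases (rho_tw G u (rho G u)).1 (Or.inl rfl) with h1 | h1
  · rw [h1]; exact h
  · exact h.trans h1.reachable

end ReduceAux

open ReduceAux

/-- REDUCE -/
theorem stReduce (h1 : StCmp) (h2 : StRestr) (h3 : StTwin) (h4 : StCompU) : StReduce := by
  intro adj G n k ha hn hk hn1
  constructor
  · rintro ⟨l, hl⟩ v hv
    refine ⟨l, ?_⟩
    have hsub : (piece adj n v).toFinset ⊆ Finset.range n := by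
      intro u hu
      rw [List.mem_toFinset, mem_piece h1 ha hn hv] at hu
      exact Finset.mem_range.2 hu.1
    have hne : (Finset.range n ∩ (piece adj n v).toFinset).Nonempty := by
      rw [Finset.inter_eq_right.2 hsub]
      refine ⟨rho G v, ?_⟩
      rw [List.mem_toFinset, mem_piece h1 ha hn hv]
      refine ⟨lt_of_le_of_lt (rho_le (Tw.refl G v)) hv, reach_rho (SimpleGraph.Reachable.refl v),
        rho_rho G v⟩
    have := h2 ℕ G k _ l hl _ hne
    rwa [Finset.inter_eq_right.2 hsub] at this
  · intro h
    have hC : ∀ v, v < n → ∃ l, Good G k (compS adj n v).toFinset l := by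
      intro v hv
      obtain ⟨l, hl⟩ := h v hv
      have hT := h3 ℕ G k (rho G) (compS adj n v).toFinset hk (rho_rho G)
        (fun u w => (rho_tw G u w).symm) (fun u hu => by
          rw [List.mem_toFinset, h1 adj G n ha hn v hv] at hu ⊢
          exact reach_rho hu) _ l hl (fun u hu => by
          rw [List.mem_toFinset, mem_piece h1 ha hn hv] at hu
          refine ⟨?_, hu.2.2⟩
          rw [List.mem_toFinset, h1 adj G n ha hn v hv]
          exact hu.2.1)
      rw [Finset.filter_true_of_mem] at hT
      · exact ⟨_, hT⟩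
      · intro u hu
        rw [List.mem_toFinset, h1 adj G n ha hn v hv] at hu
        rw [List.mem_toFinset, mem_piece h1 ha hn hv]
        have hr := reach_rho hu
        exact ⟨reach_lt hn hv hr, hr, rho_rho G u⟩
    have hmem : ∀ v, v < n → ∀ u, u ∈ (compS adj n v).toFinset ↔ G.Reachable v u := by
      intro v hv u
      rw [List.mem_toFinset, h1 adj G n ha hn v hv]
    have hU := h4 ℕ (Finset ℕ) G k
      ((Finset.range n).image fun v => (compS adj n v).toFinset) (fun c => c) (by omega)
      (by
        refine ⟨(compS adj n 0).toFinset, ?_⟩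
        rw [Finset.mem_image]
        exact ⟨0, Finset.mem_range.2 (by omega), rfl⟩)
      (by
        intro c hc d hd hcd
        rw [Finset.mem_image] at hc hd
        obtain ⟨v, hv, rfl⟩ := hc
        obtain ⟨w, hw, rfl⟩ := hd
        rw [Finset.mem_range] at hv hw
        have key : ¬ G.Reachable v w := by
          intro hr
          apply hcd
          ext u
          rw [hmem v hv, hmem w hw]
          exact ⟨fun h => hr.symm.trans h, fun h => hr.trans h⟩
        refine ⟨?_, ?_⟩
        · rw [Finset.disjoint_left]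
          intro u hu hu'
          rw [hmem v hv] at hu
          rw [hmem w hw] at hu'
          exact key (hu.trans hu'.symm)
        · intro u hu x hx hux
          rw [hmem v hv] at hu
          rw [hmem w hw] at hx
          exact key ((hu.trans hux.reachable).trans hx.symm))
      (by
        intro c hc
        rw [Finset.mem_image] at hc
        obtain ⟨v, hv, rfl⟩ := hc
        exact hC v (Finset.mem_range.1 hv))
    refine ⟨fun _ => 0, ?_⟩
    have e : ((Finset.range n).image fun v => (compS adj n v).toFinset).biUnion (fun c => c) =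
        Finset.range n := by
      ext x
      rw [Finset.mem_biUnion]
      constructor
      · rintro ⟨c, hc, hx⟩
        rw [Finset.mem_image] at hc
        obtain ⟨v, hv, rfl⟩ := hc
        rw [Finset.mem_range] at hv
        rw [hmem v hv] at hx
        exact Finset.mem_range.2 (reach_lt hn hv hx)
      · intro hx
        refine ⟨(compS adj n x).toFinset, Finset.mem_image.2 ⟨x, hx, rfl⟩, ?_⟩
        rw [hmem x (Finset.mem_range.1 hx)]
    rw [e] at hU
    exact hU

end Pool.Agent.Lib.MP_0b43f8_lc
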