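import Mathlib
import Pool.Agent.Lib.MP_0b43f8_lc.Core

/-!
RESTR: restriction of a construction to a subset.
-/

namespace Pool.Agent.Lib.MP_0b43f8_lc

theorem stRestr : StRestr := by
  intro V _ G k X l h
  induction h with
  | single v l h =>
    intro U hU
    have e : ({v} : Finset V) ∩ U = {v} := by
      obtain ⟨w, hw⟩ := hU
      rw [Finset.mem_inter, Finset.mem_singleton] at hw
      obtain ⟨rfl, hw⟩ := hw
      rw [Finset.inter_eq_left, Finset.singleton_subset_iff]
      exact hw
    rw [e]
    exact Good.single v l h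
  | congr X l l' _ e ih =>
    intro U hU
    exact Good.congr _ l l' (ih U hU) fun v hv => e v (Finset.mem_inter.1 hv).1
  | relab X l i j hj _ ih =>
    intro U hU
    exact Good.relab _ l i j hj (ih U hU)
  | union X Y l _ _ hd h1 h2 ihX ihY =>
    intro U hU
    rw [Finset.union_inter_distrib_right] at hU ⊢
    rcases Finset.eq_empty_or_nonempty (X ∩ U) with hX | hX
    · rw [hX, Finset.empty_union] at hU ⊢
      exact ihY U hU
    rcases Finset.eq_empty_or_nonempty (Y ∩ U) with hY | hY
    · rw [hY, Finset.union_empty] at hU ⊢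
      exact ihX U hU
    have sub : (X ∩ U) ∪ (Y ∩ U) ⊆ X ∪ Y :=
      Finset.union_subset_union Finset.inter_subset_left Finset.inter_subset_left
    refine Good.union _ _ l (ihX U hX) (ihY U hY) ?_ ?_ ?_
    · exact Finset.disjoint_of_subset_left Finset.inter_subset_left
        (Finset.disjoint_of_subset_right Finset.inter_subset_left hd)
    · intro u hu v hv
      exact h1 u (Finset.mem_inter.1 hu).1 v (Finset.mem_inter.1 hv).1
    · intro u hu v hv huv u' hu' v' hv'
      exact h2 u (Finset.mem_inter.1 hu).1 v (Finset.mem_inter.1 hv).1 huv u' (sub hu') v'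
        (sub hv')

end Pool.Agent.Lib.MP_0b43f8_lc
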