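import Pool.Agent.Lib.MP_0b43f8_lc.Core

set_option autoImplicit false

/-! SETS : the number of sets with few changes. -/

namespace Pool.Agent.Lib.MP_0b43f8_lc

/-- the set with first value `b` and changes at the values of `D` -/
def setBD (m c : ℕ) (p : Bool × (Fin c → Fin (m + 1))) : Finset ℕ :=
  (Finset.range m).filter fun i =>
    ((p.1 = true) ↔ Even (((Finset.univ.image fun k => ((p.2 k : ℕ))).filter (· < i)).card))

lemma sets_enum (m c : ℕ) (S : Finset ℕ) (hS : ∀ i ∈ S, i < m) (hc : S.card ≤ c) :
    ∃ D : Fin c → Fin (m + 1), ∀ j, j < m → (j ∈ S ↔ ∃ k, ((D k : ℕ)) = j) := by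
  have hle : ∀ k, S.toList.getD k m ≤ m := by
    intro k
    by_cases hk : k < S.toList.length
    · rw [List.getD_eq_getElem _ _ hk]
      exact (hS _ (Finset.mem_toList.1 (List.getElem_mem hk))).le
    · rw [List.getD_eq_default _ _ (not_lt.1 hk)]
  refine ⟨fun k => ⟨S.toList.getD k m, Nat.lt_succ_of_le (hle k)⟩, fun j hj => ?_⟩
  constructor
  · intro h
    obtain ⟨k, hk, hk2⟩ := List.mem_iff_getElem.1 (Finset.mem_toList.2 h)
    have hk3 : k < c := lt_of_lt_of_le hk (by rw [Finset.length_toList]; exact hc)
    refine ⟨⟨k, hk3⟩, ?_⟩
    show S.toList.getD k m = j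
    rw [List.getD_eq_getElem _ _ hk, hk2]
  · rintro ⟨k, hk⟩
    have hk : S.toList.getD k m = j := hk
    by_cases hk2 : (k : ℕ) < S.toList.length
    · rw [List.getD_eq_getElem _ _ hk2] at hk
      rw [← hk]
      exact Finset.mem_toList.1 (List.getElem_mem hk2)
    · rw [List.getD_eq_default _ _ (not_lt.1 hk2)] at hk
      omega

/-- SETS -/
theorem stSets : StSets := by
  intro m c
  refine ⟨(Finset.univ.image (setBD m c)).toList, ?_, ?_⟩
  · rw [Finset.length_toList]
    refine Finset.card_image_le.trans ?_
    rw [Finset.card_univ, Fintype.card_prod, Fintype.card_bool, Fintype.card_fun, Fintype.card_fin,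
      Fintype.card_fin]
  · intro X hX
    classical
    set S : Finset ℕ := (Finset.range m).filter fun i => i + 1 < m ∧ ¬ (X i ↔ X (i + 1)) with hS
    have hSc : S.card ≤ c := hX S fun i hi => (Finset.mem_filter.1 hi).2
    have hSm : ∀ i ∈ S, i < m := fun i hi => Finset.mem_range.1 (Finset.mem_filter.1 hi).1
    obtain ⟨D, hD⟩ := sets_enum m c S hSm hSc
    have hmain : ∀ i, i < m → (X i ↔ (X 0 ↔ Even ((S.filter (· < i)).card))) := by
      intro i
      induction i with
      | zero =>
        intro _
        have : S.filter (· < 0) = ∅ := by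
          ext j; simp
        rw [this]
        simp
      | succ i ih =>
        intro hi
        have ih' := ih (by omega)
        by_cases hch : (X i ↔ X (i + 1))
        · have : S.filter (· < i + 1) = S.filter (· < i) := by
            ext j
            simp only [Finset.mem_filter]
            constructor
            · rintro ⟨h1, h2⟩
              refine ⟨h1, ?_⟩
              rcases Nat.lt_succ_iff_lt_or_eq.1 h2 with h3 | h3
              · exact h3
              · subst h3
                exact absurd hch (Finset.mem_filter.1 h1).2.2
            · rintro ⟨h1, h2⟩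
              exact ⟨h1, by omega⟩
          rw [this, ← hch]
          exact ih'
        · have hmem : i ∈ S := by
            rw [hS, Finset.mem_filter, Finset.mem_range]
            exact ⟨by omega, hi, hch⟩
          have : S.filter (· < i + 1) = insert i (S.filter (· < i)) := by
            ext j
            simp only [Finset.mem_filter, Finset.mem_insert]
            constructor
            · rintro ⟨h1, h2⟩
              rcases Nat.lt_succ_iff_lt_or_eq.1 h2 with h3 | h3
              · exact Or.inr ⟨h1, h3⟩
              · exact Or.inl h3
            · rintro (h1 | ⟨h1, h2⟩)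
              · subst h1
                exact ⟨hmem, by omega⟩
              · exact ⟨h1, by omega⟩
          rw [this, Finset.card_insert_of_notMem (by simp), Nat.even_add_one]
          tauto
    refine ⟨setBD m c (decide (X 0), D), ?_, ?_⟩
    · rw [Finset.mem_toList, Finset.mem_image]
      exact ⟨_, Finset.mem_univ _, rfl⟩
    · intro i hi
      have hfe : (Finset.univ.image fun k => ((D k : ℕ))).filter (· < i) = S.filter (· < i) := by
        ext j
        simp only [Finset.mem_filter, Finset.mem_image, Finset.mem_univ, true_and]
        constructor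
        · rintro ⟨h1, h2⟩
          exact ⟨(hD j (by omega)).2 h1, h2⟩
        · rintro ⟨h1, h2⟩
          exact ⟨(hD j (by omega)).1 h1, h2⟩
      rw [hmain i hi]
      simp only [setBD, Finset.mem_filter, Finset.mem_range, decide_eq_true_eq]
      rw [hfe]
      exact ⟨fun h => ⟨hi, h⟩, fun h => h.2⟩

end Pool.Agent.Lib.MP_0b43f8_lc
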