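import Pool.Agent.Lib.MP_0b43f8_lc.Core

/-!
# Soundness of the operations on states
-/

namespace Pool.Agent.Lib.MP_0b43f8_lc

namespace SoundAux

theorem mem_prs {a b : ℕ} {x : ℕ × ℕ} : x ∈ prs a b ↔ x.1 < a ∧ x.2 < b := by
  obtain ⟨i, j⟩ := x
  simp only [prs, List.mem_flatMap, List.mem_map, List.mem_range, Prod.mk.injEq]
  constructor
  · rintro ⟨i', hi, j', hj, rfl, rfl⟩
    exact ⟨hi, hj⟩
  · rintro ⟨hi, hj⟩
    exact ⟨i, hi, j, hj, rfl, rfl⟩

theorem mem1 {n k : ℕ} {p : ℕ → Bool} {q r : ℕ × ℕ → Bool} {x : ℕ} :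
    x ∈ (mkS n k p q r).1 ↔ x < n ∧ p x = true := by
  simp [mkS]

theorem mem2 {n k : ℕ} {p : ℕ → Bool} {q r : ℕ × ℕ → Bool} {x : ℕ × ℕ} :
    x ∈ (mkS n k p q r).2.1 ↔ (x.1 < k ∧ x.2 < n) ∧ q x = true := by
  simp only [mkS, List.mem_filter, mem_prs]

theorem mem3 {n k : ℕ} {p : ℕ → Bool} {q r : ℕ × ℕ → Bool} {x : ℕ × ℕ} :
    x ∈ (mkS n k p q r).2.2 ↔ (x.1 < k ∧ x.2 < k) ∧ r x = true := by
  simp only [mkS, List.mem_filter, mem_prs]

variable {adj : ℕ → ℕ → Bool}

theorem sameOut_iff {U X Y : List ℕ} {x y : ℕ} :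
    sameOut adj U X Y x y = true ↔ ∀ w ∈ U, w ∈ X ∨ w ∈ Y ∨ adj x w = adj y w := by
  simp [sameOut]

theorem relabOK_iff {U : List ℕ} {i j : ℕ} {s : DS} : relabOK adj U i j s = true ↔
    i ≠ j ∧ ∀ p ∈ s.2.1, ∀ q ∈ s.2.1, p.1 = i → q.1 = j →
      ∀ w ∈ U, w ∈ s.1 ∨ adj p.2 w = adj q.2 w := by
  simp only [relabOK, Bool.and_eq_true, Bool.not_eq_true', decide_eq_false_iff_not,
    List.all_eq_true, Bool.or_eq_true, sameOut_iff, List.not_mem_nil, false_or]
  constructor
  · rintro ⟨h1, h2⟩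
    refine ⟨h1, fun p hp q hq hi hj => ?_⟩
    rcases h2 p hp q hq with h | h | h
    · exact absurd hi h
    · exact absurd hj h
    · exact h
  · rintro ⟨h1, h2⟩
    refine ⟨h1, fun p hp q hq => ?_⟩
    by_cases hi : p.1 = i
    · by_cases hj : q.1 = j
      · exact Or.inr (Or.inr (h2 p hp q hq hi hj))
      · exact Or.inr (Or.inl hj)
    · exact Or.inl hi

theorem crossK_iff {s t : DS} {b : ℕ × ℕ} : crossK adj s t b = true ↔
    b ∈ s.2.2 ∧ b ∈ t.2.2 ∧ ∀ p ∈ s.2.1, ∀ q ∈ t.2.1,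
      (p.1 = b.1 → q.1 = b.2 → adj p.2 q.2 = true) ∧
      (p.1 = b.2 → q.1 = b.1 → adj p.2 q.2 = true) := by
  simp only [crossK, Bool.and_eq_true, decide_eq_true_eq, List.all_eq_true, Bool.or_eq_true,
    Bool.not_eq_true', decide_eq_false_iff_not]
  constructor
  · rintro ⟨h1, h2, h3⟩
    refine ⟨h1, h2, fun p hp q hq => ⟨fun e f => ?_, fun e f => ?_⟩⟩
    · rcases (h3 p hp q hq).1 with h | h | h
      · exact absurd e h
      · exact absurd f h
      · exact h
    · rcases (h3 p hp q hq).2 with h | h | h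
      · exact absurd e h
      · exact absurd f h
      · exact h
  · rintro ⟨h1, h2, h3⟩
    refine ⟨h1, h2, fun p hp q hq => ⟨?_, ?_⟩⟩
    · by_cases e : p.1 = b.1
      · by_cases f : q.1 = b.2
        · exact Or.inr (Or.inr ((h3 p hp q hq).1 e f))
        · exact Or.inr (Or.inl f)
      · exact Or.inl e
    · by_cases e : p.1 = b.2
      · by_cases f : q.1 = b.1
        · exact Or.inr (Or.inr ((h3 p hp q hq).2 e f))
        · exact Or.inr (Or.inl f)
      · exact Or.inl e

theorem unionOK_iff {U : List ℕ} {s t : DS} : unionOK adj U s t = true ↔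
    (∀ x ∈ s.1, x ∉ t.1) ∧ ∀ p ∈ s.2.1, ∀ q ∈ t.2.1,
      (p.1 = q.1 → adj p.2 q.2 = false ∧ ∀ w ∈ U, w ∈ s.1 ∨ w ∈ t.1 ∨ adj p.2 w = adj q.2 w) ∧
      (p.1 ≠ q.1 → adj p.2 q.2 = true → crossK adj s t (p.1, q.1) = true) := by
  simp only [unionOK, Bool.and_eq_true, List.all_eq_true, Bool.not_eq_true',
    decide_eq_false_iff_not]
  refine and_congr Iff.rfl (forall₂_congr fun p _ => forall₂_congr fun q _ => ?_)
  by_cases h : p.1 = q.1
  · simp [h, sameOut_iff]
  · simp only [h, decide_false, cond_false, Bool.or_eq_true, Bool.not_eq_true', false_imp_iff,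
      true_and, ne_eq, not_false_eq_true, forall_const]
    constructor
    · rintro (h1 | h1) h2
      · rw [h1] at h2; exact absurd h2 (by simp)
      · exact h1
    · intro h1
      cases h2 : adj p.2 q.2
      · exact Or.inl rfl
      · exact Or.inr (h1 h2)

/-! ### Leaves -/

theorem leaf {G : SimpleGraph ℕ} {n k : ℕ} {U : List ℕ} (hU : ∀ v ∈ U, v < n) {v a : ℕ}
    (hv : v ∈ U) (ha : a < k) :
    Good G k (leafS n k v a).1.toFinset (fun _ => a) ∧
      Repr G n k U (fun _ => a) (leafS n k v a) := by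
  have h1 : ∀ x, x ∈ (leafS n k v a).1 ↔ x = v := by
    intro x
    rw [leafS, mem1, decide_eq_true_eq]
    exact ⟨fun h => h.2, fun h => ⟨h ▸ hU v hv, h⟩⟩
  have h2 : ∀ x, x ∈ (leafS n k v a).2.1 ↔ x = (a, v) := by
    intro x
    rw [leafS, mem2, decide_eq_true_eq]
    refine ⟨fun h => h.2, ?_⟩
    rintro rfl
    exact ⟨⟨ha, hU v hv⟩, rfl⟩
  have h3 : ∀ x, x ∈ (leafS n k v a).2.2 ↔ x.1 < k ∧ x.2 < k := by
    intro x
    rw [leafS, mem3]
    exact and_iff_left rfl
  constructor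
  · have e : (leafS n k v a).1.toFinset = {v} := by
      ext x
      rw [List.mem_toFinset, h1, Finset.mem_singleton]
    rw [e]
    exact Good.single v _ ha
  · refine ⟨?_, ⟨_, _, _, rfl⟩, fun _ _ => ha, ?_, ?_, ?_, ?_, ?_⟩
    · intro x hx
      rw [(h1 x).1 hx]
      exact hv
    · intro x hx y hy _ w _ _
      rw [(h1 x).1 hx, (h1 y).1 hy]
    · intro p hp
      rw [(h2 p).1 hp]
      exact ⟨(h1 v).2 rfl, rfl⟩
    · intro x _
      exact ⟨v, (h2 _).2 rfl⟩
    · intro p hp q hq _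
      rw [(h2 p).1 hp, (h2 q).1 hq]
    · intro c hc d hd
      refine ⟨fun _ => ?_, fun _ => (h3 _).2 ⟨hc, hd⟩⟩
      by_cases e : c = d
      · exact Or.inl e
      · exact Or.inr fun x _ y _ e1 e2 => absurd (e1.symm.trans e2) e

/-! ### Relabelling -/

theorem relab {G : SimpleGraph ℕ} {n k : ℕ} {U : List ℕ} (hG : ∀ u v, G.Adj u v ↔ adj u v = true)
    (hU : ∀ v ∈ U, v < n) {i j : ℕ} (hik : i < k) (hj : j < k) {s : DS} {l : ℕ → ℕ}
    (hg : Good G k s.1.toFinset l) (R : Repr G n k U l s) (hok : relabOK adj U i j s = true) :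
    Good G k (relabS n k i j s).1.toFinset (fun v => if l v = i then j else l v) ∧
      Repr G n k U (fun v => if l v = i then j else l v) (relabS n k i j s) := by
  obtain ⟨hij, hok⟩ := relabOK_iff.1 hok
  have h1 : ∀ x, x ∈ (relabS n k i j s).1 ↔ x ∈ s.1 := by
    intro x
    rw [relabS, mem1, decide_eq_true_eq]
    exact ⟨fun h => h.2, fun h => ⟨hU x (R.sub x h), h⟩⟩
  have h2 : ∀ x : ℕ × ℕ, x ∈ (relabS n k i j s).2.1 ↔ (x.1 < k ∧ x.2 < n) ∧ x.1 ≠ i ∧
      ((x.1 ≠ j ∧ x ∈ s.2.1) ∨ (x.1 = j ∧ (x ∈ s.2.1 ∨ ((i, x.2) ∈ s.2.1 ∧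
        ∀ c ∈ s.2.1, c.1 ≠ j)))) := by
    intro x
    rw [relabS, mem2]
    refine and_congr Iff.rfl ?_
    by_cases e1 : x.1 = i
    · simp [e1]
    · by_cases e2 : x.1 = j
      · simp [e2, hij.symm]
      · simp [e1, e2]
  have h3 : ∀ x : ℕ × ℕ, x ∈ (relabS n k i j s).2.2 ↔ (x.1 < k ∧ x.2 < k) ∧
      (x.1 = x.2 ∨ x.1 = i ∨ x.2 = i ∨ (x ∈ s.2.2 ∧ (x.1 ≠ j ∨ (i, x.2) ∈ s.2.2) ∧
        (x.2 ≠ j ∨ (x.1, i) ∈ s.2.2))) := by
    intro x
    rw [relabS, mem3]
    refine and_congr Iff.rfl ?_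
    simp
  have hb : ∀ p ∈ s.2.1, p.1 < k ∧ p.2 < n := by
    intro p hp
    have := R.rep1 p hp
    exact ⟨this.2 ▸ R.lab _ this.1, hU _ (R.sub _ this.1)⟩
  -- the case of one vertex with label `i` and one with label `j`
  have hmix : ∀ u ∈ s.1, ∀ v ∈ s.1, l u = i → l v = j → ∀ w ∈ U, w ∉ s.1 →
      (G.Adj u w ↔ G.Adj v w) := by
    intro u hu v hv eu ev w hw hws
    obtain ⟨r, hr⟩ := R.rep2 u hu
    obtain ⟨r', hr'⟩ := R.rep2 v hv
    have a1 := R.rep1 _ hr
    have a2 := R.rep1 _ hr'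
    rcases hok _ hr _ hr' eu ev w hw with h | h
    · exact absurd h hws
    · rw [R.unif u hu r a1.1 a1.2.symm w hw hws, R.unif v hv r' a2.1 a2.2.symm w hw hws, hG, hG]
      simp only at h
      rw [h]
  constructor
  · have e : (relabS n k i j s).1.toFinset = s.1.toFinset := by
      ext x
      rw [List.mem_toFinset, List.mem_toFinset, h1]
    rw [e]
    exact Good.relab _ _ i j hj hg
  · refine ⟨fun x hx => R.sub x ((h1 x).1 hx), ⟨_, _, _, rfl⟩, ?_, ?_, ?_, ?_, ?_, ?_⟩
    · intro v hv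
      have := R.lab v ((h1 v).1 hv)
      split_ifs
      · exact hj
      · exact this
    · intro u hu v hv e w hw hws
      rw [h1] at hu hv hws
      split_ifs at e with e1 e2 e2
      · exact R.unif u hu v hv (e1.trans e2.symm) w hw hws
      · exact hmix u hu v hv e1 e.symm w hw hws
      · exact (hmix v hv u hu e2 e w hw hws).symm
      · exact R.unif u hu v hv e w hw hws
    · intro p hp
      obtain ⟨-, hi, h | h⟩ := (h2 p).1 hp
      · have := R.rep1 p h.2
        refine ⟨(h1 _).2 this.1, ?_⟩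
        rw [this.2, if_neg hi]
      · obtain ⟨hpj, h | h⟩ := h
        · have := R.rep1 p h
          refine ⟨(h1 _).2 this.1, ?_⟩
          rw [this.2, if_neg hi]
        · have := R.rep1 _ h.1
          refine ⟨(h1 _).2 this.1, ?_⟩
          dsimp only at this ⊢
          rw [this.2, if_pos rfl, hpj]
    · intro v hv
      rw [h1] at hv
      obtain ⟨r, hr⟩ := R.rep2 v hv
      split_ifs with e1
      · by_cases hc : ∃ c ∈ s.2.1, c.1 = j
        · obtain ⟨c, hc, ec⟩ := hc
          have hcc : (j, c.2) ∈ s.2.1 := by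
            rw [← ec]
            exact hc
          exact ⟨c.2, (h2 _).2 ⟨hb _ hcc, hij.symm, Or.inr ⟨rfl, Or.inl hcc⟩⟩⟩
        · push Not at hc
          refine ⟨r, (h2 _).2 ⟨⟨hj, (hb _ hr).2⟩, hij.symm, Or.inr ⟨rfl, Or.inr ⟨?_, hc⟩⟩⟩⟩
          rw [← e1]
          exact hr
      · refine ⟨r, (h2 _).2 ⟨hb _ hr, e1, ?_⟩⟩
        by_cases e2 : l v = j
        · exact Or.inr ⟨e2, Or.inl hr⟩
        · exact Or.inl ⟨e2, hr⟩
    · intro p hp q hq e
      obtain ⟨-, hpi, h | h⟩ := (h2 p).1 hp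
      · obtain ⟨-, hqi, h' | h'⟩ := (h2 q).1 hq
        · exact R.rep3 p h.2 q h'.2 e
        · exact absurd (e.trans h'.1) h.1
      · obtain ⟨-, hqi, h' | h'⟩ := (h2 q).1 hq
        · exact absurd (e.symm.trans h.1) h'.1
        · obtain ⟨hpj, h⟩ := h
          obtain ⟨hqj, h'⟩ := h'
          rcases h with h | h <;> rcases h' with h' | h'
          · exact R.rep3 p h q h' e
          · exact absurd hpj (h'.2 p h)
          · exact absurd hqj (h.2 q h')
          · have := R.rep3 _ h.1 _ h'.1 rfl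
            exact Prod.ext e (Prod.mk.inj this).2
    · intro a ha b hb'
      rw [h3]
      simp only [h1]
      by_cases hab : a = b
      · exact ⟨fun _ => Or.inl hab, fun _ => ⟨⟨ha, hb'⟩, Or.inl hab⟩⟩
      by_cases hai : a = i
      · refine ⟨fun _ => Or.inr fun u _ v _ e => ?_, fun _ => ⟨⟨ha, hb'⟩, Or.inr (Or.inl hai)⟩⟩
        split_ifs at e with e1
        · exact absurd (e.trans hai).symm hij
        · exact absurd (e.trans hai) e1
      by_cases hbi : b = i
      · refine ⟨fun _ => Or.inr fun u _ v _ _ e => ?_,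
          fun _ => ⟨⟨ha, hb'⟩, Or.inr (Or.inr (Or.inl hbi))⟩⟩
        split_ifs at e with e1
        · exact absurd (e.trans hbi).symm hij
        · exact absurd (e.trans hbi) e1
      have cab := R.com a ha b hb'
      have hl : ∀ u c, c ≠ i → ((if l u = i then j else l u) = c ↔ l u = c ∨ (l u = i ∧ c = j)) := by
        intro u c hc
        split_ifs with e1
        · constructor
          · intro h
            exact Or.inr ⟨e1, h.symm⟩
          · rintro (h | h)
            · exact absurd (h.symm.trans e1) hc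
            · exact h.2.symm
        · constructor
          · intro h
            exact Or.inl h
          · rintro (h | h)
            · exact h
            · exact absurd h.1 e1
      constructor
      · rintro ⟨-, h | h | h | ⟨h, ha', hb''⟩⟩
        · exact absurd h hab
        · exact absurd h hai
        · exact absurd h hbi
        · refine Or.inr fun u hu v hv e1 e2 => ?_
          rw [hl u a hai] at e1
          rw [hl v b hbi] at e2
          rcases e1 with e1 | ⟨e1, e1'⟩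
          · rcases e2 with e2 | ⟨e2, e2'⟩
            · rcases cab.1 h with h | h
              · exact absurd h hab
              · exact h u hu v hv e1 e2
            · rcases hb'' with h' | h'
              · exact absurd e2' h'
              · rcases (R.com a ha i hik).1 h' with h' | h'
                · exact absurd h' hai
                · exact h' u hu v hv e1 e2
          · rcases e2 with e2 | ⟨e2, e2'⟩
            · rcases ha' with h' | h'
              · exact absurd e1' h'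
              · rcases (R.com i hik b hb').1 h' with h' | h'
                · exact absurd h'.symm hbi
                · exact h' u hu v hv e1 e2
            · exact absurd (e1'.trans e2'.symm) hab
      · rintro (h | h)
        · exact absurd h hab
        · refine ⟨⟨ha, hb'⟩, Or.inr (Or.inr (Or.inr ⟨?_, ?_, ?_⟩))⟩
          · refine cab.2 (Or.inr fun u hu v hv e1 e2 => h u hu v hv ?_ ?_)
            · exact (hl u a hai).2 (Or.inl e1)
            · exact (hl v b hbi).2 (Or.inl e2)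
          · by_cases haj : a = j
            · right
              refine (R.com i hik b hb').2 (Or.inr fun u hu v hv e1 e2 => h u hu v hv ?_ ?_)
              · exact (hl u a hai).2 (Or.inr ⟨e1, haj⟩)
              · exact (hl v b hbi).2 (Or.inl e2)
            · exact Or.inl haj
          · by_cases hbj : b = j
            · right
              refine (R.com a ha i hik).2 (Or.inr fun u hu v hv e1 e2 => h u hu v hv ?_ ?_)
              · exact (hl u a hai).2 (Or.inl e1)
              · exact (hl v b hbi).2 (Or.inr ⟨e2, hbj⟩)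
            · exact Or.inl hbj

/-! ### Unions -/

/-- The labels of a union. -/
def ul (s : DS) (ls lt : ℕ → ℕ) (v : ℕ) : ℕ := if v ∈ s.1 then ls v else lt v

section union

variable {G : SimpleGraph ℕ} {n k : ℕ} {U : List ℕ} {s t : DS} {ls lt : ℕ → ℕ}

theorem ul1 {v : ℕ} (h : v ∈ s.1) : ul s ls lt v = ls v := if_pos h

theorem ul2 (hd : ∀ x ∈ s.1, x ∉ t.1) {v : ℕ} (h : v ∈ t.1) : ul s ls lt v = lt v :=
  if_neg fun h' => hd v h' h

/-- adjacency between the two sides and the representatives -/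
theorem cross (hG : ∀ u v, G.Adj u v ↔ adj u v = true) (R : Repr G n k U ls s)
    (T : Repr G n k U lt t) (hd : ∀ x ∈ s.1, x ∉ t.1) {u v : ℕ} (hu : u ∈ s.1) (hv : v ∈ t.1)
    {p q : ℕ × ℕ} (hp : p ∈ s.2.1) (hq : q ∈ t.2.1) (ep : ls u = p.1) (eq : lt v = q.1) :
    G.Adj u v ↔ adj p.2 q.2 = true := by
  have a1 := R.rep1 p hp
  have a2 := T.rep1 q hq
  have hvs : v ∉ s.1 := fun h => hd v h hv
  have hps : p.2 ∉ t.1 := hd _ a1.1
  rw [R.unif u hu p.2 a1.1 (ep.trans a1.2.symm) v (T.sub v hv) hvs, G.adj_comm,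
    T.unif v hv q.2 a2.1 (eq.trans a2.2.symm) p.2 (R.sub _ a1.1) hps, G.adj_comm, hG]

/-- the meaning of `crossK` -/
theorem crossK_spec (hG : ∀ u v, G.Adj u v ↔ adj u v = true) (R : Repr G n k U ls s)
    (T : Repr G n k U lt t) (hd : ∀ x ∈ s.1, x ∉ t.1) {a b : ℕ} (ha : a < k) (hb : b < k)
    (hab : a ≠ b) : crossK adj s t (a, b) = true ↔
      ∀ u, u ∈ s.1 ∨ u ∈ t.1 → ∀ v, v ∈ s.1 ∨ v ∈ t.1 → ul s ls lt u = a → ul s ls lt v = b →
        G.Adj u v := by
  rw [crossK_iff]
  constructor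
  · rintro ⟨h1, h2, h3⟩ u hu v hv eu ev
    have c1 := ((R.com a ha b hb).1 h1).resolve_left hab
    have c2 := ((T.com a ha b hb).1 h2).resolve_left hab
    rcases hu with hu | hu <;> rcases hv with hv | hv
    · rw [ul1 hu] at eu
      rw [ul1 hv] at ev
      exact c1 u hu v hv eu ev
    · rw [ul1 hu] at eu
      rw [ul2 hd hv] at ev
      obtain ⟨r, hr⟩ := R.rep2 u hu
      obtain ⟨r', hr'⟩ := T.rep2 v hv
      exact (cross hG R T hd hu hv hr hr' rfl rfl).2 ((h3 _ hr _ hr').1 eu ev)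
    · rw [ul2 hd hu] at eu
      rw [ul1 hv] at ev
      obtain ⟨r, hr⟩ := R.rep2 v hv
      obtain ⟨r', hr'⟩ := T.rep2 u hu
      exact ((cross hG R T hd hv hu hr hr' rfl rfl).2 ((h3 _ hr _ hr').2 ev eu)).symm
    · rw [ul2 hd hu] at eu
      rw [ul2 hd hv] at ev
      exact c2 u hu v hv eu ev
  · intro h
    refine ⟨(R.com a ha b hb).2 (Or.inr fun u hu v hv eu ev => ?_),
      (T.com a ha b hb).2 (Or.inr fun u hu v hv eu ev => ?_),
      fun p hp q hq => ⟨fun e1 e2 => ?_, fun e1 e2 => ?_⟩⟩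
    · exact h u (Or.inl hu) v (Or.inl hv) ((ul1 hu).trans eu) ((ul1 hv).trans ev)
    · exact h u (Or.inr hu) v (Or.inr hv) ((ul2 hd hu).trans eu) ((ul2 hd hv).trans ev)
    · have a1 := R.rep1 p hp
      have a2 := T.rep1 q hq
      exact (hG _ _).1 (h _ (Or.inl a1.1) _ (Or.inr a2.1) ((ul1 a1.1).trans (a1.2.trans e1))
        ((ul2 hd a2.1).trans (a2.2.trans e2)))
    · have a1 := R.rep1 p hp
      have a2 := T.rep1 q hq
      exact (hG _ _).1 (h _ (Or.inr a2.1) _ (Or.inl a1.1) ((ul2 hd a2.1).trans (a2.2.trans e2))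
        ((ul1 a1.1).trans (a1.2.trans e1))).symm

theorem union (hG : ∀ u v, G.Adj u v ↔ adj u v = true) (hU : ∀ v ∈ U, v < n)
    (hs : Good G k s.1.toFinset ls) (ht : Good G k t.1.toFinset lt) (R : Repr G n k U ls s)
    (T : Repr G n k U lt t) (hok : unionOK adj U s t = true) :
    Good G k (unionS adj n k s t).1.toFinset (ul s ls lt) ∧
      Repr G n k U (ul s ls lt) (unionS adj n k s t) := by
  obtain ⟨hd, hok⟩ := unionOK_iff.1 hok
  have h1 : ∀ x, x ∈ (unionS adj n k s t).1 ↔ x ∈ s.1 ∨ x ∈ t.1 := by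
    intro x
    rw [unionS, mem1, Bool.or_eq_true, decide_eq_true_eq, decide_eq_true_eq]
    refine ⟨fun h => h.2, fun h => ⟨?_, h⟩⟩
    rcases h with h | h
    · exact hU x (R.sub x h)
    · exact hU x (T.sub x h)
  have h2 : ∀ x : ℕ × ℕ, x ∈ (unionS adj n k s t).2.1 ↔ (x.1 < k ∧ x.2 < n) ∧
      (x ∈ s.2.1 ∨ (x ∈ t.2.1 ∧ ∀ c ∈ s.2.1, c.1 ≠ x.1)) := by
    intro x
    rw [unionS, mem2]
    simp
  have h3 : ∀ x : ℕ × ℕ, x ∈ (unionS adj n k s t).2.2 ↔ (x.1 < k ∧ x.2 < k) ∧
      (x.1 = x.2 ∨ crossK adj s t x = true) := by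
    intro x
    rw [unionS, mem3, Bool.or_eq_true, decide_eq_true_eq]
  have hbs : ∀ p ∈ s.2.1, p.1 < k ∧ p.2 < n := by
    intro p hp
    have := R.rep1 p hp
    exact ⟨this.2 ▸ R.lab _ this.1, hU _ (R.sub _ this.1)⟩
  have hbt : ∀ p ∈ t.2.1, p.1 < k ∧ p.2 < n := by
    intro p hp
    have := T.rep1 p hp
    exact ⟨this.2 ▸ T.lab _ this.1, hU _ (T.sub _ this.1)⟩
  -- cross pairs with the same label
  have hsame : ∀ u ∈ s.1, ∀ v ∈ t.1, ls u = lt v → ¬ G.Adj u v ∧ ∀ w ∈ U, w ∉ s.1 → w ∉ t.1 →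
      (G.Adj u w ↔ G.Adj v w) := by
    intro u hu v hv e
    obtain ⟨r, hr⟩ := R.rep2 u hu
    obtain ⟨r', hr'⟩ := T.rep2 v hv
    obtain ⟨g1, g2⟩ := (hok _ hr _ hr').1 e
    constructor
    · rw [cross hG R T hd hu hv hr hr' rfl rfl]
      simp only at g1
      rw [g1]
      simp
    · intro w hw hws hwt
      have a1 := R.rep1 _ hr
      have a2 := T.rep1 _ hr'
      rw [R.unif u hu r a1.1 a1.2.symm w hw hws, T.unif v hv r' a2.1 a2.2.symm w hw hwt, hG, hG]
      have := ((g2 w hw).resolve_left hws).resolve_left hwt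
      simp only at this
      rw [this]
  constructor
  · have e : (unionS adj n k s t).1.toFinset = s.1.toFinset ∪ t.1.toFinset := by
      ext x
      rw [List.mem_toFinset, h1, Finset.mem_union, List.mem_toFinset, List.mem_toFinset]
    rw [e]
    refine Good.union _ _ _ (Good.congr _ _ _ hs fun v hv => ?_)
      (Good.congr _ _ _ ht fun v hv => ?_) ?_ ?_ ?_
    · exact (ul1 (List.mem_toFinset.1 hv)).symm
    · exact (ul2 hd (List.mem_toFinset.1 hv)).symm
    · rw [Finset.disjoint_left]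
      intro x hx hx'
      exact hd x (List.mem_toFinset.1 hx) (List.mem_toFinset.1 hx')
    · intro u hu v hv e
      rw [List.mem_toFinset] at hu hv
      rw [ul1 hu, ul2 hd hv] at e
      exact (hsame u hu v hv e).1
    · intro u hu v hv huv u' hu' v' hv' eu ev
      rw [List.mem_toFinset] at hu hv
      rw [Finset.mem_union, List.mem_toFinset, List.mem_toFinset] at hu' hv'
      obtain ⟨r, hr⟩ := R.rep2 u hu
      obtain ⟨r', hr'⟩ := T.rep2 v hv
      have hne : ls u ≠ lt v := fun h => (hsame u hu v hv h).1 huv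
      have hc := (hok _ hr _ hr').2 hne ((cross hG R T hd hu hv hr hr' rfl rfl).1 huv)
      rw [crossK_spec hG R T hd (R.lab u hu) (T.lab v hv) hne] at hc
      rw [ul1 hu] at eu
      rw [ul2 hd hv] at ev
      exact hc u' hu' v' hv' eu ev
  · refine ⟨?_, ⟨_, _, _, rfl⟩, ?_, ?_, ?_, ?_, ?_, ?_⟩
    · intro x hx
      rcases (h1 x).1 hx with h | h
      · exact R.sub x h
      · exact T.sub x h
    · intro v hv
      rcases (h1 v).1 hv with h | h
      · rw [ul1 h]
        exact R.lab v h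
      · rw [ul2 hd h]
        exact T.lab v h
    · intro u hu v hv e w hw hws
      rw [h1] at hu hv hws
      push Not at hws
      rcases hu with hu | hu <;> rcases hv with hv | hv
      · rw [ul1 hu, ul1 hv] at e
        exact R.unif u hu v hv e w hw hws.1
      · rw [ul1 hu, ul2 hd hv] at e
        exact (hsame u hu v hv e).2 w hw hws.1 hws.2
      · rw [ul2 hd hu, ul1 hv] at e
        exact ((hsame v hv u hu e.symm).2 w hw hws.1 hws.2).symm
      · rw [ul2 hd hu, ul2 hd hv] at e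
        exact T.unif u hu v hv e w hw hws.2
    · intro p hp
      rcases ((h2 p).1 hp).2 with h | h
      · have := R.rep1 p h
        exact ⟨(h1 _).2 (Or.inl this.1), (ul1 this.1).trans this.2⟩
      · have := T.rep1 p h.1
        exact ⟨(h1 _).2 (Or.inr this.1), (ul2 hd this.1).trans this.2⟩
    · intro v hv
      rcases (h1 v).1 hv with h | h
      · obtain ⟨r, hr⟩ := R.rep2 v h
        rw [ul1 h]
        exact ⟨r, (h2 _).2 ⟨hbs _ hr, Or.inl hr⟩⟩
      · obtain ⟨r, hr⟩ := T.rep2 v h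
        rw [ul2 hd h]
        by_cases hc : ∃ c ∈ s.2.1, c.1 = lt v
        · obtain ⟨c, hc, ec⟩ := hc
          have hcc : (lt v, c.2) ∈ s.2.1 := by
            rw [← ec]
            exact hc
          exact ⟨c.2, (h2 _).2 ⟨hbs _ hcc, Or.inl hcc⟩⟩
        · push Not at hc
          exact ⟨r, (h2 _).2 ⟨hbt _ hr, Or.inr ⟨hr, hc⟩⟩⟩
    · intro p hp q hq e
      rcases ((h2 p).1 hp).2 with h | h <;> rcases ((h2 q).1 hq).2 with h' | h'
      · exact R.rep3 p h q h' e
      · exact absurd e (h'.2 p h)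
      · exact absurd e.symm (h.2 q h')
      · exact T.rep3 p h.1 q h'.1 e
    · intro a ha b hb
      rw [h3]
      simp only [h1]
      by_cases hab : a = b
      · exact ⟨fun _ => Or.inl hab, fun _ => ⟨⟨ha, hb⟩, Or.inl hab⟩⟩
      · rw [crossK_spec hG R T hd ha hb hab]
        exact ⟨fun h => Or.inr (h.2.resolve_left hab),
          fun h => ⟨⟨ha, hb⟩, Or.inr (h.resolve_left hab)⟩⟩

end union

end SoundAux

/-- SOUND -/
theorem stSound : StSound := by
  intro adj G n k U hG hU s hs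
  induction hs with
  | init s h =>
    simp only [initS, List.mem_flatMap, List.mem_map, List.mem_range] at h
    obtain ⟨v, hv, a, ha, rfl⟩ := h
    exact ⟨_, SoundAux.leaf hU hv ha⟩
  | un s t _ h ih =>
    obtain ⟨l, hg, R⟩ := ih
    simp only [unS, List.mem_flatMap, SoundAux.mem_prs] at h
    obtain ⟨p, hp, ht⟩ := h
    cases hok : relabOK adj U p.1 p.2 s
    · rw [hok] at ht
      simp at ht
    · rw [hok] at ht
      simp only [cond_true, List.mem_singleton] at ht
      subst ht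
      exact ⟨_, SoundAux.relab hG hU hp.1 hp.2 hg R hok⟩
  | bin s t r _ _ h ih1 ih2 =>
    obtain ⟨ls, hgs, R⟩ := ih1
    obtain ⟨lt, hgt, T⟩ := ih2
    rw [binS] at h
    cases hok : unionOK adj U s t
    · rw [hok] at h
      simp at h
    · rw [hok] at h
      simp only [cond_true, List.mem_singleton] at h
      subst h
      exact ⟨_, SoundAux.union hG hU hgs hgt R T hok⟩

end Pool.Agent.Lib.MP_0b43f8_lc
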