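import Pool.Agent.Lib.MP_0b43f8_lc.Core

/-!
# Clique-width of unit interval graphs: vertices with the same closed neighbourhood
-/

namespace Pool.Agent.Lib.MP_0b43f8_lc

section
variable {V : Type} {G : SimpleGraph V} {ρ : V → V}

private theorem twin_fib (h : ∀ u w, (w = u ∨ G.Adj u w) ↔ (w = ρ u ∨ G.Adj (ρ u) w))
    {u w : V} (huw : u ≠ w) (e : ρ u = ρ w) : G.Adj u w := by
  have h1 := h u w
  have h2 := h w w
  rw [← e] at h2
  have h3 : w = u ∨ G.Adj u w := h1.2 (h2.1 (Or.inl rfl))
  rcases h3 with h3 | h3
  · exact absurd h3.symm huw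
  · exact h3

private theorem twin_adj (h : ∀ u w, (w = u ∨ G.Adj u w) ↔ (w = ρ u ∨ G.Adj (ρ u) w))
    {u w : V} (huw : ρ u ≠ ρ w) : G.Adj u w ↔ G.Adj (ρ u) (ρ w) := by
  have h1 := h u w
  have h2 := h w (ρ u)
  have hne : w ≠ u := fun e => huw (by rw [e])
  constructor
  · intro ha
    have h3 := h1.1 (Or.inr ha)
    have h4 : ρ u = w ∨ G.Adj w (ρ u) := by
      rcases h3 with h3 | h3
      · exact Or.inl h3.symm
      · exact Or.inr h3.symm
    rcases h2.1 h4 with h5 | h5
    · exact absurd h5 huw
    · exact h5.symm
  · intro ha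
    have h4 := h2.2 (Or.inr ha.symm)
    have h3 : w = ρ u ∨ G.Adj (ρ u) w := by
      rcases h4 with h4 | h4
      · exact Or.inl h4.symm
      · exact Or.inr h4.symm
    rcases h1.2 h3 with h5 | h5
    · exact absurd h5 hne
    · exact h5

private theorem twin_clique [DecidableEq V] {k : ℕ} (hk : 2 ≤ k) (S : Finset V)
    (hS : ∀ u ∈ S, ∀ w ∈ S, u ≠ w → G.Adj u w) (hne : S.Nonempty) (a : ℕ) (ha : a < k) :
    Good G k S (fun _ => a) := by
  induction hne using Finset.Nonempty.cons_induction with
  | singleton u => exact Good.single u _ ha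
  | cons u S hu hne ih =>
    have ih' := ih (fun x hx y hy hxy => hS x (Finset.mem_cons_of_mem hx) y
      (Finset.mem_cons_of_mem hy) hxy)
    obtain ⟨b, hb, hba⟩ : ∃ b, b < k ∧ b ≠ a := by
      by_cases h0 : a = 0
      · exact ⟨1, by omega, by omega⟩
      · exact ⟨0, by omega, fun e => h0 e.symm⟩
    have h1 : Good G k S (fun x => if x = u then b else a) := by
      refine Good.congr S _ _ ih' ?_
      intro v hv
      have : v ≠ u := fun e => hu (e ▸ hv)
      simp [this]
    have h2 : Good G k {u} (fun x => if x = u then b else a) :=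
      Good.single u _ (by simpa using hb)
    have h3 : Good G k (S ∪ {u}) (fun x => if x = u then b else a) := by
      refine Good.union S {u} _ h1 h2 ?_ ?_ ?_
      · exact Finset.disjoint_singleton_right.2 hu
      · intro x hx y hy hxy
        have hyu : y = u := Finset.mem_singleton.1 hy
        subst hyu
        have hxy' : x ≠ y := fun e => hu (e ▸ hx)
        simp only [hxy', if_false, if_true] at hxy
        exact absurd hxy.symm hba
      · intro x hx y hy _ x' hx' y' hy' e1 e2
        have hyu : y = u := Finset.mem_singleton.1 hy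
        subst hyu
        have hxy' : x ≠ y := fun e => hu (e ▸ hx)
        simp only [hxy', if_false] at e1
        simp only [if_true] at e2
        have hx'ne : x' ≠ y := by
          intro e
          rw [if_pos e] at e1
          exact hba e1
        have hy'e : y' = y := by
          by_contra hc
          rw [if_neg hc] at e2
          exact hba e2.symm
        subst hy'e
        have hx'S : x' ∈ S := by
          rcases Finset.mem_union.1 hx' with h | h
          · exact h
          · exact absurd (Finset.mem_singleton.1 h) hx'ne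
        exact hS x' (Finset.mem_cons_of_mem hx'S) y' (Finset.mem_cons_self _ _) hx'ne
    have h4 := Good.relab (S ∪ {u}) _ b a ha h3
    have hcons : Finset.cons u S hu = S ∪ {u} := by
      ext x
      simp
    rw [hcons]
    refine Good.congr _ _ _ h4 ?_
    intro v _
    by_cases hv : v = u
    · simp [hv]
    · simp [hv]

end

/-- TWIN -/
theorem stTwin : StTwin := by
  intro V _ G k ρ C hk hid hcl hC X l hG
  induction hG with
  | single v l h =>
    intro hX
    have hv := hX v (Finset.mem_singleton_self v)
    have hne : (C.filter fun u => ρ u ∈ ({v} : Finset V)).Nonempty :=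
      ⟨v, Finset.mem_filter.2 ⟨hv.1, by rw [hv.2]; exact Finset.mem_singleton_self v⟩⟩
    have h1 : Good G k (C.filter fun u => ρ u ∈ ({v} : Finset V)) (fun _ => l v) := by
      refine twin_clique hk _ ?_ hne _ h
      intro u hu w hw huw
      have hu' := Finset.mem_singleton.1 (Finset.mem_filter.1 hu).2
      have hw' := Finset.mem_singleton.1 (Finset.mem_filter.1 hw).2
      exact twin_fib hcl huw (hu'.trans hw'.symm)
    refine Good.congr _ _ _ h1 ?_
    intro u hu
    have hu' := Finset.mem_singleton.1 (Finset.mem_filter.1 hu).2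
    simp only [hu']
  | congr X l l' _ e ih =>
    intro hX
    refine Good.congr _ _ _ (ih hX) ?_
    intro u hu
    exact e _ (Finset.mem_filter.1 hu).2
  | relab X l i j hj _ ih =>
    intro hX
    exact Good.relab _ _ i j hj (ih hX)
  | union X Y l _ _ hd h1 h2 ihX ihY =>
    intro hXY
    have hfX := ihX (fun v hv => hXY v (Finset.mem_union_left _ hv))
    have hfY := ihY (fun v hv => hXY v (Finset.mem_union_right _ hv))
    have hfil : (C.filter fun u => ρ u ∈ X ∪ Y) =
        (C.filter fun u => ρ u ∈ X) ∪ (C.filter fun u => ρ u ∈ Y) := by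
      ext u
      simp only [Finset.mem_filter, Finset.mem_union]
      tauto
    rw [hfil]
    refine Good.union _ _ _ hfX hfY ?_ ?_ ?_
    · rw [Finset.disjoint_left]
      intro u hu hu'
      exact Finset.disjoint_left.1 hd (Finset.mem_filter.1 hu).2 (Finset.mem_filter.1 hu').2
    · intro u hu v hv e ha
      have hu' := (Finset.mem_filter.1 hu).2
      have hv' := (Finset.mem_filter.1 hv).2
      have hne : ρ u ≠ ρ v := fun e => Finset.disjoint_left.1 hd hu' (e ▸ hv')
      exact h1 _ hu' _ hv' e ((twin_adj hcl hne).1 ha)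
    · intro u hu v hv ha u' hu1 v' hv1 e1 e2
      have hu' := (Finset.mem_filter.1 hu).2
      have hv' := (Finset.mem_filter.1 hv).2
      have hne : ρ u ≠ ρ v := fun e => Finset.disjoint_left.1 hd hu' (e ▸ hv')
      rw [← hfil] at hu1 hv1
      have ha' := h2 _ hu' _ hv' ((twin_adj hcl hne).1 ha) _ (Finset.mem_filter.1 hu1).2 _
        (Finset.mem_filter.1 hv1).2 e1 e2
      exact (twin_adj hcl ha'.ne).2 ha'

end Pool.Agent.Lib.MP_0b43f8_lc
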