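import Pool.Agent.Lib.MP_0b43f8_lc.Core

set_option autoImplicit false

/-! UP1: the sweep. -/

namespace Pool.Agent.Lib.MP_0b43f8_lc

namespace Up1M

/-- the number of vertices before `t` which reach `t` -/
def cc (r : ℕ → ℕ) (t : ℕ) : ℕ := ((Finset.range t).filter fun i => t ≤ r i).card

/-- the left ends of the columns -/
def aa (r : ℕ → ℕ) (p : ℕ) : ℕ → ℕ
  | 0 => p
  | j + 1 => r (aa r p j) + 1

section cols

variable {r : ℕ → ℕ} {p q s n : ℕ}

theorem aa_succ (j : ℕ) : aa r p (j + 1) = r (aa r p j) + 1 := rfl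

theorem aa_lt (h : ∀ i, i ≤ r i) (j : ℕ) : aa r p j < aa r p (j + 1) := by
  rw [aa_succ]
  have := h (aa r p j)
  omega

theorem aa_strictMono (h : ∀ i, i ≤ r i) : StrictMono (aa r p) :=
  strictMono_nat_of_lt_succ (aa_lt h)

theorem le_aa (h : ∀ i, i ≤ r i) (j : ℕ) : p + j ≤ aa r p j := by
  induction j with
  | zero => exact le_rfl
  | succ j ih =>
    have := aa_lt (p := p) h j
    omega

theorem exists_col (h : ∀ i, i ≤ r i) {x : ℕ} (hx : p ≤ x) :
    ∃ j, aa r p j ≤ x ∧ x < aa r p (j + 1) := by
  have h1 : ∃ j, x < aa r p (j + 1) := ⟨x, by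
    have := le_aa (p := p) h (x + 1)
    omega⟩
  classical
  refine ⟨Nat.find h1, ?_, Nat.find_spec h1⟩
  rcases hj : Nat.find h1 with _ | j
  · exact hx
  · have := Nat.find_min h1 (m := j) (by omega)
    omega

/-- a column far to the right starts far to the right -/
theorem far (hmono : ∀ i j, i ≤ j → r i ≤ r j) (h : ∀ i, i ≤ r i)
    (hexp : ∀ t, p < t → t < q → s < cc r t) (j : ℕ) (hj : aa r p j < q) :
    p + j * (s + 2) ≤ aa r p j := by
  induction j with
  | zero => simp [aa]
  | succ j ih =>
    have h1 := aa_lt (p := p) h j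
    have h2 := ih (by omega)
    have h3 := hexp (aa r p (j + 1)) (by omega) hj
    have h4 : cc r (aa r p (j + 1)) ≤ (Finset.Ioo (aa r p j) (aa r p (j + 1))).card := by
      apply Finset.card_le_card
      intro i hi
      rw [Finset.mem_filter, Finset.mem_range] at hi
      rw [Finset.mem_Ioo]
      refine ⟨?_, hi.1⟩
      by_contra hle
      have h5 := hmono i (aa r p j) (by omega)
      have h6 := hi.2
      rw [aa_succ] at h6
      omega
    rw [Nat.card_Ioo] at h4
    have e : (j + 1) * (s + 2) = j * (s + 2) + (s + 2) := by ring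
    rw [e]
    omega

/-- the column function -/
theorem col_facts (hmono : ∀ i j, i ≤ j → r i ≤ r j) (h : ∀ i, i ≤ r i)
    (hexp : ∀ t, p < t → t < q → s < cc r t) (hq : q ≤ s * s) :
    ∃ col : ℕ → ℕ, (∀ x y, p ≤ x → x ≤ y → col x ≤ col y) ∧
      (∀ x y, p ≤ x → x ≤ y → col x = col y → y ≤ r x) ∧
      (∀ x y, p ≤ x → x ≤ y → y ≤ r x → col y ≤ col x + 1) ∧
      (∀ x, p ≤ x → x < q → col x < s) := by
  have h1 : ∀ x, ∃ j, p ≤ x → aa r p j ≤ x ∧ x < aa r p (j + 1) := by
    intro x
    by_cases hx : p ≤ x
    · obtain ⟨j, hj⟩ := exists_col (p := p) h hx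
      exact ⟨j, fun _ => hj⟩
    · exact ⟨0, fun h => absurd h hx⟩
  choose col hcol using h1
  have hm := aa_strictMono (p := p) h
  refine ⟨col, ?_, ?_, ?_, ?_⟩
  · intro x y hx hxy
    by_contra hlt
    have h2 := (hcol x hx).1
    have h3 := (hcol y (hx.trans hxy)).2
    have h4 := hm.monotone (show col y + 1 ≤ col x by omega)
    omega
  · intro x y hx hxy he
    have h2 := (hcol x hx).1
    have h3 := (hcol y (hx.trans hxy)).2
    rw [← he, aa_succ] at h3
    have h4 := hmono _ _ h2
    omega
  · intro x y hx hxy hy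
    by_contra hlt
    have h2 := (hcol x hx).2
    have h3 := (hcol y (hx.trans hxy)).1
    have h4 := hm.monotone (show col x + 2 ≤ col y by omega)
    have h5 := hmono x (aa r p (col x + 1)) (by omega)
    have h6 : aa r p (col x + 2) = r (aa r p (col x + 1)) + 1 := rfl
    omega
  · intro x hx hxq
    have h2 := (hcol x hx).1
    have h3 := far hmono h hexp (col x) (by omega)
    by_contra hlt
    have h4 : s * (s + 2) ≤ col x * (s + 2) := Nat.mul_le_mul_right _ (by omega)
    nlinarith

end cols

/-- the sets of the sweep -/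
structure Valid (r col : ℕ → ℕ) (p q : ℕ) (A : Finset ℕ) : Prop where
  sub : ∀ x ∈ A, x < q
  sup : ∀ x, x < p → x ∈ A
  v1 : ∀ x ∈ A, ∀ y, p ≤ y → y < x → col y = col x → y ∈ A
  v2 : ∀ x ∈ A, p ≤ x → ∀ y, y ∉ A → x < y → y < q → col x < col y → r x < y
  v3 : ∀ x ∈ A, ∀ y, y ∉ A → p ≤ y → y < x → col x = col y + 1 → x ≤ r y

section sweep

variable {r col : ℕ → ℕ} {p q s n : ℕ} {G : SimpleGraph ℕ} {A : Finset ℕ}

/-- the next vertex -/
theorem step (hmono : ∀ i j, i ≤ j → r i ≤ r j)
    (c1 : ∀ x y, p ≤ x → x ≤ y → col x ≤ col y)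
    (c3 : ∀ x y, p ≤ x → x ≤ y → y ≤ r x → col y ≤ col x + 1)
    (hA : Valid r col p q A) (hne : ∃ y, y < q ∧ y ∉ A) :
    ∃ v, v < q ∧ v ∉ A ∧ Valid r col p q (insert v A) := by
  classical
  set S := (Finset.range q).filter fun v => v ∉ A ∧ (∀ y, p ≤ y → y < v → col y = col v → y ∈ A) ∧
    (∀ y, y ∉ A → p ≤ y → y < v → col v = col y + 1 → v ≤ r y) with hS
  have hmem : ∀ v, v ∈ S ↔ v < q ∧ v ∉ A ∧ (∀ y, p ≤ y → y < v → col y = col v → y ∈ A) ∧
      (∀ y, y ∉ A → p ≤ y → y < v → col v = col y + 1 → v ≤ r y) := by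
    intro v
    rw [hS, Finset.mem_filter, Finset.mem_range]
  have h1 : S.Nonempty := by
    refine ⟨Nat.find hne, (hmem _).mpr ⟨(Nat.find_spec hne).1, (Nat.find_spec hne).2, ?_, ?_⟩⟩
    · intro y _ hy _
      by_contra hyA
      exact Nat.find_min hne hy ⟨hy.trans (Nat.find_spec hne).1, hyA⟩
    · intro y hyA _ hy _
      exact absurd ⟨hy.trans (Nat.find_spec hne).1, hyA⟩ (Nat.find_min hne hy)
  obtain ⟨v, hv, hmax⟩ := S.exists_max_image id h1
  obtain ⟨w1, w2, w3, w4⟩ := (hmem v).mp hv
  have hpv : p ≤ v := by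
    by_contra hlt
    exact w2 (hA.sup v (by omega))
  refine ⟨v, w1, w2, ?_, ?_, ?_, ?_, ?_⟩
  · intro x hx
    rcases Finset.mem_insert.mp hx with rfl | hx
    · exact w1
    · exact hA.sub x hx
  · intro x hx
    exact Finset.mem_insert_of_mem (hA.sup x hx)
  · intro x hx y hy hyx hc
    rcases Finset.mem_insert.mp hx with rfl | hx
    · exact Finset.mem_insert_of_mem (w3 y hy hyx hc)
    · exact Finset.mem_insert_of_mem (hA.v1 x hx y hy hyx hc)
  · intro x hx hpx y hy hxy hyq hc
    have hyA : y ∉ A := fun h => hy (Finset.mem_insert_of_mem h)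
    rcases Finset.mem_insert.mp hx with rfl | hx
    · by_contra hle
      have h2 := c3 x y hpx hxy.le (by omega)
      have h3 : ∃ z, z ∉ A ∧ x < z ∧ col z = col x + 1 := ⟨y, hyA, hxy, by omega⟩
      have hz := Nat.find_spec h3
      have hmin := fun {m : ℕ} => Nat.find_min h3 (m := m)
      have hzy : Nat.find h3 ≤ y := Nat.find_min' h3 ⟨hyA, hxy, by omega⟩
      generalize Nat.find h3 = z at hz hmin hzy
      have h4 : z ∈ S := by
        refine (hmem z).mpr ⟨by omega, hz.1, ?_, ?_⟩
        · intro u hu huz hcu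
          by_contra huA
          have h5 : x < u := by
            by_contra hle'
            have := c1 u x hu (by omega)
            omega
          exact hmin huz ⟨huA, h5, by omega⟩
        · intro u huA hu huz hcu
          have h5 : x ≤ u := by
            by_contra hlt
            exact huA (w3 u hu (by omega) (by omega))
          have h6 := hmono x u h5
          omega
      have h7 := hmax z h4
      simp only [id] at h7
      omega
    · exact hA.v2 x hx hpx y hyA hxy hyq hc
  · intro x hx y hy hpy hyx hc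
    have hyA : y ∉ A := fun h => hy (Finset.mem_insert_of_mem h)
    rcases Finset.mem_insert.mp hx with rfl | hx
    · exact w4 y hyA hpy hyx hc
    · exact hA.v3 x hx y hyA hpy hyx hc

/-- the number of classes -/
theorem cls_le (hr : ∀ i, i < n → r i < n)
    (hG : ∀ i j, i < j → (G.Adj i j ↔ j < n ∧ j ≤ r i)) (hqn : q ≤ n)
    (hp : cc r p ≤ s) (hq : cc r q ≤ s)
    (c1 : ∀ x y, p ≤ x → x ≤ y → col x ≤ col y)
    (c2 : ∀ x y, p ≤ x → x ≤ y → col x = col y → y ≤ r x)
    (c3 : ∀ x y, p ≤ x → x ≤ y → y ≤ r x → col y ≤ col x + 1)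
    (c4 : ∀ x, p ≤ x → x < q → col x < s)
    (hA : Valid r col p q A) : cls G A ≤ 3 * s + 2 := by
  classical
  unfold cls
  set F : ℕ → Set ℕ := fun u => {w : ℕ | w ∉ A ∧ G.Adj u w} with hF
  set S1 := (Finset.range p).filter fun i => p ≤ r i with hS1
  set S2 := (Finset.range q).filter fun i => q ≤ r i with hS2
  set T : ℕ → Set ℕ := fun j => {y : ℕ | y ∉ A ∧ p ≤ y ∧ y < q ∧ (col y = j ∨ col y + 1 = j)}
    with hT
  have hsub : A.image F ⊆ {∅} ∪ (S1.image F ∪ (S2.image F ∪ (Finset.range s).image T)) := by
    intro X hX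
    obtain ⟨u, hu, rfl⟩ := Finset.mem_image.mp hX
    have huq := hA.sub u hu
    have hun : r u < n := hr u (by omega)
    by_cases h1 : q ≤ r u
    · refine Finset.mem_union_right _ (Finset.mem_union_right _ (Finset.mem_union_left _ ?_))
      exact Finset.mem_image_of_mem F (Finset.mem_filter.mpr ⟨Finset.mem_range.mpr huq, h1⟩)
    by_cases h2 : u < p
    · by_cases h3 : p ≤ r u
      · refine Finset.mem_union_right _ (Finset.mem_union_left _ ?_)
        exact Finset.mem_image_of_mem F (Finset.mem_filter.mpr ⟨Finset.mem_range.mpr h2, h3⟩)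
      · refine Finset.mem_union_left _ (Finset.mem_singleton.mpr ?_)
        rw [hF]
        ext w
        simp only [Set.mem_ofPred_eq, Set.mem_empty_iff_false, iff_false, not_and]
        intro hw hadj
        have h4 : p ≤ w := by
          by_contra hlt
          exact hw (hA.sup w (by omega))
        have h5 := ((hG u w (by omega)).mp hadj).2
        omega
    · have hpu : p ≤ u := by omega
      refine Finset.mem_union_right _ (Finset.mem_union_right _ (Finset.mem_union_right _ ?_))
      refine Finset.mem_image.mpr ⟨col u, Finset.mem_range.mpr (c4 u hpu huq), ?_⟩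
      rw [hF, hT]
      ext w
      simp only [Set.mem_ofPred_eq]
      constructor
      · rintro ⟨a1, a2, a3, a4⟩
        refine ⟨a1, ?_⟩
        rcases lt_trichotomy u w with h3 | h3 | h3
        · rw [hG u w h3]
          have h4 : col u = col w := by
            have := c1 u w hpu h3.le
            omega
          have h5 := c2 u w hpu h3.le h4
          exact ⟨by omega, h5⟩
        · exact absurd (h3 ▸ hu) a1
        · refine (G.adj_comm u w).mpr ((hG w u h3).mpr ⟨by omega, ?_⟩)
          rcases a4 with a4 | a4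
          · exact c2 w u a2 h3.le a4
          · exact hA.v3 u hu w a1 a2 h3 a4.symm
      · rintro ⟨a1, a2⟩
        have hpw : p ≤ w := by
          by_contra hlt
          exact a1 (hA.sup w (by omega))
        refine ⟨a1, hpw, ?_⟩
        rcases lt_trichotomy u w with h3 | h3 | h3
        · have h4 := ((hG u w h3).mp a2).2
          have h5 := c1 u w hpu h3.le
          refine ⟨by omega, Or.inl ?_⟩
          by_contra hne
          have h6 := hA.v2 u hu hpu w a1 h3 (by omega) (by omega)
          omega
        · exact absurd (h3 ▸ hu) a1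
        · have h4 := ((hG w u h3).mp ((G.adj_comm u w).mp a2)).2
          have h5 := c1 w u hpw h3.le
          have h6 := c3 w u hpw h3.le h4
          exact ⟨by omega, by omega⟩
  have k1 : S1.card ≤ s := hp
  have k2 : S2.card ≤ s := hq
  have k3 : (S1.image F).card ≤ S1.card := Finset.card_image_le
  have k4 : (S2.image F).card ≤ S2.card := Finset.card_image_le
  have k5 : ((Finset.range s).image T).card ≤ s :=
    Finset.card_image_le.trans (by rw [Finset.card_range])
  have k6 := Finset.card_le_card hsub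
  have k7 := Finset.card_union_le {∅} (S1.image F ∪ (S2.image F ∪ (Finset.range s).image T))
  have k8 := Finset.card_union_le (S1.image F) (S2.image F ∪ (Finset.range s).image T)
  have k9 := Finset.card_union_le (S2.image F) ((Finset.range s).image T)
  rw [Finset.card_singleton] at k7
  have k10 : (A.image F).card ≤ 3 * s + 2 := by omega
  convert k10

/-- the sweep between two consecutive cheap positions -/
theorem sweep (hmono : ∀ i j, i ≤ j → r i ≤ r j) (hle : ∀ i, i ≤ r i) (hr : ∀ i, i < n → r i < n)
    (hG : ∀ i j, i < j → (G.Adj i j ↔ j < n ∧ j ≤ r i)) (hqn : q ≤ n) (hns : n ≤ s * s)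
    (hpq : p < q) (hp : cc r p ≤ s) (hq : cc r q ≤ s)
    (hexp : ∀ t, p < t → t < q → s < cc r t)
    (h0 : LinR G (3 * s + 2) (Finset.range p)) : LinR G (3 * s + 2) (Finset.range q) := by
  obtain ⟨col, c1, c2, c3, c4⟩ := col_facts hmono hle hexp (hqn.trans hns)
  have key : ∀ (m : ℕ) (A : Finset ℕ), (Finset.range q \ A).card = m → Valid r col p q A →
      LinR G (3 * s + 2) A → LinR G (3 * s + 2) (Finset.range q) := by
    intro m
    induction m with
    | zero =>
      intro A hm hA hL
      have h1 : Finset.range q ⊆ A := Finset.sdiff_eq_empty_iff_subset.mp (Finset.card_eq_zero.mp hm)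
      have h2 : A = Finset.range q :=
        Finset.Subset.antisymm (fun x hx => Finset.mem_range.mpr (hA.sub x hx)) h1
      rwa [h2] at hL
    | succ m ih =>
      intro A hm hA hL
      have h1 : (Finset.range q \ A).Nonempty := Finset.card_pos.mp (by omega)
      obtain ⟨y, hy⟩ := h1
      rw [Finset.mem_sdiff, Finset.mem_range] at hy
      obtain ⟨v, v1, v2, v3⟩ := step hmono c1 c3 hA ⟨y, hy⟩
      refine ih (insert v A) ?_ v3 (LinR.snoc A v v2 hL
        (cls_le hr hG hqn hp hq c1 c2 c3 c4 v3))
      have h2 : Finset.range q \ insert v A = (Finset.range q \ A).erase v := by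
        ext x
        simp only [Finset.mem_sdiff, Finset.mem_insert, Finset.mem_erase]
        tauto
      rw [h2, Finset.card_erase_of_mem (Finset.mem_sdiff.mpr ⟨Finset.mem_range.mpr v1, v2⟩), hm]
      rfl
  refine key _ (Finset.range p) rfl ⟨?_, ?_, ?_, ?_, ?_⟩ h0
  · intro x hx
    have := Finset.mem_range.mp hx
    omega
  · intro x hx
    exact Finset.mem_range.mpr hx
  · intro x hx y hy hyx _
    have := Finset.mem_range.mp hx
    omega
  · intro x hx hpx
    have := Finset.mem_range.mp hx
    omega
  · intro x hx y _ hpy hyx _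
    have := Finset.mem_range.mp hx
    omega

end sweep

end Up1M

open Up1M in
/-- UP1 : the sweep -/
theorem stUp1 : StUp1 := by
  intro n s r G hmono hle hr hG hns
  classical
  have key : ∀ q, q ≤ n → cc r q ≤ s → LinR G (3 * s + 2) (Finset.range q) := by
    intro q
    induction q using Nat.strong_induction_on with
    | _ q ih =>
      intro hqn hq
      rcases Nat.eq_zero_or_pos q with rfl | hpos
      · exact LinR.nil
      · set S := (Finset.range q).filter fun t => cc r t ≤ s with hS
        have h0 : 0 ∈ S := by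
          rw [hS, Finset.mem_filter, Finset.mem_range]
          exact ⟨hpos, by simp [cc]⟩
        obtain ⟨p, hp, hmax⟩ := S.exists_max_image id ⟨0, h0⟩
        rw [hS, Finset.mem_filter, Finset.mem_range] at hp
        refine sweep hmono hle hr hG hqn hns hp.1 hp.2 hq (fun t ht1 ht2 => ?_)
          (ih p hp.1 (by omega) hp.2)
        by_contra hlt
        have h1 : t ∈ S := by
          rw [hS, Finset.mem_filter, Finset.mem_range]
          exact ⟨ht2, by omega⟩
        have h2 := hmax t h1
        simp only [id] at h2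
        omega
  apply key n le_rfl
  have h1 : ((Finset.range n).filter fun i => n ≤ r i) = ∅ := by
    ext i
    simp only [Finset.mem_filter, Finset.mem_range, Finset.notMem_empty, iff_false, not_and, not_le]
    intro hi
    exact hr i hi
  rw [cc, h1, Finset.card_empty]
  exact Nat.zero_le _

end Pool.Agent.Lib.MP_0b43f8_lc
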