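import Pool.Agent.Lib.MP_0b43f8_lc.Core

set_option autoImplicit false

/-! UPPER: the upper bound for unit interval graphs. -/

namespace Pool.Agent.Lib.MP_0b43f8_lc

namespace UpperAux

/-- the intervals meet iff the end points are close -/
lemma icc_iff (a b : ℝ) : (Set.Icc a (a + 1) ∩ Set.Icc b (b + 1)).Nonempty ↔ |a - b| ≤ 1 := by
  rw [abs_le]
  constructor
  · rintro ⟨x, ⟨h1, h2⟩, ⟨h3, h4⟩⟩
    constructor <;> linarith
  · rintro ⟨h1, h2⟩
    refine ⟨max a b, ⟨le_max_left _ _, max_le (by linarith) (by linarith)⟩,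
      ⟨le_max_right _ _, max_le (by linarith) (by linarith)⟩⟩

open Classical in
/-- the last vertex adjacent to `i` -/
noncomputable def rr (n : ℕ) (g : ℕ → ℝ) (i : ℕ) : ℕ :=
  if i < n then Nat.findGreatest (fun j => g j ≤ g i + 1) (n - 1) else i

/-- the graph on the positions -/
def HH (n : ℕ) (g : ℕ → ℝ) : SimpleGraph ℕ where
  Adj i j := i ≠ j ∧ i < n ∧ j < n ∧ |g i - g j| ≤ 1
  symm := ⟨fun i j h => ⟨h.1.symm, h.2.2.1, h.2.1, by rw [abs_sub_comm]; exact h.2.2.2⟩⟩
  loopless := ⟨fun i h => h.1 rfl⟩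

lemma rr_mono {n : ℕ} {g : ℕ → ℝ} (hg : Monotone g) (i j : ℕ) (h : i ≤ j) :
    rr n g i ≤ rr n g j := by
  classical
  unfold rr
  by_cases hj : j < n
  · rw [if_pos (lt_of_le_of_lt h hj), if_pos hj]
    exact Nat.findGreatest_mono (fun a ha => le_trans ha (by linarith [hg h])) le_rfl
  · rw [if_neg hj]
    by_cases hi : i < n
    · rw [if_pos hi]
      exact (Nat.findGreatest_le (n - 1)).trans (by omega)
    · rw [if_neg hi]
      exact h

lemma le_rr {n : ℕ} {g : ℕ → ℝ} (i : ℕ) : i ≤ rr n g i := by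
  classical
  unfold rr
  by_cases hi : i < n
  · rw [if_pos hi]
    exact Nat.le_findGreatest (by omega) (by linarith)
  · rw [if_neg hi]

lemma rr_lt {n : ℕ} {g : ℕ → ℝ} (i : ℕ) (hi : i < n) : rr n g i < n := by
  classical
  unfold rr
  rw [if_pos hi]
  have := Nat.findGreatest_le (P := fun j => g j ≤ g i + 1) (n - 1)
  omega

lemma adj_iff {n : ℕ} {g : ℕ → ℝ} (hg : Monotone g) (i j : ℕ) (h : i < j) :
    (HH n g).Adj i j ↔ j < n ∧ j ≤ rr n g i := by
  classical
  constructor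
  · rintro ⟨_, hi, hj, h1⟩
    refine ⟨hj, ?_⟩
    unfold rr
    rw [if_pos hi]
    refine Nat.le_findGreatest (by omega) ?_
    have := (abs_le.mp h1).1
    linarith
  · rintro ⟨hj, h1⟩
    have hi : i < n := by omega
    unfold rr at h1
    rw [if_pos hi] at h1
    have h2 := Nat.findGreatest_spec (P := fun j => g j ≤ g i + 1) (m := i) (n := n - 1)
      (by omega) (by linarith)
    refine ⟨by omega, hi, hj, ?_⟩
    have h3 : g j ≤ g i + 1 := (hg h1).trans h2
    have h4 := hg h.le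
    rw [abs_le]
    constructor <;> linarith

end UpperAux

open UpperAux in
/-- UPPER -/
theorem stUpper (h1 : StEmb) (h2 : StLin) (h3 : StUp1) : StUpper := by
  intro n k s G hn hG hs hk
  obtain ⟨f, hf⟩ := hG
  set e := Tuple.sort f with he
  have hmono : Monotone (f ∘ e) := Tuple.monotone_sort f
  set g : ℕ → ℝ := fun i => f (e ⟨min i (n - 1), by omega⟩) with hg
  have hgm : Monotone g := by
    intro a b hab
    refine hmono ?_
    rw [Fin.mk_le_mk]
    exact min_le_min_right _ hab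
  have hgv : ∀ v : Fin n, g (e.symm v : ℕ) = f v := by
    intro v
    simp only [hg]
    have h4 : (⟨min (e.symm v : ℕ) (n - 1), by omega⟩ : Fin n) = e.symm v := by
      apply Fin.ext
      have := (e.symm v).2
      simp only []
      omega
    rw [h4, Equiv.apply_symm_apply]
  have h5 := h3 n s (rr n g) (HH n g) (rr_mono hgm) le_rr rr_lt (adj_iff hgm) hs
  obtain ⟨l, hl, _⟩ := h2 ℕ (HH n g) (3 * s + 2) k (Finset.range n) (by omega) h5
    ⟨0, Finset.mem_range.mpr hn⟩
  let E : Fin n ↪ ℕ := ⟨fun v => (e.symm v : ℕ), fun a b hab => e.symm.injective (Fin.ext hab)⟩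
  have hE : (Finset.univ : Finset (Fin n)).map E = Finset.range n := by
    ext x
    rw [Finset.mem_map, Finset.mem_range]
    constructor
    · rintro ⟨v, _, rfl⟩
      exact (e.symm v).2
    · intro hx
      exact ⟨e ⟨x, hx⟩, Finset.mem_univ _, by simp [E]⟩
  have hadj : ∀ u v, G.Adj u v ↔ (HH n g).Adj (E u) (E v) := by
    intro u v
    rw [hf, icc_iff]
    change _ ↔ ((e.symm u : ℕ) ≠ (e.symm v : ℕ) ∧ (e.symm u : ℕ) < n ∧ (e.symm v : ℕ) < n ∧
      |g (e.symm u : ℕ) - g (e.symm v : ℕ)| ≤ 1)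
    rw [hgv, hgv]
    constructor
    · rintro ⟨h6, h7⟩
      exact ⟨fun h => h6 (e.symm.injective (Fin.ext h)), (e.symm u).2, (e.symm v).2, h7⟩
    · rintro ⟨h6, _, _, h7⟩
      exact ⟨fun h => h6 (by rw [h]), h7⟩
  refine ⟨fun v => l (E v), (h1 (Fin n) ℕ E G (HH n g) k hadj Finset.univ l).mp ?_⟩
  rw [hE]
  exact hl

end Pool.Agent.Lib.MP_0b43f8_lc
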