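import Pool.Agent.Lib.MP_0b43f8_lc.NF1
import Pool.Agent.Lib.MP_0b43f8_lc.NF2
import Pool.Agent.Lib.MP_0b43f8_lc.Emb
import Pool.Agent.Lib.MP_0b43f8_lc.Lab
import Pool.Agent.Lib.MP_0b43f8_lc.Lin
import Pool.Agent.Lib.MP_0b43f8_lc.Up1
import Pool.Agent.Lib.MP_0b43f8_lc.Upper
import Pool.Agent.Lib.MP_0b43f8_lc.KeyR
import Pool.Agent.Lib.MP_0b43f8_lc.Key
import Pool.Agent.Lib.MP_0b43f8_lc.Ord
import Pool.Agent.Lib.MP_0b43f8_lc.Sets
import Pool.Agent.Lib.MP_0b43f8_lc.Count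
import Pool.Agent.Lib.MP_0b43f8_lc.Clos
import Pool.Agent.Lib.MP_0b43f8_lc.Sound
import Pool.Agent.Lib.MP_0b43f8_lc.Comp
import Pool.Agent.Lib.MP_0b43f8_lc.Cmp
import Pool.Agent.Lib.MP_0b43f8_lc.Piece
import Pool.Agent.Lib.MP_0b43f8_lc.Restr
import Pool.Agent.Lib.MP_0b43f8_lc.Twin
import Pool.Agent.Lib.MP_0b43f8_lc.CompU
import Pool.Agent.Lib.MP_0b43f8_lc.One
import Pool.Agent.Lib.MP_0b43f8_lc.Reduce
import Pool.Agent.Lib.MP_0b43f8_lc.Solve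

/-!
# Clique-width of unit interval graphs: the algorithm is correct
-/

namespace Pool.Agent.Lib.MP_0b43f8_lc

theorem solve_correct : StSolve :=
  stSolve stNF1 stNF2 stEmb stLab (stUpper stEmb stLin stUp1) stClos stSound stComp
    (stCount stOrd (stKey stKeyR) stSets) (stPiece stCmp)
    (stReduce stCmp stRestr stTwin stCompU) stOne

end Pool.Agent.Lib.MP_0b43f8_lc
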