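import Pool.Agent.Lib.MP_0b43f8_lc.Core

/-!
# COUNT: the number of states of a piece
-/

namespace Pool.Agent.Lib.MP_0b43f8_lc

namespace CountAux

theorem mono_of_step {m : ℕ} {x : ℕ → ℝ} (h : ∀ i, i + 1 < m → x i < x (i + 1)) :
    ∀ j i, i ≤ j → j < m → x i ≤ x j := by
  intro j
  induction j with
  | zero =>
    intro i hi _
    rw [Nat.le_zero.1 hi]
  | succ j ih =>
    intro i hi hj
    rcases Nat.lt_or_ge i (j + 1) with h1 | h1
    · exact (ih i (by omega) (by omega)).trans (h j hj).le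
    · rw [le_antisymm hi h1]

theorem mem_prs {a b : ℕ} {p : ℕ × ℕ} : p ∈ prs a b ↔ p.1 < a ∧ p.2 < b := by
  unfold prs
  simp only [List.mem_flatMap, List.mem_range, List.mem_map]
  constructor
  · rintro ⟨i, hi, j, hj, rfl⟩
    exact ⟨hi, hj⟩
  · rintro ⟨h1, h2⟩
    exact ⟨p.1, h1, p.2, h2, rfl⟩

/-- A state in the image of `mkS` is determined by membership. -/
theorem mkS_congr {n k : ℕ} {p q r} {p' : ℕ → Bool} {q' r' : ℕ × ℕ → Bool}
    (hp : ∀ x, x < n → (x ∈ (mkS n k p q r).1 ↔ p' x = true))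
    (hq : ∀ a v, a < k → v < n → ((a, v) ∈ (mkS n k p q r).2.1 ↔ q' (a, v) = true))
    (hr : ∀ a b, a < k → b < k → ((a, b) ∈ (mkS n k p q r).2.2 ↔ r' (a, b) = true)) :
    mkS n k p q r = mkS n k p' q' r' := by
  unfold mkS at *
  simp only at hp hq hr
  refine Prod.ext ?_ (Prod.ext ?_ ?_)
  · refine List.filter_congr fun x hx => ?_
    rw [List.mem_range] at hx
    rw [Bool.eq_iff_iff, ← hp x hx, List.mem_filter, List.mem_range]
    exact ⟨fun h => ⟨hx, h⟩, fun h => h.2⟩
  · refine List.filter_congr fun x hx => ?_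
    have hx' := mem_prs.1 hx
    rw [Bool.eq_iff_iff]
    have h1 := hq x.1 x.2 hx'.1 hx'.2
    rw [← h1, List.mem_filter]
    exact ⟨fun h => ⟨hx, h⟩, fun h => h.2⟩
  · refine List.filter_congr fun x hx => ?_
    have hx' := mem_prs.1 hx
    rw [Bool.eq_iff_iff]
    have h1 := hr x.1 x.2 hx'.1 hx'.2
    rw [← h1, List.mem_filter]
    exact ⟨fun h => ⟨hx, h⟩, fun h => h.2⟩

/-- The smallest and the largest position of a non-empty set of positions. -/
theorem exists_min_max {m : ℕ} (Z : ℕ → Prop) (hZ : ∃ i, i < m ∧ Z i) :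
    ∃ p : Fin m × Fin m, Z p.1 ∧ Z p.2 ∧ ∀ i, i < m → Z i → (p.1 : ℕ) ≤ i ∧ i ≤ (p.2 : ℕ) := by
  classical
  set T : Finset ℕ := (Finset.range m).filter Z with hT
  have hTn : T.Nonempty := by
    obtain ⟨i, hi, hz⟩ := hZ
    exact ⟨i, Finset.mem_filter.2 ⟨Finset.mem_range.2 hi, hz⟩⟩
  have h1 := Finset.mem_filter.1 (T.min'_mem hTn)
  have h2 := Finset.mem_filter.1 (T.max'_mem hTn)
  refine ⟨(⟨T.min' hTn, Finset.mem_range.1 h1.1⟩, ⟨T.max' hTn, Finset.mem_range.1 h2.1⟩), h1.2,
    h2.2, fun i hi hz => ?_⟩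
  have h3 : i ∈ T := Finset.mem_filter.2 ⟨Finset.mem_range.2 hi, hz⟩
  exact ⟨T.min'_le i h3, T.le_max' i h3⟩

theorem bound {n m k N : ℕ} (hm : m ≤ n) (hN : N ≤ 2 * (m + 1) ^ (12 * k + 2)) :
    N * ((n + 1) ^ k * (m * m + 1) ^ k) ≤ (n + 2) ^ (15 * k + 4) := by
  have h1 : N ≤ (n + 2) * (n + 2) ^ (12 * k + 2) :=
    hN.trans (Nat.mul_le_mul (by omega) (Nat.pow_le_pow_left (by omega) _))
  have h2 : (n + 1) ^ k ≤ (n + 2) ^ k := Nat.pow_le_pow_left (by omega) _
  have h3 : (m * m + 1) ^ k ≤ ((n + 2) ^ 2) ^ k := by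
    refine Nat.pow_le_pow_left ?_ _
    have : m * m ≤ n * n := Nat.mul_le_mul hm hm
    nlinarith
  calc N * ((n + 1) ^ k * (m * m + 1) ^ k)
      ≤ ((n + 2) * (n + 2) ^ (12 * k + 2)) * ((n + 2) ^ k * ((n + 2) ^ 2) ^ k) :=
        Nat.mul_le_mul h1 (Nat.mul_le_mul h2 h3)
    _ = (n + 2) ^ (15 * k + 3) := by
        rw [← pow_mul, ← pow_succ', ← pow_add, ← pow_add]
        congr 1
        ring
    _ ≤ (n + 2) ^ (15 * k + 4) := Nat.pow_le_pow_right (by omega) (by omega)

end CountAux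

open CountAux in
theorem stCount (h1 : StOrd) (h2 : StKey) (h3 : StSets) : StCount := by
  classical
  intro G f n k U _hk hUn hadj hP
  obtain ⟨e, he1, he2, he3, he4⟩ := h1 G f U hadj hP
  set m := U.length with hm
  have hmn : m ≤ n := by
    have h4 : U.toFinset ⊆ Finset.range n := by
      intro v hv
      exact Finset.mem_range.2 (hUn v (List.mem_toFinset.1 hv))
    have h5 := Finset.card_le_card h4
    rwa [List.toFinset_card_of_nodup hP.nodup, Finset.card_range] at h5
  have hmono := mono_of_step (m := m) (x := fun i => f (e i)) (fun i hi => (he3 i hi).1)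
  obtain ⟨L1, hL1, hL1'⟩ := h3 m (12 * k + 2)
  let P : Finset ℕ → ℕ → Bool := fun A x => decide (∃ i, i < m ∧ e i = x ∧ i ∈ A)
  let Q : (Fin k → Option (Fin n)) → ℕ × ℕ → Bool := fun g p =>
    decide (∃ (ha : p.1 < k) (hv : p.2 < n), g ⟨p.1, ha⟩ = some ⟨p.2, hv⟩)
  let R : (Fin k → Option (Fin m × Fin m)) → ℕ × ℕ → Bool := fun h p =>
    decide (p.1 = p.2 ∨ ∃ (ha : p.1 < k) (hb : p.2 < k), ∀ x y, h ⟨p.1, ha⟩ = some x →
      h ⟨p.2, hb⟩ = some y → G.Adj (e x.1) (e y.2) ∧ G.Adj (e y.1) (e x.2))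
  refine ⟨((L1 ×ˢ ((Finset.univ : Finset (Fin k → Option (Fin n))).toList ×ˢ
    (Finset.univ : Finset (Fin k → Option (Fin m × Fin m))).toList)).map
    fun z => mkS n k (P z.1) (Q z.2.1) (R z.2.2)), ?_, ?_⟩
  · rw [List.length_map, List.length_product, List.length_product, Finset.length_toList,
      Finset.length_toList, Finset.card_univ, Finset.card_univ, Fintype.card_fun,
      Fintype.card_fun, Fintype.card_option, Fintype.card_option, Fintype.card_prod,
      Fintype.card_fin, Fintype.card_fin, Fintype.card_fin]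
    exact bound hmn hL1
  · intro s l hs
    obtain ⟨p, q, r, hpqr⟩ := hs.canon
    -- the set
    obtain ⟨A, hA, hA'⟩ := hL1' (fun i => e i ∈ s.1) (fun I hI =>
      h2 m k (fun i => f (e i)) (fun i => e i ∈ s.1) (fun i => l (e i)) I
        (fun i hi => (he3 i hi).1) (fun i hi => (he3 i hi).2) he4 (fun i _ hX => hs.lab _ hX)
        (fun i hi j hj hXi hXj hl u hu hXu => by
          have h5 := hs.unif _ hXi _ hXj hl (e u) (he1 u hu) hXu
          have h6 : e i ≠ e u := fun h => hXu (h ▸ hXi)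
          have h7 : e j ≠ e u := fun h => hXu (h ▸ hXj)
          rw [hadj _ (he1 i hi) _ (he1 u hu), hadj _ (he1 j hj) _ (he1 u hu)] at h5
          constructor
          · intro h
            exact (h5.1 ⟨h6, h⟩).2
          · intro h
            exact (h5.2 ⟨h7, h⟩).2) hI)
    -- the representatives
    have hg : ∀ a : Fin k, ∃ o : Option (Fin n), ∀ v : Fin n,
        ((a : ℕ), (v : ℕ)) ∈ s.2.1 ↔ o = some v := by
      intro a
      by_cases h : ∃ v : Fin n, ((a : ℕ), (v : ℕ)) ∈ s.2.1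
      · obtain ⟨v, hv⟩ := h
        refine ⟨some v, fun w => ⟨fun hw => ?_, fun hw => ?_⟩⟩
        · have := hs.rep3 _ hv _ hw rfl
          rw [Prod.mk.injEq] at this
          rw [Fin.ext this.2]
        · rw [← Option.some_injective _ hw]
          exact hv
      · exact ⟨none, fun w => ⟨fun hw => absurd ⟨w, hw⟩ h, fun hw => by simp at hw⟩⟩
    choose g hg using hg
    -- the classes
    have hh : ∀ a : Fin k, ∃ o : Option (Fin m × Fin m),
        (o = none ∧ ∀ v ∈ s.1, l v ≠ a) ∨ ∃ z : Fin m × Fin m, o = some z ∧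
          (e z.1 ∈ s.1 ∧ l (e z.1) = a) ∧ (e z.2 ∈ s.1 ∧ l (e z.2) = a) ∧
          ∀ i, i < m → (e i ∈ s.1 ∧ l (e i) = a) → (z.1 : ℕ) ≤ i ∧ i ≤ (z.2 : ℕ) := by
      intro a
      by_cases h : ∃ i, i < m ∧ (e i ∈ s.1 ∧ l (e i) = a)
      · obtain ⟨z, hz⟩ := exists_min_max (fun i => e i ∈ s.1 ∧ l (e i) = a) h
        exact ⟨some z, Or.inr ⟨z, rfl, hz⟩⟩
      · refine ⟨none, Or.inl ⟨rfl, fun v hv hl => h ?_⟩⟩
        obtain ⟨i, hi, hiv⟩ := he2 v (hs.sub v hv)
        refine ⟨i, hi, ?_, ?_⟩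
        · rw [hiv]; exact hv
        · rw [hiv]; exact hl
    choose h hh using hh
    rw [List.mem_map]
    refine ⟨(A, (g, h)), ?_, ?_⟩
    · rw [List.mem_product, List.mem_product, Finset.mem_toList, Finset.mem_toList]
      exact ⟨hA, Finset.mem_univ _, Finset.mem_univ _⟩
    · rw [hpqr] at hs hg hh hA' ⊢
      symm
      refine mkS_congr ?_ ?_ ?_
      · intro x _
        simp only [P, decide_eq_true_eq]
        constructor
        · intro hx
          obtain ⟨i, hi, hix⟩ := he2 x (hs.sub x hx)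
          exact ⟨i, hi, hix, (hA' i hi).1 (by rw [hix]; exact hx)⟩
        · rintro ⟨i, hi, rfl, hiA⟩
          exact (hA' i hi).2 hiA
      · intro a v ha hv
        simp only [Q, decide_eq_true_eq]
        constructor
        · intro hav
          exact ⟨ha, hv, (hg ⟨a, ha⟩ ⟨v, hv⟩).1 hav⟩
        · rintro ⟨_, _, hgv⟩
          exact (hg ⟨a, ha⟩ ⟨v, hv⟩).2 hgv
      · intro a b ha hb
        rw [hs.com a ha b hb]
        simp only [R, decide_eq_true_eq]
        by_cases hab : a = b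
        · simp [hab]
        · have key : (∀ u ∈ (mkS n k p q r).1, ∀ v ∈ (mkS n k p q r).1, l u = a → l v = b →
              G.Adj u v) ↔ ∀ x y, h ⟨a, ha⟩ = some x → h ⟨b, hb⟩ = some y →
              G.Adj (e x.1) (e y.2) ∧ G.Adj (e y.1) (e x.2) := by
            constructor
            · intro H x y hx hy
              rcases hh ⟨a, ha⟩ with ⟨hn, _⟩ | ⟨z, hz, hz1, hz2, -⟩
              · rw [hn] at hx
                simp at hx
              rcases hh ⟨b, hb⟩ with ⟨hn, _⟩ | ⟨z', hz', hz1', hz2', -⟩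
              · rw [hn] at hy
                simp at hy
              rw [hz] at hx
              rw [hz'] at hy
              obtain rfl := Option.some_injective _ hx
              obtain rfl := Option.some_injective _ hy
              exact ⟨H _ hz1.1 _ hz2'.1 hz1.2 hz2'.2, (H _ hz2.1 _ hz1'.1 hz2.2 hz1'.2).symm⟩
            · intro H u hu v hv hlu hlv
              obtain ⟨i, hi, rfl⟩ := he2 u (hs.sub u hu)
              obtain ⟨j, hj, rfl⟩ := he2 v (hs.sub v hv)
              rcases hh ⟨a, ha⟩ with ⟨_, hn⟩ | ⟨z, hz, hz1, hz2, hz3⟩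
              · exact absurd hlu (hn _ hu)
              rcases hh ⟨b, hb⟩ with ⟨_, hn⟩ | ⟨z', hz', hz1', hz2', hz3'⟩
              · exact absurd hlv (hn _ hv)
              obtain ⟨H1, H2⟩ := H z z' hz hz'
              obtain ⟨i1, i2⟩ := hz3 i hi ⟨hu, hlu⟩
              obtain ⟨j1, j2⟩ := hz3' j hj ⟨hv, hlv⟩
              rw [hadj _ (he1 _ z.1.2) _ (he1 _ z'.2.2)] at H1
              rw [hadj _ (he1 _ z'.1.2) _ (he1 _ z.2.2)] at H2
              rw [hadj _ (he1 i hi) _ (he1 j hj)]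
              have m1 := hmono _ _ i1 hi
              have m2 := hmono _ _ i2 z.2.2
              have m3 := hmono _ _ j1 hj
              have m4 := hmono _ _ j2 z'.2.2
              have n1 := abs_le.1 H1.2
              have n2 := abs_le.1 H2.2
              refine ⟨fun heq => hab (hlu.symm.trans ((congrArg l heq).trans hlv)), ?_⟩
              rw [abs_le]
              constructor <;> linarith [n1.1, n1.2, n2.1, n2.2]
          rw [key]
          constructor
          · rintro (h4 | h4)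
            · exact absurd h4 hab
            · exact Or.inr ⟨ha, hb, h4⟩
          · rintro (h4 | ⟨_, _, h4⟩)
            · exact absurd h4 hab
            · exact Or.inr h4

end Pool.Agent.Lib.MP_0b43f8_lc
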