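import Mathlib

/-!
# Clique-width of unit interval graphs: the definitions of the statement
-/

namespace Pool.Agent.Lib.MP_0b43f8_lc

/-- Expressions over the four clique-width operations with `k` labels, for graphs whose
vertices are elements of `V`. -/
inductive Expr (V : Type) (k : ℕ) : Type
  /-- the graph with the single vertex `v`, labelled `i` -/
  | vert (i : Fin k) (v : V) : Expr V k
  /-- disjoint union -/
  | union (s t : Expr V k) : Expr V k
  /-- add all edges between a vertex labelled `i` and a vertex labelled `j`, `i ≠ j` -/
  | join (i j : Fin k) (h : i ≠ j) (t : Expr V k) : Expr V k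
  /-- change every label `i` into `j` -/
  | relab (i j : Fin k) (t : Expr V k) : Expr V k

namespace Expr

variable {V : Type} {k : ℕ}

/-- The vertices created by the expression. -/
def verts : Expr V k → List V
  | vert _ v => [v]
  | union s t => s.verts ++ t.verts
  | join _ _ _ t => t.verts
  | relab _ _ t => t.verts

/-- The vertex `w` has the label `a` in the labelled graph built by the expression. -/
def HasLabel : Expr V k → V → Fin k → Prop
  | vert i v, w, a => w = v ∧ a = i
  | union s t, w, a => s.HasLabel w a ∨ t.HasLabel w a
  | join _ _ _ t, w, a => t.HasLabel w a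
  | relab i j t, w, a => ∃ b, t.HasLabel w b ∧ a = if b = i then j else b

/-- `u` and `v` are adjacent in the labelled graph built by the expression. -/
def Joined : Expr V k → V → V → Prop
  | vert _ _, _, _ => False
  | union s t, u, v => s.Joined u v ∨ t.Joined u v
  | join i j _ t, u, v => t.Joined u v ∨ (t.HasLabel u i ∧ t.HasLabel v j) ∨
      (t.HasLabel u j ∧ t.HasLabel v i)
  | relab _ _ t, u, v => t.Joined u v

end Expr

/-- The clique-width of `G` is at most `k`: the graph `G` is built by an expression with `k`
labels that creates every vertex exactly once. -/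
def CliqueWidthLE {V : Type} (G : SimpleGraph V) (k : ℕ) : Prop :=
  ∃ t : Expr V k, t.verts.Nodup ∧ (∀ v, v ∈ t.verts) ∧ ∀ u v, G.Adj u v ↔ t.Joined u v

/-- `G` is a unit interval graph: the intersection graph of the intervals `[f v, f v + 1]`. -/
def IsUnitInterval {V : Type} (G : SimpleGraph V) : Prop :=
  ∃ f : V → ℝ, ∀ u v, G.Adj u v ↔
    u ≠ v ∧ (Set.Icc (f u) (f u + 1) ∩ Set.Icc (f v) (f v + 1)).Nonempty

/-- The word `1^m 0`. -/
def unary (m : ℕ) : List Bool := List.replicate m true ++ [false]

open Classical in
/-- The adjacency matrix of a graph with the vertices `0, …, n - 1`, row by row. -/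
noncomputable def matrix {n : ℕ} (G : SimpleGraph (Fin n)) : List Bool :=
  (List.finRange n).flatMap fun u => (List.finRange n).map fun v => decide (G.Adj u v)

/-- The word that codes a graph: `1^n 0` followed by the adjacency matrix. -/
noncomputable def input {n : ℕ} (G : SimpleGraph (Fin n)) : List Bool :=
  unary n ++ matrix G

/-- The word that codes a graph and a number `k`: `1^k 0 1^n 0` followed by the adjacency
matrix. -/
noncomputable def inputK {n : ℕ} (G : SimpleGraph (Fin n)) (k : ℕ) : List Bool :=
  unary k ++ input G

end Pool.Agent.Lib.MP_0b43f8_lc
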