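import Pool.Agent.Lib.MP_0b43f8_lc.Core

/-!
# From an expression to the normal form
-/

namespace Pool.Agent.Lib.MP_0b43f8_lc

namespace NF1

variable {V : Type} {k : ℕ}

theorem mem_of_label (t : Expr V k) {v : V} {a : Fin k} (h : t.HasLabel v a) : v ∈ t.verts := by
  induction t generalizing a with
  | vert i w => exact List.mem_singleton.2 h.1
  | union s t hs ht =>
    rcases h with h | h
    · exact List.mem_append_left _ (hs h)
    · exact List.mem_append_right _ (ht h)
  | join i j hij t ih => exact ih h
  | relab i j t ih =>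
    obtain ⟨b, hb, _⟩ := h
    exact ih hb

theorem exists_label (t : Expr V k) {v : V} (h : v ∈ t.verts) : ∃ a, t.HasLabel v a := by
  induction t with
  | vert i w => exact ⟨i, List.mem_singleton.1 h, rfl⟩
  | union s t hs ht =>
    rcases List.mem_append.1 h with h | h
    · obtain ⟨a, ha⟩ := hs h
      exact ⟨a, Or.inl ha⟩
    · obtain ⟨a, ha⟩ := ht h
      exact ⟨a, Or.inr ha⟩
  | join i j hij t ih => exact ih h
  | relab i j t ih =>
    obtain ⟨a, ha⟩ := ih h
    exact ⟨_, a, ha, rfl⟩

theorem label_unique (t : Expr V k) (hn : t.verts.Nodup) {v : V} {a b : Fin k}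
    (ha : t.HasLabel v a) (hb : t.HasLabel v b) : a = b := by
  induction t generalizing a b with
  | vert i w => exact ha.2.trans hb.2.symm
  | union s t hs ht =>
    obtain ⟨n1, n2, n3⟩ := List.nodup_append.1 hn
    rcases ha with ha | ha <;> rcases hb with hb | hb
    · exact hs n1 ha hb
    · exact absurd rfl (n3 v (mem_of_label s ha) v (mem_of_label t hb))
    · exact absurd rfl (n3 v (mem_of_label s hb) v (mem_of_label t ha))
    · exact ht n2 ha hb
  | join i j hij t ih => exact ih hn ha hb
  | relab i j t ih =>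
    obtain ⟨a', ha', rfl⟩ := ha
    obtain ⟨b', hb', rfl⟩ := hb
    rw [ih hn ha' hb']

theorem adj_mem (t : Expr V k) {u v : V} (h : t.Joined u v) : u ∈ t.verts ∧ v ∈ t.verts := by
  induction t with
  | vert i w => exact h.elim
  | union s t hs ht =>
    rcases h with h | h
    · exact ⟨List.mem_append_left _ (hs h).1, List.mem_append_left _ (hs h).2⟩
    · exact ⟨List.mem_append_right _ (ht h).1, List.mem_append_right _ (ht h).2⟩
  | join i j hij t ih =>
    rcases h with h | h | h
    · exact ih h
    · exact ⟨mem_of_label t h.1, mem_of_label t h.2⟩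
    · exact ⟨mem_of_label t h.1, mem_of_label t h.2⟩
  | relab i j t ih => exact ih h

theorem main [DecidableEq V] (G : SimpleGraph V) (t : Expr V k) (hn : t.verts.Nodup)
    (ha : ∀ u v, t.Joined u v → G.Adj u v)
    (hb : ∀ u v i, t.HasLabel u i → t.HasLabel v i → G.Adj u v → t.Joined u v)
    (hc : ∀ u v a b, t.HasLabel u a → t.HasLabel v b → G.Adj u v → ¬ t.Joined u v →
      ∀ u' v', t.HasLabel u' a → t.HasLabel v' b → G.Adj u' v') (l : V → ℕ)
    (hl : ∀ v ∈ t.verts, ∃ a : Fin k, t.HasLabel v a ∧ l v = a.val) :
    Good G k t.verts.toFinset l := by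
  induction t generalizing l with
  | vert i v =>
    obtain ⟨a, h1, h2⟩ := hl v (List.mem_singleton.2 rfl)
    have h3 : (Expr.vert i v : Expr V k).verts.toFinset = {v} := rfl
    rw [h3]
    exact Good.single v l (by rw [h2]; exact a.2)
  | union s t hs ht =>
    obtain ⟨n1, n2, n3⟩ := List.nodup_append.1 hn
    have hd : ∀ v, v ∈ s.verts → v ∈ t.verts → False := fun v h1 h2 => n3 v h1 v h2 rfl
    have hX : Good G k s.verts.toFinset l := by
      refine hs n1 (fun u v h => ha u v (Or.inl h)) ?_ ?_ l ?_
      · intro u v i hu hv hG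
        rcases hb u v i (Or.inl hu) (Or.inl hv) hG with h | h
        · exact h
        · exact (hd u (mem_of_label s hu) (adj_mem t h).1).elim
      · intro u v a b hu hv hG hn' u' v' hu' hv'
        refine hc u v a b (Or.inl hu) (Or.inl hv) hG ?_ u' v' (Or.inl hu') (Or.inl hv')
        rintro (h | h)
        · exact hn' h
        · exact hd u (mem_of_label s hu) (adj_mem t h).1
      · intro v hv
        obtain ⟨a, h1, h2⟩ := hl v (List.mem_append_left _ hv)
        rcases h1 with h1 | h1
        · exact ⟨a, h1, h2⟩
        · exact (hd v hv (mem_of_label t h1)).elim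
    have hY : Good G k t.verts.toFinset l := by
      refine ht n2 (fun u v h => ha u v (Or.inr h)) ?_ ?_ l ?_
      · intro u v i hu hv hG
        rcases hb u v i (Or.inr hu) (Or.inr hv) hG with h | h
        · exact (hd u (adj_mem s h).1 (mem_of_label t hu)).elim
        · exact h
      · intro u v a b hu hv hG hn' u' v' hu' hv'
        refine hc u v a b (Or.inr hu) (Or.inr hv) hG ?_ u' v' (Or.inr hu') (Or.inr hv')
        rintro (h | h)
        · exact hd u (adj_mem s h).1 (mem_of_label t hu)
        · exact hn' h
      · intro v hv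
        obtain ⟨a, h1, h2⟩ := hl v (List.mem_append_right _ hv)
        rcases h1 with h1 | h1
        · exact (hd v (mem_of_label s h1) hv).elim
        · exact ⟨a, h1, h2⟩
    have hU : (Expr.union s t).verts.toFinset = s.verts.toFinset ∪ t.verts.toFinset :=
      List.toFinset_append
    have hnot : ∀ u ∈ s.verts, ∀ v ∈ t.verts, ¬ (Expr.union s t).Joined u v := by
      intro u hu v hv h
      rcases h with h | h
      · exact hd v (adj_mem s h).2 hv
      · exact hd u hu (adj_mem t h).1
    rw [hU]
    refine Good.union _ _ l hX hY ?_ ?_ ?_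
    · rw [Finset.disjoint_left]
      intro v h1 h2
      exact hd v (List.mem_toFinset.1 h1) (List.mem_toFinset.1 h2)
    · intro u hu v hv e hG
      rw [List.mem_toFinset] at hu hv
      obtain ⟨a, h1, h2⟩ := hl u (List.mem_append_left _ hu)
      obtain ⟨b, h3, h4⟩ := hl v (List.mem_append_right _ hv)
      have hab : a = b := Fin.ext (by rw [← h2, ← h4, e])
      rw [← hab] at h3
      exact hnot u hu v hv (hb u v a h1 h3 hG)
    · intro u hu v hv hG u' hu' v' hv' e1 e2
      rw [List.mem_toFinset] at hu hv
      rw [← List.toFinset_append, List.mem_toFinset] at hu' hv'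
      obtain ⟨a, h1, h2⟩ := hl u (List.mem_append_left _ hu)
      obtain ⟨b, h3, h4⟩ := hl v (List.mem_append_right _ hv)
      obtain ⟨a', h5, h6⟩ := hl u' hu'
      obtain ⟨b', h7, h8⟩ := hl v' hv'
      have ea : a' = a := Fin.ext (by rw [← h6, ← h2, e1])
      have eb : b' = b := Fin.ext (by rw [← h8, ← h4, e2])
      rw [ea] at h5
      rw [eb] at h7
      exact hc u v a b h1 h3 hG (hnot u hu v hv) u' v' h5 h7
  | join i j hij t ih =>
    refine ih hn (fun u v h => ha u v (Or.inl h)) ?_ ?_ l hl
    · intro u v c hu hv hG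
      rcases hb u v c hu hv hG with h | h | h
      · exact h
      · exact absurd ((label_unique t hn h.1 hu).trans (label_unique t hn hv h.2)) hij
      · exact absurd ((label_unique t hn h.2 hv).trans (label_unique t hn hu h.1)) hij
    · intro u v a b hu hv hG hn' u' v' hu' hv'
      by_cases hJ : (Expr.join i j hij t).Joined u v
      · apply ha
        rcases hJ with h | h | h
        · exact absurd h hn'
        · have e1 := label_unique t hn h.1 hu
          have e2 := label_unique t hn h.2 hv
          rw [← e1] at hu'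
          rw [← e2] at hv'
          exact Or.inr (Or.inl ⟨hu', hv'⟩)
        · have e1 := label_unique t hn h.1 hu
          have e2 := label_unique t hn h.2 hv
          rw [← e1] at hu'
          rw [← e2] at hv'
          exact Or.inr (Or.inr ⟨hu', hv'⟩)
      · exact hc u v a b hu hv hG hJ u' v' hu' hv'
  | relab i j t ih =>
    classical
    have hlab : ∀ v ∈ t.verts, ∃ a : Fin k, t.HasLabel v a := fun v hv => exists_label t hv
    let l' : V → ℕ := fun v => if h : ∃ a : Fin k, t.HasLabel v a then (h.choose).val else 0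
    have hl' : ∀ v (a : Fin k), t.HasLabel v a → l' v = a.val := by
      intro v a h
      have h1 : ∃ a : Fin k, t.HasLabel v a := ⟨a, h⟩
      have h2 : l' v = (h1.choose).val := dif_pos h1
      rw [h2, label_unique t hn h1.choose_spec h]
    have hG : Good G k t.verts.toFinset l' := by
      refine ih hn ha ?_ ?_ l' ?_
      · intro u v c hu hv hG
        exact hb u v _ ⟨c, hu, rfl⟩ ⟨c, hv, rfl⟩ hG
      · intro u v a b hu hv hG hn' u' v' hu' hv'
        exact hc u v _ _ ⟨a, hu, rfl⟩ ⟨b, hv, rfl⟩ hG hn' u' v' ⟨a, hu', rfl⟩ ⟨b, hv', rfl⟩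
      · intro v hv
        obtain ⟨a, h⟩ := hlab v hv
        exact ⟨a, h, hl' v a h⟩
    have hR := Good.relab _ l' i.val j.val j.2 hG
    refine Good.congr _ _ l hR ?_
    intro v hv
    change v ∈ t.verts.toFinset at hv
    rw [List.mem_toFinset] at hv
    obtain ⟨a, ⟨b, h1, h2⟩, h3⟩ := hl v hv
    rw [h3, h2, hl' v b h1]
    by_cases hbi : b = i
    · rw [if_pos hbi, if_pos (by rw [hbi])]
    · rw [if_neg hbi, if_neg (fun h => hbi (Fin.ext h))]

end NF1

theorem stNF1 : StNF1 := by
  intro V _ _ G k ⟨t, hn, hv, hG⟩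
  classical
  have hlab : ∀ v, ∃ a : Fin k, t.HasLabel v a := fun v => NF1.exists_label t (hv v)
  choose f hf using hlab
  refine ⟨fun v => (f v).val, ?_⟩
  have h := NF1.main G t hn (fun u v h => (hG u v).2 h) (fun u v _ _ _ h => (hG u v).1 h)
    (fun u v a b _ _ h1 h2 => absurd ((hG u v).1 h1) h2) (fun v => (f v).val)
    (fun v _ => ⟨f v, hf v, rfl⟩)
  have hU : t.verts.toFinset = Finset.univ := by
    ext v
    simp only [List.mem_toFinset, Finset.mem_univ, iff_true]
    exact hv v
  rw [hU] at h
  exact h

end Pool.Agent.Lib.MP_0b43f8_lc
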