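import Pool.Agent.Lib.MP_0b43f8_lc.Core

/-!
# Clique-width of unit interval graphs: correctness of the algorithm
-/

namespace Pool.Agent.Lib.MP_0b43f8_lc

/-- The graph on `ℕ` of a graph on `0, …, n - 1`. -/
def natG {n : ℕ} (G : SimpleGraph (Fin n)) : SimpleGraph ℕ := G.map Fin.valEmbedding

theorem natG_adj {n : ℕ} (G : SimpleGraph (Fin n)) (u v : ℕ) :
    (natG G).Adj u v ↔ ∃ (hu : u < n) (hv : v < n), G.Adj ⟨u, hu⟩ ⟨v, hv⟩ := by
  unfold natG
  rw [SimpleGraph.map_adj]
  constructor
  · rintro ⟨a, b, h, rfl, rfl⟩
    exact ⟨a.2, b.2, h⟩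
  · rintro ⟨hu, hv, h⟩
    exact ⟨⟨u, hu⟩, ⟨v, hv⟩, h, rfl, rfl⟩

theorem getD_flatMap_block {α : Type} (d : α) (c : ℕ) : ∀ (L : List (List α)),
    (∀ l ∈ L, l.length = c) → ∀ u v, v < c → (L.flatten).getD (u * c + v) d =
      ((L.getD u []).getD v d) := by
  intro L
  induction L with
  | nil => intro _ u v _; simp
  | cons l L ih =>
    intro hL u v hv
    have hl : l.length = c := hL l List.mem_cons_self
    rw [List.flatten_cons]
    cases u with
    | zero =>
      rw [Nat.zero_mul, Nat.zero_add, List.getD_append _ _ _ _ (by omega)]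
      rfl
    | succ u =>
      rw [List.getD_append_right _ _ _ _ (by rw [hl]; nlinarith)]
      have e : (u + 1) * c + v - l.length = u * c + v := by
        rw [hl]
        have : (u + 1) * c = u * c + c := by ring
        omega
      rw [e, ih (fun l hl => hL l (List.mem_cons_of_mem _ hl)) u v hv]
      rfl

theorem matrix_getD {n : ℕ} (G : SimpleGraph (Fin n)) (u v : ℕ) (hu : u < n) (hv : v < n) :
    (matrix G).getD (u * n + v) false = true ↔ G.Adj ⟨u, hu⟩ ⟨v, hv⟩ := by
  classical
  unfold matrix
  rw [List.flatMap_def, getD_flatMap_block false n _ (by simp) u v hv]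
  have e : ((List.finRange n).map fun u => (List.finRange n).map fun v =>
      decide (G.Adj u v)).getD u [] = (List.finRange n).map fun v => decide (G.Adj ⟨u, hu⟩ v) := by
    rw [List.getD_eq_getElem _ _ (by simpa using hu), List.getElem_map]
    simp
  rw [e, List.getD_eq_getElem _ _ (by simpa using hv), List.getElem_map]
  simp

theorem adjM_iff {n : ℕ} (G : SimpleGraph (Fin n)) (u v : ℕ) :
    (natG G).Adj u v ↔ adjM n (matrix G) u v = true := by
  rw [natG_adj]
  unfold adjM
  rw [Bool.and_eq_true, Bool.and_eq_true, decide_eq_true_eq, decide_eq_true_eq]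
  constructor
  · rintro ⟨hu, hv, h⟩
    exact ⟨hu, hv, (matrix_getD G u v hu hv).2 h⟩
  · rintro ⟨hu, hv, h⟩
    exact ⟨hu, hv, (matrix_getD G u v hu hv).1 h⟩

theorem map_univ_valEmbedding (n : ℕ) :
    (Finset.univ : Finset (Fin n)).map Fin.valEmbedding = Finset.range n := by
  ext x
  simp only [Finset.mem_map, Finset.mem_univ, true_and, Finset.mem_range]
  constructor
  · rintro ⟨a, rfl⟩
    exact a.2
  · intro h
    exact ⟨⟨x, h⟩, rfl⟩

/-- Clique-width in terms of the normal form on `ℕ`. -/
theorem cwLE_iff (hNF1 : StNF1) (hNF2 : StNF2) (hEmb : StEmb) {n k : ℕ}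
    (G : SimpleGraph (Fin n)) :
    CliqueWidthLE G k ↔ ∃ l, Good (natG G) k (Finset.range n) l := by
  have h1 : ∀ u v, G.Adj u v ↔ (natG G).Adj (Fin.valEmbedding u) (Fin.valEmbedding v) := by
    intro u v
    rw [natG_adj]
    constructor
    · intro h
      exact ⟨u.2, v.2, h⟩
    · rintro ⟨_, _, h⟩
      exact h
  have h2 := fun l => hEmb (Fin n) ℕ Fin.valEmbedding G (natG G) k h1 Finset.univ l
  rw [map_univ_valEmbedding] at h2
  constructor
  · intro h
    obtain ⟨l, hl⟩ := hNF1 (Fin n) G k h
    classical
    refine ⟨fun x => if h : x < n then l ⟨x, h⟩ else 0, (h2 _).2 ?_⟩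
    refine Good.congr _ _ _ hl fun v _ => ?_
    simp
  · rintro ⟨l, hl⟩
    exact hNF2 (Fin n) G k ⟨_, (h2 l).1 hl⟩

theorem inter_nonempty_iff (a b : ℝ) :
    (Set.Icc a (a + 1) ∩ Set.Icc b (b + 1)).Nonempty ↔ |a - b| ≤ 1 := by
  rw [abs_le]
  constructor
  · rintro ⟨x, ⟨h1, h2⟩, ⟨h3, h4⟩⟩
    constructor <;> linarith
  · rintro ⟨h1, h2⟩
    rcases le_total a b with h | h
    · exact ⟨b, ⟨h, by linarith⟩, ⟨le_rfl, by linarith⟩⟩
    · exact ⟨a, ⟨le_rfl, by linarith⟩, ⟨h, by linarith⟩⟩

theorem filter_range_eq {n : ℕ} {p q : ℕ → Bool}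
    (h : ((List.range n).filter p).toFinset = ((List.range n).filter q).toFinset) :
    (List.range n).filter p = (List.range n).filter q := by
  refine List.filter_congr fun x hx => ?_
  have h1 := congrArg (fun s : Finset ℕ => x ∈ s) h
  simp only [List.mem_toFinset, List.mem_filter, eq_iff_iff] at h1
  rw [Bool.eq_iff_iff]
  exact ⟨fun a => (h1.1 ⟨hx, a⟩).2, fun a => (h1.2 ⟨hx, a⟩).2⟩

/-- SOLVE -/
theorem stSolve (hNF1 : StNF1) (hNF2 : StNF2) (hEmb : StEmb) (hLab : StLab) (hUpper : StUpper)
    (hClos : StClos) (hSound : StSound) (hComp : StComp) (hCount : StCount) (hPiece : StPiece)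
    (hReduce : StReduce) (hOne : StOne) : StSolve := by
  intro n k N G hn hG hN
  have hadj := adjM_iff G
  have hlt : ∀ u v, (natG G).Adj u v → u < n ∧ v < n := fun u v h => by
    obtain ⟨hu, hv, _⟩ := (natG_adj G u v).1 h
    exact ⟨hu, hv⟩
  rw [cwLE_iff hNF1 hNF2 hEmb]
  unfold solve
  cases hb : bigK n k with
  | true =>
    simp only [cond_true, true_iff]
    unfold bigK at hb
    rw [List.any_eq_true] at hb
    obtain ⟨s, -, hs⟩ := hb
    rw [Bool.and_eq_true, decide_eq_true_eq, decide_eq_true_eq] at hs
    rw [← cwLE_iff hNF1 hNF2 hEmb]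
    exact hNF2 _ _ _ (hUpper n k s G hn hG hs.1 hs.2)
  | false =>
    rw [hb] at hN
    have hN' : (n + 2) ^ (15 * k + 4) ≤ N := by
      rcases hN with h | h
      · exact absurd h (by simp)
      · exact h
    simp only [cond_false]
    by_cases hk0 : k = 0
    · subst hk0
      simp only [decide_true, cond_true, Bool.false_eq_true, false_iff]
      rintro ⟨l, hl⟩
      obtain ⟨h1, h2⟩ := hLab _ _ _ _ _ hl
      obtain ⟨v, hv⟩ := h1
      exact absurd (h2 v hv) (by omega)
    · simp only [hk0, decide_false, cond_false]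
      by_cases hk1 : k = 1
      · subst hk1
        simp only [decide_true, cond_true]
        rw [hOne ℕ (natG G) (Finset.range n) ⟨0, by rw [Finset.mem_range]; omega⟩]
        simp only [List.all_eq_true, List.mem_range, Bool.not_eq_true', Finset.mem_range]
        constructor
        · intro h u hu v hv h1
          rw [hadj, h u hu v hv] at h1
          exact absurd h1 (by simp)
        · intro h u hu v hv
          have := h u hu v hv
          rw [hadj] at this
          simpa using this
      · simp only [hk1, decide_false, cond_false]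
        rw [hReduce (adjM n (matrix G)) (natG G) n k hadj hlt (by omega) hn]
        rw [List.all_eq_true]
        obtain ⟨f, hf⟩ := hG
        have key : ∀ v, v < n → (testU n (matrix G) k N (piece (adjM n (matrix G)) n v) = true ↔
            ∃ l, Good (natG G) k (piece (adjM n (matrix G)) n v).toFinset l) := by
          intro v hv
          set U := piece (adjM n (matrix G)) n v with hU
          have hUn : ∀ u ∈ U, u < n := by
            intro u hu
            rw [hU] at hu
            unfold piece at hu
            rw [List.mem_filter, List.mem_range] at hu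
            exact hu.1
          let f' : ℕ → ℝ := fun x => if h : x < n then f ⟨x, h⟩ else 0
          have hf' : ∀ u ∈ U, ∀ w ∈ U, ((natG G).Adj u w ↔ u ≠ w ∧ |f' u - f' w| ≤ 1) := by
            intro u hu w hw
            have h1 := hUn u hu
            have h2 := hUn w hw
            have e1 : f' u = f ⟨u, h1⟩ := dif_pos h1
            have e2 : f' w = f ⟨w, h2⟩ := dif_pos h2
            rw [natG_adj, e1, e2, ← inter_nonempty_iff]
            constructor
            · rintro ⟨_, _, h⟩
              have h3 := (hf _ _).1 h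
              exact ⟨fun e => h3.1 (Fin.ext e), h3.2⟩
            · rintro ⟨h3, h4⟩
              exact ⟨h1, h2, (hf _ _).2 ⟨fun e => h3 (Fin.ext_iff.1 e), h4⟩⟩
          obtain ⟨L, hL1, hL2⟩ := hCount (natG G) f' n k U (by omega) hUn hf'
            (hPiece _ _ n hadj hlt v hv)
          have hS := hSound (adjM n (matrix G)) (natG G) n k U hadj hUn
          have hC := hClos DS (initS n k U) (unS (adjM n (matrix G)) n k U)
            (binS (adjM n (matrix G)) n k U) N L (fun s hs => by
              obtain ⟨l, -, hl⟩ := hS s hs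
              exact hL2 s l hl) (hL1.trans hN')
          unfold testU
          rw [List.any_eq_true]
          constructor
          · rintro ⟨s, hs, hsU⟩
            rw [decide_eq_true_eq] at hsU
            obtain ⟨l, hl, -⟩ := hS s ((hC s).1 hs)
            rw [hsU] at hl
            exact ⟨l, hl⟩
          · rintro ⟨l, hl⟩
            obtain ⟨s, hs1, hs2, hs3⟩ := hComp (adjM n (matrix G)) (natG G) n k U hadj hUn
              U.toFinset l hl (fun v hv => List.mem_toFinset.1 hv)
              (fun u _ w _ _ x hx hx' => absurd (List.mem_toFinset.2 hx) hx')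
            refine ⟨s, (hC s).2 hs1, ?_⟩
            rw [decide_eq_true_eq]
            obtain ⟨p, q, r, hpqr⟩ := hs3.canon
            have e1 : s.1 = (List.range n).filter p := by rw [hpqr]; rfl
            rw [e1]
            rw [e1] at hs2
            rw [hU] at hs2 ⊢
            unfold piece at hs2 ⊢
            exact filter_range_eq hs2
        constructor
        · intro h v hv
          exact (key v hv).1 (h v (List.mem_range.2 hv))
        · intro h v hv
          exact (key v (List.mem_range.1 hv)).2 (h v (List.mem_range.1 hv))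

end Pool.Agent.Lib.MP_0b43f8_lc
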