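import Pool.Agent.Lib.MP_0b43f8_lc.StmtsP

/-!
# PTA: the adjacency of the coded graph in polynomial time
-/

namespace Pool.Agent.Lib.MP_0b43f8_lc

open Pool.Agent.Lib.PT

theorem stPTA : StPTA := by
  unfold StPTA adjM
  fun_prop

end Pool.Agent.Lib.MP_0b43f8_lc
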