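import Pool.Agent.Lib.MP_0b43f8_lc.StmtsP
import Pool.Agent.Lib.PTime.Time

/-!
# Clique-width of unit interval graphs: the machines
-/

namespace Pool.Agent.Lib.MP_0b43f8_lc

open Pool.Agent.Lib.PT Turing

theorem tr_bool_injective : Function.Injective (tr : Bool → T) := fun _ _ h => EncInj.inj h

theorem idxOf_unary (m : ℕ) (M : List Bool) : (unary m ++ M).idxOf false = m := by
  unfold unary
  induction m with
  | zero => simp
  | succ m ih =>
    rw [List.replicate_succ, List.cons_append, List.cons_append, List.idxOf_cons_ne _ (by simp), ih]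

theorem drop_unary (m : ℕ) (M : List Bool) : (unary m ++ M).drop (m + 1) = M := by
  have : (unary m).length = m + 1 := by simp [unary]
  rw [← this, List.drop_left]

theorem stTM1 (h1 : StSolve) (h2 : StPTK) (h3 : StParse) : StTM1 := by
  intro k
  refine ⟨algK k, ?_, fun n G hn hG => ?_⟩
  · exact ptime_tm' tr_bool_injective (F := fun w => [algK k w])
      (PTime.cons (h2 k) (PTime.const [])) (ea := id) (eb := fun b => [b]) fun a => rfl
  · rw [h3 n k G]
    exact h1 n k _ G hn hG (Or.inr le_rfl)

/-! ### The uniform algorithm -/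

/-- The rest of the word behind the first zero. -/
def rest (w : List Bool) : List Bool := w.drop (w.idxOf false + 1)

/-- The data of the input word. -/
def pars (w : List Bool) : (ℕ × List Bool) × ℕ :=
  (((rest w).idxOf false, rest (rest w)), w.idxOf false)

/-- The exponent. -/
def expo (w : List Bool) : ℕ :=
  bif bigK (pars w).1.1 (pars w).2 then 0 else 15 * (pars w).2 + 4

/-- The base. -/
def base (w : List Bool) : ℕ := (pars w).1.1 + 2

/-- The algorithm with `k` in the input. -/
def algU (w : List Bool) : Bool :=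
  solve (pars w).1.1 (pars w).1.2 (pars w).2 (base w ^ expo w)

theorem pars_inputK {n : ℕ} (G : SimpleGraph (Fin n)) (k : ℕ) :
    pars (inputK G k) = ((n, matrix G), k) := by
  unfold pars rest inputK input
  rw [idxOf_unary, drop_unary, idxOf_unary, drop_unary]

theorem ptime_rest : PTime rest := by
  have h : PTime fun w : List Bool => w.idxOf false :=
    PTime.idxOf (PTime.id) (PTime.const false)
  unfold rest
  fun_prop

theorem ptime_pars : PTime pars := by
  have h : PTime fun w : List Bool => w.idxOf false :=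
    PTime.idxOf (PTime.id) (PTime.const false)
  have hr := ptime_rest
  have h1 : PTime fun w : List Bool => (rest w).idxOf false := h.comp hr
  have h2 : PTime fun w : List Bool => rest (rest w) := hr.comp hr
  unfold pars
  fun_prop

theorem ptime_bigK : PTime fun p : ℕ × ℕ => bigK p.1 p.2 := by
  unfold bigK
  refine PTime.any (l := fun p : ℕ × ℕ => List.range (p.1 + 1))
    (f := fun p s => decide (p.1 ≤ s * s) && decide (3 * s + 3 ≤ p.2)) (by fun_prop) ?_
  fun_prop

theorem ptime_expo : PTime expo := by
  have hp := ptime_pars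
  have h1 : PTime fun w => bigK (pars w).1.1 (pars w).2 :=
    ptime_bigK.comp (g := fun w => ((pars w).1.1, (pars w).2)) (hp.fst'.fst'.pair hp.snd')
  exact PTime.cond h1 (PTime.const 0)
    (((PTime.const 15).mul hp.snd').add (PTime.const 4))

theorem ptime_base : PTime base :=
  ptime_pars.fst'.fst'.add (PTime.const 2)

/-- The bound for the running time. -/
def gU (w : List Bool) : ℕ :=
  2 * expo w + (2 * base w + (2 * base w ^ expo w + sz (pars w))) + 6 + sz w

theorem tb_algU (h : StPTS) : TB gU fun w => [algU w] := by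
  have hp := ptime_pars
  have h1 : TB gU fun w => (base w ^ expo w, pars w) :=
    TB.pow ptime_expo ptime_base ptime_pars (fun w => by unfold gU; omega)
      (fun w => by unfold base; omega) (fun w => by unfold gU; omega)
  have h2 : PTime fun q : ℕ × (ℕ × List Bool) × ℕ => [solve q.2.1.1 q.2.1.2 q.2.2 q.1] := by
    have h3 : PTime fun q : ℕ × (ℕ × List Bool) × ℕ => solve q.2.1.1 q.2.1.2 q.2.2 q.1 :=
      PTime.comp (f := fun p : (ℕ × List Bool) × ℕ × ℕ => solve p.1.1 p.1.2 p.2.1 p.2.2)
        (g := fun q : ℕ × (ℕ × List Bool) × ℕ => ((q.2.1.1, q.2.1.2), q.2.2, q.1)) h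
        (by fun_prop)
    exact PTime.cons h3 (PTime.const [])
  exact TB.comp h2 h1 fun w => by unfold gU; omega

theorem poly_le_pow (p : Polynomial ℕ) : ∃ d : ℕ, ∀ x : ℕ, 2 ≤ x → p.eval x ≤ x ^ d := by
  induction p using Polynomial.induction_on' with
  | add p q hp hq =>
    obtain ⟨d, hd⟩ := hp
    obtain ⟨e, he⟩ := hq
    refine ⟨max d e + 1, fun x hx => ?_⟩
    rw [Polynomial.eval_add]
    have h1 := (hd x hx).trans (Nat.pow_le_pow_right (by omega) (le_max_left d e))
    have h2 := (he x hx).trans (Nat.pow_le_pow_right (by omega) (le_max_right d e))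
    calc p.eval x + q.eval x ≤ x ^ max d e * 2 := by omega
      _ ≤ x ^ (max d e + 1) := by rw [pow_succ]; exact Nat.mul_le_mul_left _ hx
  | monomial n a =>
    refine ⟨a + n, fun x hx => ?_⟩
    rw [Polynomial.eval_monomial, pow_add]
    refine Nat.mul_le_mul_right _ ?_
    exact (Nat.lt_two_pow_self).le.trans (Nat.pow_le_pow_left hx a)

theorem le_of_bigK {n k : ℕ} (hn : 1 ≤ n) (h : bigK n k = false) : k ≤ 3 * Nat.sqrt n + 5 := by
  by_contra hk
  rw [not_le] at hk
  have h1 : bigK n k = true := by
    unfold bigK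
    rw [List.any_eq_true]
    have h2 := Nat.sqrt_le n
    have h3 := Nat.lt_succ_sqrt n
    rcases Nat.lt_or_ge n 2 with hn2 | hn2
    · have : n = 1 := by omega
      subst this
      exact ⟨1, by simp, by simp; omega⟩
    · refine ⟨Nat.sqrt n + 1, ?_, ?_⟩
      · rw [List.mem_range]
        have : Nat.sqrt n < n := Nat.sqrt_lt_self (by omega)
        omega
      · rw [Bool.and_eq_true, decide_eq_true_eq, decide_eq_true_eq]
        exact ⟨h3.le, by omega⟩
  rw [h] at h1
  exact absurd h1 (by simp)

theorem expo_le {n k : ℕ} (hn : 1 ≤ n) (G : SimpleGraph (Fin n)) :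
    expo (inputK G k) ≤ 79 * (min k (Nat.sqrt n) + 1) := by
  unfold expo
  rw [pars_inputK]
  simp only
  cases h : bigK n k with
  | true => simp
  | false =>
    have := le_of_bigK hn h
    simp only [cond_false]
    omega

theorem length_matrix {n : ℕ} (G : SimpleGraph (Fin n)) : (matrix G).length = n * n := by
  unfold matrix
  rw [List.length_flatMap]
  simp

theorem sz_le_length (l : List Bool) : sz l ≤ l.length * 4 + 1 :=
  sz_le_of_forall (B := 3) fun x _ => sz_bool x

theorem gU_le {n k : ℕ} (hn : 1 ≤ n) (hk : 1 ≤ k) (G : SimpleGraph (Fin n)) :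
    gU (inputK G k) ≤ (n + k + 2) ^ (84 * (min k (Nat.sqrt n) + 1)) := by
  have h1 := expo_le (k := k) hn G
  set E := expo (inputK G k) with hE
  set m := min k (Nat.sqrt n) + 1 with hm
  have hm1 : 1 ≤ m := by omega
  unfold gU
  rw [← hE]
  have hb : base (inputK G k) = n + 2 := by unfold base; rw [pars_inputK]
  rw [hb, pars_inputK, sz_mk, sz_mk, sz_nat, sz_nat]
  have h2 := sz_le_length (matrix G)
  rw [length_matrix] at h2
  have h3 := sz_le_length (inputK G k)
  have h4 : (inputK G k).length = k + 1 + (n + 1 + n * n) := by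
    unfold inputK input unary
    simp only [List.length_append, List.length_replicate, List.length_singleton, length_matrix]
  rw [h4] at h3
  set B := n + k + 2 with hB
  have hB4 : 4 ≤ B := by omega
  have h5 : (n + 2) ^ E ≤ B ^ (79 * m) :=
    (Nat.pow_le_pow_left (by omega) E).trans (Nat.pow_le_pow_right (by omega) h1)
  have h6 : B ^ 2 ≤ B ^ (79 * m) := Nat.pow_le_pow_right (by omega) (by omega)
  have h7 : 2 * E ≤ 158 * B := by
    have : m ≤ B := by omega
    omega
  have h8 : n * n + B ≤ B ^ 2 := by
    have : B ^ 2 = n * n + (2 * n * (k + 2) + (k + 2) * (k + 2)) := by rw [hB]; ring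
    rw [this]
    nlinarith
  have h9 : 2 * E + (2 * (n + 2) + (2 * (n + 2) ^ E + (2 * n + 1 + sz (matrix G) + 1 +
      (2 * k + 1) + 1))) + 6 + sz (inputK G k) ≤ 256 * B ^ (79 * m) := by
    have h10 : B ≤ B ^ 2 := by nlinarith
    omega
  refine h9.trans ?_
  have h11 : 256 ≤ B ^ 4 := by
    calc 256 = 4 ^ 4 := by norm_num
      _ ≤ B ^ 4 := Nat.pow_le_pow_left hB4 4
  calc 256 * B ^ (79 * m) ≤ B ^ 4 * B ^ (79 * m) := Nat.mul_le_mul_right _ h11
    _ = B ^ (4 + 79 * m) := by rw [pow_add]
    _ ≤ B ^ (84 * m) := Nat.pow_le_pow_right (by omega) (by omega)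

theorem stTM2 (h1 : StSolve) (h2 : StPTS) : StTM2 := by
  classical
  obtain ⟨M, p, hM⟩ := tb_tm tr_bool_injective (f := fun w => [algU w]) (g := gU)
    (fun w => by unfold gU; omega) (tb_algU h2)
  obtain ⟨d, hd⟩ := poly_le_pow p
  refine ⟨84 * d, M, fun n k G hn hk hG => ?_⟩
  have h3 := hM (inputK G k)
  have h4 : algU (inputK G k) = decide (CliqueWidthLE G k) := by
    have h5 : algU (inputK G k) = solve n (matrix G) k ((n + 2) ^ expo (inputK G k)) := by
      unfold algU
      have hb : base (inputK G k) = n + 2 := by unfold base; rw [pars_inputK]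
      rw [hb, pars_inputK]
    have h6 : algU (inputK G k) = true ↔ CliqueWidthLE G k := by
      rw [h5]
      refine h1 n k _ G hn hG ?_
      cases h : bigK n k with
      | true => exact Or.inl rfl
      | false =>
        right
        unfold expo
        rw [pars_inputK]
        simp only [h, cond_false]
        exact le_rfl
    rw [Bool.eq_iff_iff, decide_eq_true_eq]
    exact h6
  rw [h4] at h3
  refine Outputs.mono h3 ?_
  have h7 : 2 ≤ gU (inputK G k) := by unfold gU; omega
  refine (hd _ h7).trans ?_
  refine (Nat.pow_le_pow_left (gU_le hn hk G) d).trans ?_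
  rw [← pow_mul]
  refine Nat.pow_le_pow_right (by omega) ?_
  apply le_of_eq
  ring

end Pool.Agent.Lib.MP_0b43f8_lc
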