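import Pool.Agent.Lib.MP_0b43f8_lc.StmtsP

/-!
# Clique-width of unit interval graphs: `binS` in polynomial time
-/

namespace Pool.Agent.Lib.MP_0b43f8_lc

open Pool.Agent.Lib.PT

namespace PTBaux

/-- The context and two states. -/
abbrev A : Type := Ctx × DS × DS

/-- The adjacency relation of the context. -/
abbrev ad (a : A) : ℕ → ℕ → Bool := adjM a.1.1.1 a.1.1.2

variable {α : Type} [Enc α]

theorem ptime_mem2 {l : α → List (ℕ × ℕ)} {x : α → ℕ × ℕ} (hl : PTime l) (hx : PTime x) :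
    PTime fun a => decide (x a ∈ l a) :=
  (PTime.mem hl hx).of_eq fun a => by congr

theorem ptime_ad (h : StPTA) {c : α → A} {x y : α → ℕ} (hc : PTime c) (hx : PTime x)
    (hy : PTime y) : PTime fun a => ad (c a) (x a) (y a) :=
  h.comp (g := fun a => ((c a).1.1, (x a, y a))) (by fun_prop)

theorem ptime_sameOut (h : StPTA) : PTime fun p : A × ℕ × ℕ =>
    sameOut (ad p.1) p.1.1.2.2 p.1.2.1.1 p.1.2.2.1 p.2.1 p.2.2 := by
  unfold sameOut
  refine PTime.all (l := fun p : A × ℕ × ℕ => p.1.1.2.2)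
    (f := fun p w => decide (w ∈ p.1.2.1.1) || (decide (w ∈ p.1.2.2.1) ||
      decide (ad p.1 p.2.1 w = ad p.1 p.2.2 w))) (by fun_prop) ?_
  have h1 : PTime fun q : (A × ℕ × ℕ) × ℕ => ad q.1.1 q.1.2.1 q.2 :=
    ptime_ad h (c := fun q : (A × ℕ × ℕ) × ℕ => q.1.1) (x := fun q => q.1.2.1)
      (y := fun q => q.2) (by fun_prop) (by fun_prop) (by fun_prop)
  have h2 : PTime fun q : (A × ℕ × ℕ) × ℕ => ad q.1.1 q.1.2.2 q.2 :=
    ptime_ad h (c := fun q : (A × ℕ × ℕ) × ℕ => q.1.1) (x := fun q => q.1.2.2)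
      (y := fun q => q.2) (by fun_prop) (by fun_prop) (by fun_prop)
  have h3 : PTime fun q : (A × ℕ × ℕ) × ℕ => decide (q.2 ∈ q.1.1.2.1.1) :=
    PTime.mem (by fun_prop) (by fun_prop)
  have h4 : PTime fun q : (A × ℕ × ℕ) × ℕ => decide (q.2 ∈ q.1.1.2.2.1) :=
    PTime.mem (by fun_prop) (by fun_prop)
  exact h3.or (h4.or (PTime.eq h1 h2))

theorem ptime_crossK (h : StPTA) : PTime fun p : A × ℕ × ℕ =>
    crossK (ad p.1) p.1.2.1 p.1.2.2 p.2 := by
  unfold crossK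
  have h1 : PTime fun p : A × ℕ × ℕ => decide (p.2 ∈ p.1.2.1.2.2) :=
    ptime_mem2 (l := fun p : A × ℕ × ℕ => p.1.2.1.2.2) (x := fun p => p.2)
      (by fun_prop) (by fun_prop)
  have h2 : PTime fun p : A × ℕ × ℕ => decide (p.2 ∈ p.1.2.2.2.2) :=
    ptime_mem2 (l := fun p : A × ℕ × ℕ => p.1.2.2.2.2) (x := fun p => p.2)
      (by fun_prop) (by fun_prop)
  refine h1.and (h2.and ?_)
  refine PTime.all (l := fun p : A × ℕ × ℕ => p.1.2.1.2.1)
    (f := fun b p => b.1.2.2.2.1.all fun q =>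
      (!(decide (p.1 = b.2.1)) || (!(decide (q.1 = b.2.2)) || ad b.1 p.2 q.2)) &&
      (!(decide (p.1 = b.2.2)) || (!(decide (q.1 = b.2.1)) || ad b.1 p.2 q.2)))
    (by fun_prop) ?_
  refine PTime.all (l := fun r : (A × ℕ × ℕ) × ℕ × ℕ => r.1.1.2.2.2.1)
    (f := fun r q => (!(decide (r.2.1 = r.1.2.1)) || (!(decide (q.1 = r.1.2.2)) ||
        ad r.1.1 r.2.2 q.2)) &&
      (!(decide (r.2.1 = r.1.2.2)) || (!(decide (q.1 = r.1.2.1)) || ad r.1.1 r.2.2 q.2)))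
    (by fun_prop) ?_
  have h3 : PTime fun r : ((A × ℕ × ℕ) × ℕ × ℕ) × ℕ × ℕ => ad r.1.1.1 r.1.2.2 r.2.2 :=
    ptime_ad h (c := fun r : ((A × ℕ × ℕ) × ℕ × ℕ) × ℕ × ℕ => r.1.1.1) (x := fun r => r.1.2.2)
      (y := fun r => r.2.2) (by fun_prop) (by fun_prop) (by fun_prop)
  have k1 : PTime fun r : ((A × ℕ × ℕ) × ℕ × ℕ) × ℕ × ℕ => !(decide (r.1.2.1 = r.1.1.2.1)) := by
    fun_prop
  have k2 : PTime fun r : ((A × ℕ × ℕ) × ℕ × ℕ) × ℕ × ℕ => !(decide (r.2.1 = r.1.1.2.2)) := by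
    fun_prop
  have k3 : PTime fun r : ((A × ℕ × ℕ) × ℕ × ℕ) × ℕ × ℕ => !(decide (r.1.2.1 = r.1.1.2.2)) := by
    fun_prop
  have k4 : PTime fun r : ((A × ℕ × ℕ) × ℕ × ℕ) × ℕ × ℕ => !(decide (r.2.1 = r.1.1.2.1)) := by
    fun_prop
  exact (k1.or (k2.or h3)).and (k3.or (k4.or h3))

theorem ptime_unionOK (h : StPTA) : PTime fun p : A =>
    unionOK (ad p) p.1.2.2 p.2.1 p.2.2 := by
  unfold unionOK
  refine PTime.and ?_ ?_
  · refine PTime.all (l := fun p : A => p.2.1.1) (f := fun p x => !(decide (x ∈ p.2.2.1)))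
      (by fun_prop) ?_
    have h1 : PTime fun q : A × ℕ => decide (q.2 ∈ q.1.2.2.1) :=
      PTime.mem (by fun_prop) (by fun_prop)
    exact h1.not
  · refine PTime.all (l := fun p : A => p.2.1.2.1)
      (f := fun b p => b.2.2.2.1.all fun q => bif decide (p.1 = q.1) then
        !(ad b p.2 q.2) && sameOut (ad b) b.1.2.2 b.2.1.1 b.2.2.1 p.2 q.2
        else !(ad b p.2 q.2) || crossK (ad b) b.2.1 b.2.2 (p.1, q.1)) (by fun_prop) ?_
    refine PTime.all (l := fun r : A × ℕ × ℕ => r.1.2.2.2.1)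
      (f := fun r q => bif decide (r.2.1 = q.1) then
        !(ad r.1 r.2.2 q.2) && sameOut (ad r.1) r.1.1.2.2 r.1.2.1.1 r.1.2.2.1 r.2.2 q.2
        else !(ad r.1 r.2.2 q.2) || crossK (ad r.1) r.1.2.1 r.1.2.2 (r.2.1, q.1))
      (by fun_prop) ?_
    have h3 : PTime fun r : (A × ℕ × ℕ) × ℕ × ℕ => ad r.1.1 r.1.2.2 r.2.2 :=
      ptime_ad h (c := fun r : (A × ℕ × ℕ) × ℕ × ℕ => r.1.1) (x := fun r => r.1.2.2)
        (y := fun r => r.2.2) (by fun_prop) (by fun_prop) (by fun_prop)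
    have h4 : PTime fun r : (A × ℕ × ℕ) × ℕ × ℕ => sameOut (ad r.1.1) r.1.1.1.2.2
        r.1.1.2.1.1 r.1.1.2.2.1 r.1.2.2 r.2.2 :=
      (ptime_sameOut h).comp (g := fun r : (A × ℕ × ℕ) × ℕ × ℕ => (r.1.1, r.1.2.2, r.2.2))
        (by fun_prop)
    have h5 : PTime fun r : (A × ℕ × ℕ) × ℕ × ℕ => crossK (ad r.1.1) r.1.1.2.1 r.1.1.2.2
        (r.1.2.1, r.2.1) :=
      (ptime_crossK h).comp (g := fun r : (A × ℕ × ℕ) × ℕ × ℕ => (r.1.1, r.1.2.1, r.2.1))
        (by fun_prop)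
    have h6 : PTime fun r : (A × ℕ × ℕ) × ℕ × ℕ => decide (r.1.2.1 = r.2.1) := by fun_prop
    exact PTime.cond h6 (h3.not.and h4) (h3.not.or h5)

theorem ptime_prs {f g : α → ℕ} (hf : PTime f) (hg : PTime g) :
    PTime fun a => prs (f a) (g a) := by
  unfold prs
  refine PTime.flatMap (f := fun a i => (List.range (g a)).map fun j => (i, j)) hf.range ?_
  refine PTime.map (l := fun p : α × ℕ => List.range (g p.1))
    (f := fun (p : α × ℕ) j => (p.2, j)) ?_ (by fun_prop)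
  exact (hg.comp (g := fun p : α × ℕ => p.1) (by fun_prop)).range

theorem ptime_mkS {n k : α → ℕ} {p : α → ℕ → Bool} {q r : α → ℕ × ℕ → Bool}
    (hn : PTime n) (hk : PTime k) (hp : PTime fun x : α × ℕ => p x.1 x.2)
    (hq : PTime fun x : α × ℕ × ℕ => q x.1 x.2) (hr : PTime fun x : α × ℕ × ℕ => r x.1 x.2) :
    PTime fun a => mkS (n a) (k a) (p a) (q a) (r a) := by
  unfold mkS
  exact (PTime.filter hn.range hp).pair
    ((PTime.filter (ptime_prs hk hn) hq).pair (PTime.filter (ptime_prs hk hk) hr))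

theorem ptime_unionS (h : StPTA) : PTime fun p : A =>
    unionS (ad p) p.1.1.1 p.1.2.1 p.2.1 p.2.2 := by
  unfold unionS
  refine ptime_mkS (n := fun p : A => p.1.1.1) (k := fun p => p.1.2.1)
    (p := fun p x => decide (x ∈ p.2.1.1) || decide (x ∈ p.2.2.1))
    (q := fun p b => decide (b ∈ p.2.1.2.1) || (decide (b ∈ p.2.2.2.1) &&
      p.2.1.2.1.all fun c => !(decide (c.1 = b.1))))
    (r := fun p b => decide (b.1 = b.2) || crossK (ad p) p.2.1 p.2.2 b)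
    (by fun_prop) (by fun_prop) ?_ ?_ ?_
  · have h1 : PTime fun q : A × ℕ => decide (q.2 ∈ q.1.2.1.1) :=
      PTime.mem (by fun_prop) (by fun_prop)
    have h2 : PTime fun q : A × ℕ => decide (q.2 ∈ q.1.2.2.1) :=
      PTime.mem (by fun_prop) (by fun_prop)
    exact h1.or h2
  · have h1 : PTime fun q : A × ℕ × ℕ => decide (q.2 ∈ q.1.2.1.2.1) :=
      ptime_mem2 (l := fun q : A × ℕ × ℕ => q.1.2.1.2.1) (x := fun q => q.2)
        (by fun_prop) (by fun_prop)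
    have h2 : PTime fun q : A × ℕ × ℕ => decide (q.2 ∈ q.1.2.2.2.1) :=
      ptime_mem2 (l := fun q : A × ℕ × ℕ => q.1.2.2.2.1) (x := fun q => q.2)
        (by fun_prop) (by fun_prop)
    refine h1.or (h2.and ?_)
    exact PTime.all (l := fun q : A × ℕ × ℕ => q.1.2.1.2.1)
      (f := fun q c => !(decide (c.1 = q.2.1))) (by fun_prop) (by fun_prop)
  · have h1 : PTime fun q : A × ℕ × ℕ => decide (q.2.1 = q.2.2) := by fun_prop
    exact h1.or (ptime_crossK h)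

end PTBaux

open PTBaux in
theorem stPTB (h : StPTA) : StPTB := by
  unfold StPTB binS
  refine PTime.cond (ptime_unionOK h) ?_ (PTime.const _)
  exact PTime.cons (ptime_unionS h) (PTime.const _)

end Pool.Agent.Lib.MP_0b43f8_lc
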