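import Pool.Agent.Lib.MP_0b43f8_lc.StmtsP

/-!
# Clique-width of unit interval graphs: the closure in polynomial time
-/

namespace Pool.Agent.Lib.MP_0b43f8_lc

open Pool.Agent.Lib.PT

namespace PTCaux

theorem ptime_prs {α : Type} [Enc α] {f g : α → ℕ} (hf : PTime f) (hg : PTime g) :
    PTime fun a => prs (f a) (g a) := by
  unfold prs
  refine PTime.flatMap (f := fun a i => (List.range (g a)).map fun j => (i, j)) hf.range ?_
  refine PTime.map (l := fun p : α × ℕ => List.range (g p.1))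
    (f := fun (p : α × ℕ) j => (p.2, j)) ?_ (by fun_prop)
  exact (hg.comp (g := fun p : α × ℕ => p.1) (by fun_prop)).range

/-- The initial states. -/
def ini (p : Ctx × ℕ) : List DS := initS p.1.1.1 p.1.2.1 p.1.2.2

/-- The relabellings. -/
def una (p : Ctx × ℕ) : DS → List DS := unS (adjM p.1.1.1 p.1.1.2) p.1.1.1 p.1.2.1 p.1.2.2

/-- The unions. -/
def bina (p : Ctx × ℕ) : DS → DS → List DS :=
  binS (adjM p.1.1.1 p.1.1.2) p.1.1.1 p.1.2.1 p.1.2.2

/-- The list of one round. -/
def rnd (x : (Ctx × ℕ) × List DS) : List DS :=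
  x.2 ++ (ini x.1 ++ (x.2.flatMap (una x.1) ++ x.2.flatMap fun s => x.2.flatMap (bina x.1 s)))

theorem ptime_rnd (h1 : StPTI) (h2 : StPTU) (h3 : StPTB) : PTime rnd := by
  have e1 : PTime fun x : (Ctx × ℕ) × List DS => ini x.1 :=
    h1.comp (g := fun x : (Ctx × ℕ) × List DS => x.1.1) (by fun_prop)
  have e2 : PTime fun x : (Ctx × ℕ) × List DS => x.2.flatMap (una x.1) := by
    refine PTime.flatMap (f := fun (x : (Ctx × ℕ) × List DS) s => una x.1 s) (by fun_prop) ?_
    exact h2.comp (g := fun y : ((Ctx × ℕ) × List DS) × DS => (y.1.1.1, y.2)) (by fun_prop)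
  have e3 : PTime fun x : (Ctx × ℕ) × List DS =>
      x.2.flatMap fun s => x.2.flatMap (bina x.1 s) := by
    refine PTime.flatMap (f := fun (x : (Ctx × ℕ) × List DS) s => x.2.flatMap (bina x.1 s))
      (by fun_prop) ?_
    refine PTime.flatMap (l := fun y : ((Ctx × ℕ) × List DS) × DS => y.1.2)
      (f := fun (y : ((Ctx × ℕ) × List DS) × DS) t => bina y.1.1 y.2 t) (by fun_prop) ?_
    exact h3.comp (g := fun z : (((Ctx × ℕ) × List DS) × DS) × DS =>
      (z.1.1.1.1, z.1.2, z.2)) (by fun_prop)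
  exact PTime.append (by fun_prop) (PTime.append e1 (PTime.append e2 e3))

theorem ptime_step (h1 : StPTI) (h2 : StPTU) (h3 : StPTB) :
    PTime fun x : (Ctx × ℕ) × List DS => stepG (ini x.1) (una x.1) (bina x.1) x.1.2 x.2 := by
  have e := PTime.dedup (ptime_rnd h1 h2 h3)
  have e1 : PTime fun x : (Ctx × ℕ) × List DS => decide ((rnd x).dedup.length ≤ x.1.2) := by
    have e2 := e.length
    fun_prop
  exact PTime.cond e1 e (by fun_prop)

/-! ### the sizes -/

theorem sz_sublist {α : Type} [Enc α] {l l' : List α} (h : l.Sublist l') : sz l ≤ sz l' := by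
  induction h with
  | slnil => exact le_rfl
  | cons a _ ih => rw [sz_cons]; omega
  | cons_cons a _ ih => rw [sz_cons, sz_cons]; omega

theorem sz_mkS (n k : ℕ) (p : ℕ → Bool) (q r : ℕ × ℕ → Bool) :
    sz (mkS n k p q r) ≤ sz (List.range n) + (sz (prs k n) + sz (prs k k) + 1) + 1 := by
  unfold mkS
  rw [sz_mk, sz_mk]
  have h1 := sz_sublist (List.filter_sublist (p := p) (l := List.range n))
  have h2 := sz_sublist (List.filter_sublist (p := q) (l := prs k n))
  have h3 := sz_sublist (List.filter_sublist (p := r) (l := prs k k))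
  omega

/-- the form of the states -/
def IsM (n k : ℕ) (s : DS) : Prop := ∃ p q r, s = mkS n k p q r

theorem isM_rnd (x : (Ctx × ℕ) × List DS) (h : ∀ s ∈ x.2, IsM x.1.1.1.1 x.1.1.2.1 s) :
    ∀ s ∈ rnd x, IsM x.1.1.1.1 x.1.1.2.1 s := by
  intro s hs
  unfold rnd at hs
  rw [List.mem_append, List.mem_append, List.mem_append] at hs
  rcases hs with hs | hs | hs | hs
  · exact h s hs
  · unfold ini initS at hs
    rw [List.mem_flatMap] at hs
    obtain ⟨v, -, hs⟩ := hs
    rw [List.mem_map] at hs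
    obtain ⟨a, -, rfl⟩ := hs
    exact ⟨_, _, _, rfl⟩
  · rw [List.mem_flatMap] at hs
    obtain ⟨t, -, hs⟩ := hs
    unfold una unS at hs
    rw [List.mem_flatMap] at hs
    obtain ⟨c, -, hs⟩ := hs
    cases hb : relabOK (adjM x.1.1.1.1 x.1.1.1.2) x.1.1.2.2 c.1 c.2 t with
    | true =>
      rw [hb, cond_true, List.mem_singleton] at hs
      rw [hs]
      exact ⟨_, _, _, rfl⟩
    | false =>
      rw [hb, cond_false] at hs
      exact absurd hs List.not_mem_nil
  · rw [List.mem_flatMap] at hs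
    obtain ⟨t, -, hs⟩ := hs
    rw [List.mem_flatMap] at hs
    obtain ⟨t', -, hs⟩ := hs
    unfold bina binS at hs
    cases hb : unionOK (adjM x.1.1.1.1 x.1.1.1.2) x.1.1.2.2 t t' with
    | true =>
      rw [hb, cond_true, List.mem_singleton] at hs
      rw [hs]
      exact ⟨_, _, _, rfl⟩
    | false =>
      rw [hb, cond_false] at hs
      exact absurd hs List.not_mem_nil

theorem stepG_eq (p : Ctx × ℕ) (S : List DS) : stepG (ini p) (una p) (bina p) p.2 S =
    bif decide ((rnd (p, S)).dedup.length ≤ p.2) then (rnd (p, S)).dedup else S := rfl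

theorem inv (p : Ctx × ℕ) (i : ℕ) :
    ((stepG (ini p) (una p) (bina p) p.2)^[i] []).length ≤ p.2 ∧
      ∀ s ∈ (stepG (ini p) (una p) (bina p) p.2)^[i] [], IsM p.1.1.1 p.1.2.1 s := by
  induction i with
  | zero => exact ⟨Nat.zero_le _, fun s hs => absurd hs List.not_mem_nil⟩
  | succ i ih =>
    rw [Function.iterate_succ_apply', stepG_eq]
    set S := (stepG (ini p) (una p) (bina p) p.2)^[i] [] with hS
    by_cases h : (rnd (p, S)).dedup.length ≤ p.2
    · rw [decide_eq_true h, cond_true]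
      refine ⟨h, fun s hs => ?_⟩
      rw [List.mem_dedup] at hs
      exact isM_rnd (p, S) ih.2 s hs
    · rw [decide_eq_false h, cond_false]
      exact ih

end PTCaux

open PTCaux in
theorem stPTC (h1 : StPTI) (h2 : StPTU) (h3 : StPTB) : StPTC := by
  have hn : PB fun p : Ctx × ℕ => sz (List.range p.1.1.1) :=
    (PTime.range (n := fun p : Ctx × ℕ => p.1.1.1) (by fun_prop)).sz_le
  have hq : PB fun p : Ctx × ℕ => sz (prs p.1.2.1 p.1.1.1) :=
    (ptime_prs (f := fun p : Ctx × ℕ => p.1.2.1) (g := fun p => p.1.1.1) (by fun_prop)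
      (by fun_prop)).sz_le
  have hr : PB fun p : Ctx × ℕ => sz (prs p.1.2.1 p.1.2.1) :=
    (ptime_prs (f := fun p : Ctx × ℕ => p.1.2.1) (g := fun p => p.1.2.1) (by fun_prop)
      (by fun_prop)).sz_le
  have hM : PB fun p : Ctx × ℕ => p.2 := by
    refine (PB.sz (α := Ctx × ℕ)).mono fun p => ?_
    have h4 : sz p = sz p.1 + sz p.2 + 1 := rfl
    rw [h4, sz_nat]
    omega
  have hB : PB fun p : Ctx × ℕ => p.2 * ((sz (List.range p.1.1.1) +
      (sz (prs p.1.2.1 p.1.1.1) + sz (prs p.1.2.1 p.1.2.1) + 1) + 1) + 1) + 1 :=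
    (hM.mul (((hn.add ((hq.add hr).add (PB.const 1))).add (PB.const 1)).add (PB.const 1))).add
      (PB.const 1)
  refine PTime.iterate (n := fun p : Ctx × ℕ => p.2) (s := fun _ => ([] : List DS))
    (f := fun p S => stepG (ini p) (una p) (bina p) p.2 S) (by fun_prop) (PTime.const _)
    (ptime_step h1 h2 h3) hB ?_
  intro p i _
  obtain ⟨h5, h6⟩ := inv p i
  refine (sz_le_of_forall (B := sz (List.range p.1.1.1) +
      (sz (prs p.1.2.1 p.1.1.1) + sz (prs p.1.2.1 p.1.2.1) + 1) + 1) fun s hs => ?_).trans ?_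
  · obtain ⟨a, b, c, rfl⟩ := h6 s hs
    exact sz_mkS _ _ _ _ _
  · exact Nat.add_le_add_right (Nat.mul_le_mul_right _ h5) 1

end Pool.Agent.Lib.MP_0b43f8_lc
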