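import Pool.Agent.Lib.MP_0b43f8_lc.StmtsP

/-!
# Clique-width of unit interval graphs: `initS` in polynomial time
-/

namespace Pool.Agent.Lib.MP_0b43f8_lc

open Pool.Agent.Lib.PT

namespace PTIaux

variable {α : Type} [Enc α]

theorem ptime_prs {f g : α → ℕ} (hf : PTime f) (hg : PTime g) :
    PTime fun a => prs (f a) (g a) := by
  unfold prs
  refine PTime.flatMap (f := fun a i => (List.range (g a)).map fun j => (i, j)) hf.range ?_
  refine PTime.map (l := fun p : α × ℕ => List.range (g p.1))
    (f := fun (p : α × ℕ) j => (p.2, j)) ?_ (by fun_prop)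
  exact (hg.comp (g := fun p : α × ℕ => p.1) (by fun_prop)).range

theorem ptime_mkS {n k : α → ℕ} {p : α → ℕ → Bool} {q r : α → ℕ × ℕ → Bool}
    (hn : PTime n) (hk : PTime k) (hp : PTime fun x : α × ℕ => p x.1 x.2)
    (hq : PTime fun x : α × ℕ × ℕ => q x.1 x.2) (hr : PTime fun x : α × ℕ × ℕ => r x.1 x.2) :
    PTime fun a => mkS (n a) (k a) (p a) (q a) (r a) := by
  unfold mkS
  exact (PTime.filter hn.range hp).pair
    ((PTime.filter (ptime_prs hk hn) hq).pair (PTime.filter (ptime_prs hk hk) hr))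

theorem ptime_leafS {n k v b : α → ℕ} (hn : PTime n) (hk : PTime k) (hv : PTime v)
    (hb : PTime b) : PTime fun a => leafS (n a) (k a) (v a) (b a) := by
  unfold leafS
  refine ptime_mkS (p := fun a x => decide (x = v a)) (q := fun a c => decide (c = (b a, v a)))
    (r := fun _ _ => true) hn hk ?_ ?_ (by fun_prop)
  · have h1 : PTime fun x : α × ℕ => v x.1 := hv.comp (by fun_prop)
    fun_prop
  · have h1 : PTime fun x : α × ℕ × ℕ => v x.1 := hv.comp (by fun_prop)
    have h2 : PTime fun x : α × ℕ × ℕ => b x.1 := hb.comp (by fun_prop)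
    fun_prop

theorem ptime_initS {n k : α → ℕ} {U : α → List ℕ} (hn : PTime n) (hk : PTime k)
    (hU : PTime U) : PTime fun a => initS (n a) (k a) (U a) := by
  unfold initS
  refine PTime.flatMap
    (f := fun a v => (List.range (k a)).map fun b => leafS (n a) (k a) v b) hU ?_
  refine PTime.map (l := fun p : α × ℕ => List.range (k p.1))
    (f := fun (p : α × ℕ) b => leafS (n p.1) (k p.1) p.2 b) ?_ ?_
  · exact (hk.comp (g := fun p : α × ℕ => p.1) (by fun_prop)).range
  · exact ptime_leafS (hn.comp (g := fun x : (α × ℕ) × ℕ => x.1.1) (by fun_prop))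
      (hk.comp (g := fun x : (α × ℕ) × ℕ => x.1.1) (by fun_prop)) (by fun_prop) (by fun_prop)

end PTIaux

theorem stPTI : StPTI :=
  PTIaux.ptime_initS (n := fun p : Ctx => p.1.1) (k := fun p => p.2.1) (U := fun p => p.2.2)
    (by fun_prop) (by fun_prop) (by fun_prop)

end Pool.Agent.Lib.MP_0b43f8_lc
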