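import Pool.Agent.Lib.MP_0b43f8_lc.StmtsP

/-!
# Clique-width of unit interval graphs: the pieces are computed in polynomial time
-/

namespace Pool.Agent.Lib.MP_0b43f8_lc

open Pool.Agent.Lib.PT

namespace PTPaux

theorem sz_filter_range (n : ℕ) (p : ℕ → Bool) :
    sz ((List.range n).filter p) ≤ sz n * (sz n + 1) + 1 := by
  have h1 : sz ((List.range n).filter p) ≤ ((List.range n).filter p).length * (sz n + 1) + 1 := by
    refine sz_le_of_forall fun x hx => ?_
    have hx' := List.mem_range.1 (List.mem_filter.1 hx).1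
    rw [sz_nat, sz_nat]
    omega
  have h2 : ((List.range n).filter p).length ≤ n := by
    have := List.length_filter_le p (List.range n)
    rwa [List.length_range] at this
  have h3 : ((List.range n).filter p).length ≤ sz n := by rw [sz_nat]; omega
  have := Nat.mul_le_mul_right (sz n + 1) h3
  omega

theorem ptime_compS (h : StPTA) :
    PTime fun p : (ℕ × List Bool) × ℕ => compS (adjM p.1.1 p.1.2) p.1.1 p.2 := by
  have hany : PTime fun q : (((ℕ × List Bool) × ℕ) × List ℕ) × ℕ =>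
      q.1.2.any fun y => adjM q.1.1.1.1 q.1.1.1.2 y q.2 := by
    refine PTime.any (l := fun q : (((ℕ × List Bool) × ℕ) × List ℕ) × ℕ => q.1.2)
      (f := fun q y => adjM q.1.1.1.1 q.1.1.1.2 y q.2) (by fun_prop) ?_
    exact h.comp (g := fun r : ((((ℕ × List Bool) × ℕ) × List ℕ) × ℕ) × ℕ =>
      ((r.1.1.1.1.1, r.1.1.1.1.2), (r.2, r.1.2))) (by fun_prop)
  have hmem : PTime fun q : (((ℕ × List Bool) × ℕ) × List ℕ) × ℕ => decide (q.2 ∈ q.1.2) :=
    PTime.mem (by fun_prop) (by fun_prop)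
  have hf : PTime fun p : ((ℕ × List Bool) × ℕ) × List ℕ => (List.range p.1.1.1).filter
      fun x => decide (x ∈ p.2) || p.2.any fun y => adjM p.1.1.1 p.1.1.2 y x :=
    PTime.filter (l := fun p : ((ℕ × List Bool) × ℕ) × List ℕ => List.range p.1.1.1)
      (f := fun p x => decide (x ∈ p.2) || p.2.any fun y => adjM p.1.1.1 p.1.1.2 y x)
      (by fun_prop) (hmem.or hany)
  have hn : PTime fun p : (ℕ × List Bool) × ℕ => p.1.1 := by fun_prop
  have hv : PTime fun p : (ℕ × List Bool) × ℕ => p.2 := by fun_prop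
  have hB : PB fun p : (ℕ × List Bool) × ℕ => (sz p.2 + 2) + (sz p.1.1 * (sz p.1.1 + 1) + 1) :=
    (hv.sz_le.add (PB.const 2)).add ((hn.sz_le.mul (hn.sz_le.add (PB.const 1))).add (PB.const 1))
  refine PTime.iterate (n := fun p : (ℕ × List Bool) × ℕ => p.1.1)
    (s := fun p => [p.2])
    (f := fun p S => (List.range p.1.1).filter fun x => decide (x ∈ S) || S.any fun y =>
      adjM p.1.1 p.1.2 y x) hn (by fun_prop) hf hB ?_
  intro a i _
  cases i with
  | zero =>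
    rw [Function.iterate_zero, id_eq, sz_cons, sz_nil]
    omega
  | succ i =>
    rw [Function.iterate_succ_apply']
    exact (sz_filter_range _ _).trans (Nat.le_add_left _ _)

theorem ptime_tw (h : StPTA) :
    PTime fun p : (ℕ × List Bool) × ℕ × ℕ => tw (adjM p.1.1 p.1.2) p.1.1 p.2.1 p.2.2 := by
  have h1 : PTime fun q : ((ℕ × List Bool) × ℕ × ℕ) × ℕ => adjM q.1.1.1 q.1.1.2 q.1.2.1 q.2 :=
    h.comp (g := fun q : ((ℕ × List Bool) × ℕ × ℕ) × ℕ => ((q.1.1.1, q.1.1.2), (q.1.2.1, q.2)))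
      (by fun_prop)
  have h2 : PTime fun q : ((ℕ × List Bool) × ℕ × ℕ) × ℕ => adjM q.1.1.1 q.1.1.2 q.1.2.2 q.2 :=
    h.comp (g := fun q : ((ℕ × List Bool) × ℕ × ℕ) × ℕ => ((q.1.1.1, q.1.1.2), (q.1.2.2, q.2)))
      (by fun_prop)
  refine PTime.all (l := fun p : (ℕ × List Bool) × ℕ × ℕ => List.range p.1.1)
    (f := fun p w => decide ((decide (w = p.2.1) || adjM p.1.1 p.1.2 p.2.1 w) =
      (decide (w = p.2.2) || adjM p.1.1 p.1.2 p.2.2 w))) (by fun_prop) ?_
  have h3 : PTime fun q : ((ℕ × List Bool) × ℕ × ℕ) × ℕ =>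
      (decide (q.2 = q.1.2.1) || adjM q.1.1.1 q.1.1.2 q.1.2.1 q.2) :=
    PTime.or (by fun_prop) h1
  have h4 : PTime fun q : ((ℕ × List Bool) × ℕ × ℕ) × ℕ =>
      (decide (q.2 = q.1.2.2) || adjM q.1.1.1 q.1.1.2 q.1.2.2 q.2) :=
    PTime.or (by fun_prop) h2
  exact PTime.eq h3 h4

theorem ptime_isRep (h : StPTA) :
    PTime fun p : (ℕ × List Bool) × ℕ => isRep (adjM p.1.1 p.1.2) p.1.1 p.2 := by
  refine PTime.all (l := fun p : (ℕ × List Bool) × ℕ => List.range p.2)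
    (f := fun p v => !(tw (adjM p.1.1 p.1.2) p.1.1 v p.2)) (by fun_prop) ?_
  have := (ptime_tw h).comp (g := fun q : ((ℕ × List Bool) × ℕ) × ℕ =>
    ((q.1.1.1, q.1.1.2), (q.2, q.1.2))) (by fun_prop)
  exact this.not

end PTPaux

open PTPaux

theorem stPTP (h : StPTA) : StPTP := by
  refine PTime.filter (l := fun p : (ℕ × List Bool) × ℕ => List.range p.1.1)
    (f := fun p u => decide (u ∈ compS (adjM p.1.1 p.1.2) p.1.1 p.2) &&
      isRep (adjM p.1.1 p.1.2) p.1.1 u) (by fun_prop) ?_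
  have h1 : PTime fun q : ((ℕ × List Bool) × ℕ) × ℕ =>
      compS (adjM q.1.1.1 q.1.1.2) q.1.1.1 q.1.2 :=
    (ptime_compS h).comp (g := fun q : ((ℕ × List Bool) × ℕ) × ℕ =>
      ((q.1.1.1, q.1.1.2), q.1.2)) (by fun_prop)
  have h2 : PTime fun q : ((ℕ × List Bool) × ℕ) × ℕ =>
      isRep (adjM q.1.1.1 q.1.1.2) q.1.1.1 q.2 :=
    (ptime_isRep h).comp (g := fun q : ((ℕ × List Bool) × ℕ) × ℕ =>
      ((q.1.1.1, q.1.1.2), q.2)) (by fun_prop)
  exact (PTime.mem h1 (by fun_prop)).and h2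

end Pool.Agent.Lib.MP_0b43f8_lc
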