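import Pool.Agent.Lib.MP_0b43f8_lc.StmtsP

/-!
# The algorithm runs in polynomial time
-/

namespace Pool.Agent.Lib.MP_0b43f8_lc

open Pool.Agent.Lib.PT

theorem ptime_bigK : PTime fun p : ℕ × ℕ => bigK p.1 p.2 := by
  unfold bigK
  refine PTime.any (f := fun (p : ℕ × ℕ) (s : ℕ) => decide (p.1 ≤ s * s) && decide (3 * s + 3 ≤ p.2))
    (by fun_prop) (by fun_prop)

theorem ptime_testU (h2 : StPTC) : PTime fun p : Ctx × ℕ =>
    testU p.1.1.1 p.1.1.2 p.1.2.1 p.2 p.1.2.2 := by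
  unfold testU
  exact PTime.any (f := fun (p : Ctx × ℕ) (s : DS) => decide (s.1 = p.1.2.2)) h2 (by fun_prop)

theorem stPTS (h1 : StPTA) (h2 : StPTC) (h3 : StPTP) : StPTS := by
  unfold StPTS solve
  refine PTime.cond ?_ (PTime.const _) (PTime.cond ?_ (PTime.const _) (PTime.cond ?_ ?_ ?_))
  · exact ptime_bigK.comp (g := fun p : (ℕ × List Bool) × ℕ × ℕ => (p.1.1, p.2.1)) (by fun_prop)
  · fun_prop
  · fun_prop
  · refine PTime.all (f := fun (p : (ℕ × List Bool) × ℕ × ℕ) (u : ℕ) =>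
      (List.range p.1.1).all fun v => !(adjM p.1.1 p.1.2 u v)) (by fun_prop) ?_
    refine PTime.all (f := fun (p : ((ℕ × List Bool) × ℕ × ℕ) × ℕ) (v : ℕ) =>
      !(adjM p.1.1.1 p.1.1.2 p.2 v)) (by fun_prop) ?_
    exact (h1.comp (g := fun p : (((ℕ × List Bool) × ℕ × ℕ) × ℕ) × ℕ =>
      (p.1.1.1, p.1.2, p.2)) (by fun_prop)).not
  · refine PTime.all (f := fun (p : (ℕ × List Bool) × ℕ × ℕ) (v : ℕ) =>
      testU p.1.1 p.1.2 p.2.1 p.2.2 (piece (adjM p.1.1 p.1.2) p.1.1 v)) (by fun_prop) ?_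
    have h4 : PTime fun p : ((ℕ × List Bool) × ℕ × ℕ) × ℕ =>
        piece (adjM p.1.1.1 p.1.1.2) p.1.1.1 p.2 :=
      h3.comp (g := fun p : ((ℕ × List Bool) × ℕ × ℕ) × ℕ => (p.1.1, p.2)) (by fun_prop)
    exact (ptime_testU h2).comp (g := fun p : ((ℕ × List Bool) × ℕ × ℕ) × ℕ =>
      ((p.1.1, p.1.2.1, piece (adjM p.1.1.1 p.1.1.2) p.1.1.1 p.2), p.1.2.2)) (by fun_prop)

end Pool.Agent.Lib.MP_0b43f8_lc
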