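import Pool.Agent.Lib.MP_0b43f8_lc.StmtsP

set_option autoImplicit false

/-!
# Clique-width of unit interval graphs: the relabelling step in polynomial time
-/

namespace Pool.Agent.Lib.MP_0b43f8_lc

open Pool.Agent.Lib.PT

namespace PTUaux

variable {α : Type} [Enc α]

theorem pt_adj (h : StPTA) {n u v : α → ℕ} {M : α → List Bool} (hn : PTime n) (hM : PTime M)
    (hu : PTime u) (hv : PTime v) : PTime fun a => adjM (n a) (M a) (u a) (v a) :=
  PTime.comp (f := fun p : (ℕ × List Bool) × ℕ × ℕ => adjM p.1.1 p.1.2 p.2.1 p.2.2) h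
    (g := fun a => ((n a, M a), (u a, v a))) ((hn.pair hM).pair (hu.pair hv))

theorem pt_mem {l : α → List (ℕ × ℕ)} {x : α → ℕ × ℕ} (hl : PTime l) (hx : PTime x) :
    PTime fun a => decide (x a ∈ l a) :=
  (PTime.mem hl hx).of_eq fun _ => decide_eq_decide.2 Iff.rfl

theorem pt_sameOut (h : StPTA) {n x y : α → ℕ} {M : α → List Bool} {U X Y : α → List ℕ}
    (hn : PTime n) (hM : PTime M) (hU : PTime U) (hX : PTime X) (hY : PTime Y) (hx : PTime x)
    (hy : PTime y) :
    PTime fun a => sameOut (adjM (n a) (M a)) (U a) (X a) (Y a) (x a) (y a) := by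
  unfold sameOut
  refine PTime.all hU ?_
  have hw : PTime fun p : α × ℕ => p.2 := PTime.snd
  have h1 : PTime fun p : α × ℕ => decide (p.2 ∈ X p.1) :=
    PTime.mem (hX.comp PTime.fst) hw
  have h2 : PTime fun p : α × ℕ => decide (p.2 ∈ Y p.1) :=
    PTime.mem (hY.comp PTime.fst) hw
  have h3 : PTime fun p : α × ℕ => adjM (n p.1) (M p.1) (x p.1) p.2 :=
    pt_adj h (hn.comp PTime.fst) (hM.comp PTime.fst) (hx.comp PTime.fst) hw
  have h4 : PTime fun p : α × ℕ => adjM (n p.1) (M p.1) (y p.1) p.2 :=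
    pt_adj h (hn.comp PTime.fst) (hM.comp PTime.fst) (hy.comp PTime.fst) hw
  exact h1.or (h2.or (h3.eq h4))

theorem pt_prs {f g : α → ℕ} (hf : PTime f) (hg : PTime g) : PTime fun a => prs (f a) (g a) := by
  unfold prs
  refine PTime.flatMap hf.range ?_
  refine PTime.map (l := fun p : α × ℕ => List.range (g p.1)) (f := fun p j => (p.2, j))
    (hg.comp PTime.fst).range ?_
  fun_prop

theorem pt_mkS {n k : α → ℕ} {p : α → ℕ → Bool} {q r : α → ℕ × ℕ → Bool} (hn : PTime n)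
    (hk : PTime k) (hp : PTime fun z : α × ℕ => p z.1 z.2)
    (hq : PTime fun z : α × ℕ × ℕ => q z.1 z.2) (hr : PTime fun z : α × ℕ × ℕ => r z.1 z.2) :
    PTime fun a => mkS (n a) (k a) (p a) (q a) (r a) := by
  unfold mkS
  exact (PTime.filter hn.range hp).pair ((PTime.filter (pt_prs hk hn) hq).pair
    (PTime.filter (pt_prs hk hk) hr))

theorem pt_relabOK (h : StPTA) {n i j : α → ℕ} {M : α → List Bool} {U : α → List ℕ} {s : α → DS}
    (hn : PTime n) (hM : PTime M) (hU : PTime U) (hi : PTime i) (hj : PTime j) (hs : PTime s) :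
    PTime fun a => relabOK (adjM (n a) (M a)) (U a) (i a) (j a) (s a) := by
  unfold relabOK
  have hL : PTime fun a => (s a).2.1 := hs.snd'.fst'
  refine (hi.eq hj).not.and (PTime.all hL ?_)
  refine PTime.all (l := fun p : α × ℕ × ℕ => (s p.1).2.1)
    (f := fun p q => !(decide (p.2.1 = i p.1)) || (!(decide (q.1 = j p.1)) ||
      sameOut (adjM (n p.1) (M p.1)) (U p.1) (s p.1).1 [] p.2.2 q.2)) (hL.comp PTime.fst) ?_
  have e : PTime fun z : (α × ℕ × ℕ) × ℕ × ℕ => z.1.1 := by fun_prop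
  have h1 : PTime fun z : (α × ℕ × ℕ) × ℕ × ℕ => decide (z.1.2.1 = i z.1.1) :=
    PTime.eq (by fun_prop) (hi.comp e)
  have h2 : PTime fun z : (α × ℕ × ℕ) × ℕ × ℕ => decide (z.2.1 = j z.1.1) :=
    PTime.eq (by fun_prop) (hj.comp e)
  have h3 : PTime fun z : (α × ℕ × ℕ) × ℕ × ℕ =>
      sameOut (adjM (n z.1.1) (M z.1.1)) (U z.1.1) (s z.1.1).1 [] z.1.2.2 z.2.2 :=
    pt_sameOut h (hn.comp e) (hM.comp e) (hU.comp e) ((hs.comp e).fst') (PTime.const [])
      (by fun_prop) (by fun_prop)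
  exact h1.not.or (h2.not.or h3)

theorem pt_relabS {n k i j : α → ℕ} {s : α → DS} (hn : PTime n) (hk : PTime k) (hi : PTime i)
    (hj : PTime j) (hs : PTime s) : PTime fun a => relabS (n a) (k a) (i a) (j a) (s a) := by
  unfold relabS
  refine pt_mkS hn hk ?_ ?_ ?_
  · exact PTime.mem (hs.comp PTime.fst).fst' PTime.snd
  · have e : PTime fun z : α × ℕ × ℕ => z.1 := PTime.fst
    have e2 : PTime fun z : α × ℕ × ℕ => z.2.2 := by fun_prop
    have e3 : PTime fun z : α × ℕ × ℕ => z.2 := PTime.snd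
    have hi' : PTime fun z : α × ℕ × ℕ => i z.1 := hi.comp e
    have hj' : PTime fun z : α × ℕ × ℕ => j z.1 := hj.comp e
    have hs' : PTime fun z : α × ℕ × ℕ => (s z.1).2.1 := (hs.comp e).snd'.fst'
    have h1 : PTime fun z : α × ℕ × ℕ => decide (z.2.1 = i z.1) := PTime.eq (by fun_prop) hi'
    have h2 : PTime fun z : α × ℕ × ℕ => decide (z.2.1 = j z.1) := PTime.eq (by fun_prop) hj'
    have h3 : PTime fun z : α × ℕ × ℕ => decide (z.2 ∈ (s z.1).2.1) :=
      pt_mem hs' e3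
    have h4 : PTime fun z : α × ℕ × ℕ => decide ((i z.1, z.2.2) ∈ (s z.1).2.1) :=
      pt_mem hs' (hi'.pair e2)
    have h5 : PTime fun z : α × ℕ × ℕ => (s z.1).2.1.all fun c => !(decide (c.1 = j z.1)) := by
      refine PTime.all hs' ?_
      refine PTime.not ?_
      exact PTime.eq (by fun_prop) (hj'.comp PTime.fst)
    exact PTime.cond h1 (PTime.const false) (PTime.cond h2 (h3.or (h4.and h5)) h3)
  · have e : PTime fun z : α × ℕ × ℕ => z.1 := PTime.fst
    have e2 : PTime fun z : α × ℕ × ℕ => z.2.2 := by fun_prop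
    have e3 : PTime fun z : α × ℕ × ℕ => z.2 := PTime.snd
    have hi' : PTime fun z : α × ℕ × ℕ => i z.1 := hi.comp e
    have hj' : PTime fun z : α × ℕ × ℕ => j z.1 := hj.comp e
    have hs' : PTime fun z : α × ℕ × ℕ => (s z.1).2.2 := (hs.comp e).snd'.snd'
    have e4 : PTime fun z : α × ℕ × ℕ => z.2.1 := by fun_prop
    have h0 : PTime fun z : α × ℕ × ℕ => decide (z.2.1 = z.2.2) :=
      PTime.eq (by fun_prop) (by fun_prop)
    have h1 : PTime fun z : α × ℕ × ℕ => decide (z.2.1 = i z.1) := PTime.eq (by fun_prop) hi'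
    have h2 : PTime fun z : α × ℕ × ℕ => decide (z.2.2 = i z.1) := PTime.eq (by fun_prop) hi'
    have h3 : PTime fun z : α × ℕ × ℕ => decide (z.2 ∈ (s z.1).2.2) :=
      pt_mem hs' e3
    have h4 : PTime fun z : α × ℕ × ℕ => decide (z.2.1 = j z.1) := PTime.eq (by fun_prop) hj'
    have h5 : PTime fun z : α × ℕ × ℕ => decide ((i z.1, z.2.2) ∈ (s z.1).2.2) :=
      pt_mem hs' (hi'.pair e2)
    have h6 : PTime fun z : α × ℕ × ℕ => decide (z.2.2 = j z.1) := PTime.eq (by fun_prop) hj'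
    have h7 : PTime fun z : α × ℕ × ℕ => decide ((z.2.1, i z.1) ∈ (s z.1).2.2) :=
      pt_mem hs' (PTime.pair e4 hi')
    exact h0.or (h1.or (h2.or (h3.and ((h4.not.or h5).and (h6.not.or h7)))))

theorem pt_unS (h : StPTA) {n k : α → ℕ} {M : α → List Bool} {U : α → List ℕ} {s : α → DS}
    (hn : PTime n) (hM : PTime M) (hk : PTime k) (hU : PTime U) (hs : PTime s) :
    PTime fun a => unS (adjM (n a) (M a)) (n a) (k a) (U a) (s a) := by
  unfold unS
  refine PTime.flatMap (pt_prs hk hk) ?_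
  have e : PTime fun z : α × ℕ × ℕ => z.1 := PTime.fst
  refine PTime.cond (pt_relabOK h (hn.comp e) (hM.comp e) (hU.comp e) (by fun_prop)
    (by fun_prop) (hs.comp e)) ?_ (PTime.const [])
  exact (pt_relabS (hn.comp e) (hk.comp e) (by fun_prop) (by fun_prop) (hs.comp e)).cons
    (PTime.const [])

end PTUaux

/-- PTU -/
theorem stPTU (h : StPTA) : StPTU :=
  PTUaux.pt_unS h (α := Ctx × DS) (n := fun p => p.1.1.1) (k := fun p => p.1.2.1)
    (M := fun p => p.1.1.2) (U := fun p => p.1.2.2) (s := fun p => p.2) (by fun_prop)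
    (by fun_prop) (by fun_prop) (by fun_prop) (by fun_prop)

end Pool.Agent.Lib.MP_0b43f8_lc
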