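import Pool.Agent.Lib.MP_0b43f8_lc.Core
import Pool.Agent.Lib.PTime.Fin
import Pool.Agent.Lib.PTime.TM

/-!
# Clique-width of unit interval graphs: the statements about polynomial time
-/

namespace Pool.Agent.Lib.MP_0b43f8_lc

open Pool.Agent.Lib.PT

/-- The number `n` of vertices with the matrix, the number `k` of labels, the set `U`. -/
abbrev Ctx : Type := (ℕ × List Bool) × ℕ × List ℕ

/-- PTA -/
def StPTA : Prop := PTime fun p : (ℕ × List Bool) × ℕ × ℕ => adjM p.1.1 p.1.2 p.2.1 p.2.2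

/-- PTI -/
def StPTI : Prop := PTime fun p : Ctx => initS p.1.1 p.2.1 p.2.2

/-- PTU -/
def StPTU : Prop := PTime fun p : Ctx × DS =>
  unS (adjM p.1.1.1 p.1.1.2) p.1.1.1 p.1.2.1 p.1.2.2 p.2

/-- PTB -/
def StPTB : Prop := PTime fun p : Ctx × DS × DS =>
  binS (adjM p.1.1.1 p.1.1.2) p.1.1.1 p.1.2.1 p.1.2.2 p.2.1 p.2.2

/-- PTC -/
def StPTC : Prop := PTime fun p : Ctx × ℕ =>
  closG (initS p.1.1.1 p.1.2.1 p.1.2.2)
    (unS (adjM p.1.1.1 p.1.1.2) p.1.1.1 p.1.2.1 p.1.2.2)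
    (binS (adjM p.1.1.1 p.1.1.2) p.1.1.1 p.1.2.1 p.1.2.2) p.2

/-- PTP -/
def StPTP : Prop := PTime fun p : (ℕ × List Bool) × ℕ => piece (adjM p.1.1 p.1.2) p.1.1 p.2

/-- PTS -/
def StPTS : Prop := PTime fun p : (ℕ × List Bool) × ℕ × ℕ =>
  solve p.1.1 p.1.2 p.2.1 p.2.2

/-- The algorithm for a fixed `k`, as a function of the input word. -/
def algK (k : ℕ) (w : List Bool) : Bool :=
  solve (w.idxOf false) (w.drop (w.idxOf false + 1)) k ((w.idxOf false + 2) ^ (15 * k + 4))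

/-- PTK -/
def StPTK : Prop := ∀ k, PTime (algK k)

/-- PARSE -/
def StParse : Prop := ∀ (n k : ℕ) (G : SimpleGraph (Fin n)),
  algK k (input G) = solve n (matrix G) k ((n + 2) ^ (15 * k + 4))

/-- TM1 -/
def StTM1 : Prop := ∀ k : ℕ, ∃ F : List Bool → Bool,
  Nonempty (Turing.TM2ComputableInPolyTime (id : List Bool → List Bool) (fun b : Bool => [b]) F) ∧
  ∀ (n : ℕ) (G : SimpleGraph (Fin n)), 1 ≤ n → IsUnitInterval G →
    (F (input G) = true ↔ CliqueWidthLE G k)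

open Classical in
/-- TM2 -/
def StTM2 : Prop := ∃ (c : ℕ) (M : Turing.TM2ComputableAux Bool Bool),
  ∀ (n k : ℕ) (G : SimpleGraph (Fin n)), 1 ≤ n → 1 ≤ k → IsUnitInterval G →
    Nonempty (Turing.TM2OutputsInTime M.tm ((inputK G k).map M.inputAlphabet.invFun)
      (some ([decide (CliqueWidthLE G k)].map M.outputAlphabet.invFun))
      ((n + k + 2) ^ (c * (min k (Nat.sqrt n) + 1))))

end Pool.Agent.Lib.MP_0b43f8_lc
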